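import Pool.Agent.MP_c5d52e_co.H55.RCOUNT

/-! Assembly of the linear defect bound from the rows. -/

open Finset

set_option linter.unusedSectionVars false

namespace Pool.Agent.MP_c5d52e_co.H55

namespace Asm

theorem le_of_sq {N k η B : ℝ} (_hk : 0 ≤ k) (hη : 0 ≤ η) (h : N ^ 2 ≤ B)
    (hB : B ≤ η ^ 2 * k ^ 4) : N ≤ η * k ^ 2 := by
  refine le_of_sq_le_sq ?_ (by positivity)
  nlinarith

variable {G : Type} [AddCommGroup G] [Fintype G] [DecidableEq G]

/-- The standing numerical situation. -/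
structure Sit (S : Finset G) (η : ℝ) (I : ℕ) : Prop where
  sid : Sid S
  pos : 0 < η
  small : η ≤ 1 / 100
  big : 100 ≤ η ^ 4 * I
  huge : 100 * (I : ℝ) ^ 2 ≤ η ^ 2 * S.card
  del : 2 * (DD S).card ≤ S.card

namespace Sit

variable {S : Finset G} {η : ℝ} {I : ℕ} (h : Sit S η I)
include h

theorem eta2 : η ^ 2 ≤ 1 / 10000 := by nlinarith [h.pos, h.small]

theorem I_ge : (100 : ℝ) ≤ I := by
  have h1 := h.eta2
  have h2 : η ^ 4 ≤ 1 := by nlinarith [sq_nonneg η]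
  nlinarith [h.big, (Nat.cast_nonneg I : (0 : ℝ) ≤ I)]

theorem k_ge : 100 * (I : ℝ) ^ 2 ≤ η * S.card := by
  have h1 : η ^ 2 ≤ η := by nlinarith [h.pos, h.small]
  nlinarith [h.huge, (Nat.cast_nonneg S.card : (0 : ℝ) ≤ S.card)]

theorem k_ge' : 100 * (I : ℝ) ^ 2 ≤ S.card := by
  have h1 : η ≤ 1 := by linarith [h.small]
  nlinarith [h.k_ge, (Nat.cast_nonneg S.card : (0 : ℝ) ≤ S.card)]

theorem k_ge'' : (1000000 : ℝ) ≤ η * S.card := by nlinarith [h.k_ge, h.I_ge]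

theorem k_pos : (1000000 : ℝ) ≤ S.card := by nlinarith [h.k_ge', h.I_ge]

theorem del' : 2 * ((DD S).card : ℝ) ≤ S.card := by exact_mod_cast h.del

theorem n_eq : 2 * (Fintype.card G : ℝ) = (S.card : ℝ) ^ 2 + 2 * (DD S).card := by
  exact_mod_cast h.sid.card_eq

theorem n_le : (Fintype.card G : ℝ) ≤ (S.card : ℝ) ^ 2 := by
  nlinarith [h.n_eq, h.del', h.k_pos]

theorem n_ge : (S.card : ℝ) ^ 2 ≤ 2 * Fintype.card G := by
  nlinarith [h.n_eq, (Nat.cast_nonneg (DD S).card : (0 : ℝ) ≤ (DD S).card)]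

/-- A large image means a small kernel. -/
theorem tor_small {c : ℤ} (hc : I < (img G c).card) :
    (S.card : ℝ) + 2 * tor G c ≤ (η ^ 2 / 5) ^ 2 * (S.card : ℝ) ^ 2 := by
  have h1 : (tor G c : ℝ) * (img G c).card = Fintype.card G := by exact_mod_cast tor_mul_img c
  have h2 : (I : ℝ) ≤ (img G c).card := by exact_mod_cast hc.le
  have h3 : (0 : ℝ) ≤ tor G c := Nat.cast_nonneg _
  have h4 : (tor G c : ℝ) * I ≤ (S.card : ℝ) ^ 2 := by nlinarith [h.n_le]
  have h5 := h.I_ge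
  have h6 : (I : ℝ) ≤ S.card := by nlinarith [h.k_ge']
  have h7 : ((S.card : ℝ) + 2 * tor G c) * I ≤ 3 * (S.card : ℝ) ^ 2 := by nlinarith [h.k_pos]
  have h8 : 3 * (S.card : ℝ) ^ 2 ≤ (η ^ 2 / 5) ^ 2 * (S.card : ℝ) ^ 2 * I := by
    nlinarith [mul_le_mul_of_nonneg_right h.big (sq_nonneg (S.card : ℝ)), sq_nonneg (S.card : ℝ)]
  exact le_of_mul_le_mul_right (h7.trans h8) (by linarith)

theorem cube_small {N C : ℝ} (hC : C ≤ 100 * (I : ℝ) ^ 2) (hN : N ^ 2 ≤ C * (S.card : ℝ) ^ 3) :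
    N ≤ η * (S.card : ℝ) ^ 2 := by
  refine le_of_sq (Nat.cast_nonneg _) h.pos.le hN ?_
  have := mul_le_mul_of_nonneg_right (hC.trans h.huge)
    (pow_nonneg (Nat.cast_nonneg S.card : (0 : ℝ) ≤ S.card) 3)
  nlinarith

theorem lin_small {N C : ℝ} (hC : C ≤ 100 * (I : ℝ) ^ 2) (hN : N ≤ C * S.card) :
    N ≤ η * (S.card : ℝ) ^ 2 := by
  have := mul_le_mul_of_nonneg_right (hC.trans h.k_ge) (Nat.cast_nonneg S.card : (0 : ℝ) ≤ S.card)
  nlinarith

theorem tri_small (hT : RowTRI) {a b : ℤ} (ha : I < (img G a).card) (hb : I < (img G b).card) :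
    (tri S S a b : ℝ) ≤ η * (S.card : ℝ) ^ 2 := by
  have h1 := hT G S h.sid S a b (Nat.sqrt (S.card + 2 * tor G b)) fun v =>
    Nat.le_sqrt'.2 (h.sid.cnt_sq_le b v)
  have h2 : ((Nat.sqrt (S.card + 2 * tor G b) : ℕ) : ℝ) ^ 2 ≤ S.card + 2 * tor G b := by
    exact_mod_cast Nat.sqrt_le' _
  generalize Nat.sqrt (S.card + 2 * tor G b) = J at h1 h2
  have hk : (0 : ℝ) ≤ S.card := Nat.cast_nonneg _
  have h3 : (J : ℝ) ≤ η ^ 2 / 5 * S.card := by
    refine (pow_le_pow_iff_left₀ (by positivity) (by positivity) two_ne_zero).1 ?_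
    rw [mul_pow]
    exact h2.trans (h.tor_small hb)
  have h4 := h.tor_small ha
  have h5 : (tri S S a b : ℝ) ^ 2 ≤
      S.card * (S.card * (S.card + 2 * tor G a) + 2 * (S.card : ℝ) ^ 2 * J) := by
    exact_mod_cast h1
  refine le_of_sq hk h.pos.le h5 ?_
  have h6 : (η ^ 2 / 5) ^ 2 ≤ η ^ 2 / 5 := by nlinarith [h.eta2, sq_nonneg η]
  have h7 := mul_le_mul_of_nonneg_left h4 (sq_nonneg (S.card : ℝ))
  have h8 := mul_le_mul_of_nonneg_left h3 (pow_nonneg hk 3)
  have h9 := mul_le_mul_of_nonneg_left h6 (pow_nonneg hk 4)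
  nlinarith [mul_nonneg (sq_nonneg η) (pow_nonneg hk 4)]

theorem n10 (h1 : RowN1) : ((Ty S 1 0).card : ℝ) ≤ η * (S.card : ℝ) ^ 2 := by
  have h2 : ((Ty S 1 0).card : ℝ) ^ 2 ≤ (S.card : ℝ) ^ 2 +
      2 * S.card * (Fintype.card G + 1) + 4 * Fintype.card G := by
    exact_mod_cast (h1 G S h.sid).1
  refine h.cube_small (C := 10) (by nlinarith [h.I_ge]) (h2.trans ?_)
  have hk := h.k_pos
  have := mul_le_mul_of_nonneg_left h.n_le (show (0 : ℝ) ≤ S.card by linarith)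
  nlinarith [h.n_le, mul_le_mul_of_nonneg_left hk (sq_nonneg (S.card : ℝ))]

theorem n01 (h1 : RowN1) : ((Ty S 0 1).card : ℝ) ≤ η * (S.card : ℝ) ^ 2 := by
  have h2 : ((Ty S 0 1).card : ℝ) ^ 2 ≤ (S.card : ℝ) * ((DD S).card : ℝ) ^ 2 +
      2 * (DD S).card * Fintype.card G := by
    exact_mod_cast (h1 G S h.sid).2.1
  refine h.cube_small (C := 10) (by nlinarith [h.I_ge]) (h2.trans ?_)
  have hk := h.k_pos
  have hd : (0 : ℝ) ≤ (DD S).card := Nat.cast_nonneg _
  have e1 : ((DD S).card : ℝ) ^ 2 ≤ (S.card : ℝ) ^ 2 := by nlinarith [h.del']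
  have e2 := mul_le_mul_of_nonneg_left e1 (show (0 : ℝ) ≤ S.card by linarith)
  have e3 := mul_le_mul h.del' h.n_le (Nat.cast_nonneg _) (show (0 : ℝ) ≤ S.card by linarith)
  nlinarith [pow_nonneg (show (0 : ℝ) ≤ S.card by linarith) 3]

theorem classB (h1 : RowN1) (hk : S.card % 3 = 2) :
    (1 - 20 * η) * S.card ≤ 2 * (DD S).card := by
  have h2 : 4 * (Fintype.card G : ℝ) ≤ (S.card : ℝ) ^ 2 + 2 * S.card * (DD S).card +
      8 * S.card + 3 * (Ty S 1 0).card := by exact_mod_cast (rowCOUNT G S h.sid).1 hk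
  have h3 := h.n10 h1
  have h4 := h.k_pos
  have h5 := mul_le_mul_of_nonneg_right h.k_ge'' (show (0 : ℝ) ≤ S.card by linarith)
  refine le_of_mul_le_mul_right ?_ (show (0 : ℝ) < S.card by linarith)
  nlinarith [h.n_ge]

theorem classA (hT : RowTRI) (h1 : RowN1) (h11 : RowN11) (h30 : RowN30) (hk : S.card % 3 = 0) :
    (1 - 20 * η) * S.card ≤ 2 * (DD S).card := by
  obtain ⟨c, hc⟩ : ∃ c : ℤ, 3 * c = S.card := ⟨(S.card : ℤ) / 3, by omega⟩
  obtain ⟨a1, a2, a3, a4⟩ := h11 G S h.sid c hc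
  have h4 := h.k_pos
  have hk0 : (0 : ℝ) ≤ S.card := by linarith
  have h5 := mul_le_mul_of_nonneg_right h.k_ge'' hk0
  have hI := h.I_ge
  by_cases hi : (img G c).card ≤ I
  · exfalso
    have hi' : ((img G c).card : ℝ) ≤ I := by exact_mod_cast hi
    have b1 : ((Ty S 1 1).card : ℝ) ≤ 2 * S.card * (img G c).card := by exact_mod_cast a4
    have b2 : ((Ty S 1 1).card : ℝ) ≤ η * (S.card : ℝ) ^ 2 :=
      h.lin_small (C := 2 * I) (by nlinarith) (by nlinarith)
    have b3 : ((Ty S 3 0).card : ℝ) ^ 2 ≤ ((img G c).card : ℝ) ^ 2 * (27 * (S.card : ℝ) ^ 3) := by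
      exact_mod_cast h30 G S h.sid c hc
    have b4 : ((img G c).card : ℝ) ^ 2 ≤ (I : ℝ) ^ 2 :=
      pow_le_pow_left₀ (Nat.cast_nonneg _) hi' 2
    have b5 : ((Ty S 3 0).card : ℝ) ≤ η * (S.card : ℝ) ^ 2 :=
      h.cube_small (C := 27 * (I : ℝ) ^ 2) (by nlinarith) (by
        nlinarith [mul_le_mul_of_nonneg_right b4 (pow_nonneg hk0 3)])
    have b6 : 3 * (S.card : ℝ) ^ 2 ≤ 8 * ((DD S).card : ℝ) ^ 2 +
        9 * (2 * S.card + (Ty S 1 1).card + (Ty S 3 0).card) := by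
      exact_mod_cast (rowCOUNT G S h.sid).2.2.2 hk
    have b7 : 4 * ((DD S).card : ℝ) ^ 2 ≤ (S.card : ℝ) ^ 2 := by
      nlinarith [h.del', (Nat.cast_nonneg (DD S).card : (0 : ℝ) ≤ (DD S).card)]
    nlinarith [mul_le_mul_of_nonneg_right h.small (sq_nonneg (S.card : ℝ))]
  push Not at hi
  have b0 : ((Ty S 0 0).card : ℝ) ≤ η * (S.card : ℝ) ^ 2 := by
    have e1 : ((Ty S 0 0).card : ℝ) ≤ tor G c := by exact_mod_cast (h1 G S h.sid).2.2 c hc
    have e2 := h.tor_small hi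
    have e3 : (η ^ 2 / 5) ^ 2 ≤ η := by
      have := h.eta2
      have e4 : η ^ 2 ≤ η := by nlinarith [h.pos, h.small]
      nlinarith [sq_nonneg η]
    nlinarith [mul_le_mul_of_nonneg_right e3 (sq_nonneg (S.card : ℝ)),
      (Nat.cast_nonneg (tor G c) : (0 : ℝ) ≤ tor G c)]
  have b1 : ((Ty S 1 1).card : ℝ) ≤ η * (S.card : ℝ) ^ 2 := by
    by_cases hq : I < (img G (2 * c - 1)).card
    · refine le_trans (by exact_mod_cast a1) (h.tri_small hT (a := -c) (b := 1 - 2 * c) ?_ ?_)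
      · rwa [img_neg]
      · rwa [show 1 - 2 * c = -(2 * c - 1) by ring, img_neg]
    push Not at hq
    have hq' : ((img G (2 * c - 1)).card : ℝ) ≤ I := by exact_mod_cast hq
    by_cases hr : (img G (c + 1)).card ≤ I
    · have hr' : ((img G (c + 1)).card : ℝ) ≤ I := by exact_mod_cast hr
      have e1 : ((Ty S 1 1).card : ℝ) ≤
          2 * S.card * (img G (c + 1)).card * (img G (2 * c - 1)).card := by exact_mod_cast a3
      have e2 := mul_le_mul hr' hq' (Nat.cast_nonneg _) (Nat.cast_nonneg _)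
      exact h.lin_small (C := 2 * (I : ℝ) ^ 2) (by nlinarith) (by
        nlinarith [mul_le_mul_of_nonneg_left e2 hk0])
    push Not at hr
    have e1 : (tor G c : ℝ) ≤ I := by
      exact_mod_cast (tor_le_img (G := G) (a := c) (b := 2 * c - 1) ⟨2, -1, by ring⟩).trans hq
    have e2 := h.tor_small hr
    have e3 : (tri S (DD S) (c + 1) c : ℝ) ^ 2 ≤ (DD S).card * ((DD S).card *
        (S.card + 2 * tor G (c + 1)) + 2 * (S.card : ℝ) ^ 2 * tor G c) := by
      exact_mod_cast hT G S h.sid (DD S) (c + 1) c (tor G c) fun v => fib_le c v _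
    refine le_trans (by exact_mod_cast a2) (le_of_sq hk0 h.pos.le e3 ?_)
    have hd : (0 : ℝ) ≤ (DD S).card := Nat.cast_nonneg _
    have hd' : ((DD S).card : ℝ) ≤ S.card := by linarith [h.del']
    have e4 : (η ^ 2 / 5) ^ 2 ≤ η ^ 2 / 2 := by nlinarith [h.eta2, sq_nonneg η]
    have e5 : (S.card : ℝ) + 2 * tor G (c + 1) ≤ η ^ 2 / 2 * (S.card : ℝ) ^ 2 :=
      e2.trans (mul_le_mul_of_nonneg_right e4 (sq_nonneg _))
    have e6 : 2 * (tor G c : ℝ) ≤ η ^ 2 / 2 * S.card := by nlinarith [h.huge]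
    have e7 := mul_le_mul hd' e5 (by positivity) hk0
    have e8 := mul_le_mul_of_nonneg_left e6 (sq_nonneg (S.card : ℝ))
    have e9 : ((DD S).card : ℝ) * (S.card + 2 * tor G (c + 1)) + 2 * (S.card : ℝ) ^ 2 * tor G c ≤
        η ^ 2 * (S.card : ℝ) ^ 3 := by nlinarith
    have e10 := mul_le_mul hd' e9 (by positivity) hk0
    nlinarith
  have h2 : 3 * (Fintype.card G : ℝ) ≤ (S.card : ℝ) ^ 2 + S.card * (DD S).card +
      6 * S.card + 3 * (Ty S 0 0).card + (Ty S 1 1).card := by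
    exact_mod_cast (rowCOUNT G S h.sid).2.2.1 hk
  refine le_of_mul_le_mul_right ?_ (show (0 : ℝ) < S.card by linarith)
  nlinarith [h.n_ge]

/-- Counts in cosets of bounded index. -/
theorem cnt_near {c : ℤ} {v : G} (hv : v ∈ img G c) :
    |((img G c).card : ℝ) * cnt S c v - S.card| ≤ (img G c).card * (η * S.card) := by
  have h4 := h.k_pos
  refine abs_le_of_sq_le_sq' ?_ (by have := h.pos; positivity) |> fun hh => abs_le.2 hh
  refine (h.sid.equi c hv).trans ?_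
  rw [mul_pow]
  refine mul_le_mul_of_nonneg_left ?_ (sq_nonneg _)
  have := mul_le_mul_of_nonneg_right h.huge (show (0 : ℝ) ≤ S.card by linarith)
  nlinarith [h.del', h.I_ge, mul_le_mul_of_nonneg_right (show (1 : ℝ) ≤ (I : ℝ) ^ 2 by
    nlinarith [h.I_ge]) (show (0 : ℝ) ≤ S.card by linarith)]

theorem cnt_le {c : ℤ} {j : ℝ} (hj : 0 < j) (hi : j ≤ (img G c).card) (v : G) :
    cnt S c v ≤ ⌊(1 / j + η) * S.card⌋₊ := by
  by_cases hv : v ∈ img G c
  · refine Nat.le_floor ?_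
    have h1 := (abs_le.1 (h.cnt_near hv)).2
    have h2 : (0 : ℝ) < (img G c).card := hj.trans_le hi
    have h3 : (S.card : ℝ) ≤ (img G c).card * (1 / j * S.card) := by
      rw [← mul_assoc, mul_one_div]
      exact le_mul_of_one_le_left (Nat.cast_nonneg _) ((one_le_div hj).2 hi)
    refine le_of_mul_le_mul_left ?_ h2
    nlinarith
  · have : cnt S c v = 0 := by
      rw [cnt, card_eq_zero, filter_eq_empty_iff]
      exact fun s _ e => hv (mem_img.2 ⟨s, e⟩)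
    rw [this]; exact Nat.zero_le _

theorem n20 (hT : RowTRI) (h20 : RowN20) (h2 : RowTWO) {c : ℤ} (hc : 3 * c = S.card + 2)
    (hi : (img G (2 * c - 1)).card ≠ 1) :
    3 * ((Ty S 2 0).card : ℝ) ≤ Fintype.card G + 5 * η * (S.card : ℝ) ^ 2 := by
  obtain ⟨a1, a2, a3⟩ := h20 G S h.sid c hc
  have h4 := h.k_pos
  have hk0 : (0 : ℝ) ≤ S.card := by linarith
  have hI := h.I_ge
  have hη := h.pos
  have hn : (0 : ℝ) ≤ Fintype.card G := Nat.cast_nonneg _
  have hs : 0 ≤ η * (S.card : ℝ) ^ 2 := by positivity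
  by_cases hq : I < (img G (2 * c - 1)).card
  · have : ((Ty S 2 0).card : ℝ) ≤ η * (S.card : ℝ) ^ 2 := by
      by_cases hr : I < (img G c).card
      · exact le_trans (by exact_mod_cast a1) (h.tri_small hT hr hq)
      · have hr' : ((img G c).card : ℝ) ≤ I := by exact_mod_cast not_lt.1 hr
        have e1 : ((Ty S 2 0).card : ℝ) ≤ 2 * S.card * (img G c).card + 2 * S.card := by
          exact_mod_cast a2
        exact h.lin_small (C := 2 * I + 2) (by nlinarith) (by nlinarith)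
    nlinarith
  have hq' : ((img G (2 * c - 1)).card : ℝ) ≤ I := by exact_mod_cast not_lt.1 hq
  by_cases h3 : 3 ≤ (img G (2 * c - 1)).card
  · have e1 := a3 _ (h.cnt_le (c := 2 * c - 1) (j := 3) (by norm_num) (by exact_mod_cast h3))
    have e2 : ((⌊(1 / 3 + η) * S.card⌋₊ : ℕ) : ℝ) ≤ (1 / 3 + η) * S.card :=
      Nat.floor_le (by positivity)
    generalize ⌊(1 / 3 + η) * (S.card : ℝ)⌋₊ = J at e1 e2
    have e3 : 2 * ((Ty S 2 0).card : ℝ) ≤
        (S.card + ((img G (2 * c - 1)).card : ℝ) ^ 2) * J := by exact_mod_cast e1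
    have e4 : ((img G (2 * c - 1)).card : ℝ) ^ 2 ≤ η * S.card := by
      nlinarith [pow_le_pow_left₀ (Nat.cast_nonneg _) hq' 2, h.k_ge, sq_nonneg (I : ℝ)]
    have e5 := mul_le_mul (show (S.card : ℝ) + ((img G (2 * c - 1)).card : ℝ) ^ 2 ≤
      (1 + η) * S.card by linarith) e2 (Nat.cast_nonneg _) (by positivity)
    nlinarith [h.n_ge, mul_le_mul_of_nonneg_right h.small hs]
  have hi2 : (img G (2 * c - 1)).card = 2 := by
    have := img_pos (G := G) (2 * c - 1)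
    omega
  have e1 := h2 G S h.sid c hc hi2 _ ⌈(1 / 2 - η) * S.card⌉₊
    (h.cnt_le (c := 2 * c - 1) (j := 2) (by norm_num) (by rw [hi2]; norm_num)) fun v hv => by
      refine Nat.ceil_le.2 ?_
      have := (abs_le.1 (h.cnt_near hv)).1
      rw [hi2] at this
      push_cast at this
      linarith
  have e2 : ((⌊(1 / 2 + η) * S.card⌋₊ : ℕ) : ℝ) ≤ (1 / 2 + η) * S.card :=
    Nat.floor_le (by positivity)
  have e3 : (1 / 2 - η) * S.card ≤ ((⌈(1 / 2 - η) * S.card⌉₊ : ℕ) : ℝ) := Nat.le_ceil _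
  generalize ⌊(1 / 2 + η) * (S.card : ℝ)⌋₊ = J at e1 e2
  generalize ⌈(1 / 2 - η) * (S.card : ℝ)⌉₊ = J' at e1 e3
  have e4 : 3 * ((Ty S 2 0).card : ℝ) + S.card * J' ≤ Fintype.card G + S.card * J := by
    exact_mod_cast e1
  nlinarith [mul_le_mul_of_nonneg_left e2 hk0, mul_le_mul_of_nonneg_left e3 hk0]

omit h in
theorem exists_exc (ha : ∑ v ∈ S, exc S v ≤ 3 * S.card) {P : Finset G} (hP : P ⊆ S) {L : ℕ}
    (hL : 0 < L) (hc : L ≤ P.card) : ∃ v ∈ P, exc S v * L ≤ 3 * S.card := by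
  obtain ⟨v, hv, hmin⟩ := exists_min_image P (exc S) (card_pos.1 (hL.trans_le hc))
  refine ⟨v, hv, ?_⟩
  have h1 := card_nsmul_le_sum P (exc S) _ hmin
  have h2 : ∑ v ∈ P, exc S v ≤ ∑ v ∈ S, exc S v := sum_le_sum_of_subset hP
  rw [smul_eq_mul] at h1
  nlinarith [Nat.mul_le_mul_left (exc S v) hc]

theorem one (ha : RowONEa) (hb : RowONEc) (hp : RowPERF) {c : ℤ} (hc : 3 * c = S.card + 2)
    (hi : (img G (2 * c - 1)).card = 1) : (1 - 20 * η) * S.card ≤ 2 * (DD S).card := by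
  have hkill : ∀ g : G, (2 * c - 1) • g = 0 := fun g =>
    card_le_one.1 hi.le _ (mem_img.2 ⟨g, rfl⟩) _ (mem_img.2 ⟨0, by simp⟩)
  obtain ⟨a1, a2, a3⟩ := ha G S h.sid
  have a4 := a3 c hc hkill
  have h4 := h.k_pos
  have hI := h.I_ge
  have hI' : 100 ≤ I := by exact_mod_cast hI
  have hk' : 100 * I ^ 2 ≤ S.card := by exact_mod_cast h.k_ge'
  have hPS : PP S ⊆ S := filter_subset _ _
  have hQ : (QQ S).card ≤ S.card := card_le_card (filter_subset _ _)
  have hz : (PP S ∩ DD S).card ≤ (S ∩ DD S).card := card_le_card (inter_subset_inter_right hPS)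
  have hsplit := card_sdiff_add_card_inter (PP S) (DD S)
  have hdel := h.del
  by_cases h1 : I ≤ (PP S \ DD S).card
  · exfalso
    obtain ⟨v, hv, e⟩ := exists_exc a2 (sdiff_subset.trans hPS) (by omega) h1
    rw [mem_sdiff] at hv
    have := a4 v hv.1
    rw [if_neg hv.2] at this
    have e2 : exc S v * 100 ≤ 3 * S.card := (Nat.mul_le_mul_left _ hI').trans e
    nlinarith
  by_cases h2 : I ≤ (PP S ∩ DD S).card
  · obtain ⟨v, hv, e⟩ := exists_exc a2 (inter_subset_left.trans hPS) (by omega) h2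
    rw [mem_inter] at hv
    have := a4 v hv.1
    rw [if_pos hv.2] at this
    have e1 : 2 * S.card ≤ 20 + 5 * exc S v + 4 * (DD S).card := by omega
    have e2 : 2 * (S.card : ℝ) ≤ 20 + 5 * exc S v + 4 * (DD S).card := by exact_mod_cast e1
    have e3 : (exc S v : ℝ) * I ≤ 3 * S.card := by exact_mod_cast e
    have e4 : (100 : ℝ) ≤ η * I := by
      have p1 : η ^ 4 ≤ η := by
        have := h.eta2
        have p2 : η ^ 2 ≤ η := by nlinarith [h.pos, h.small]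
        nlinarith [sq_nonneg η]
      nlinarith [h.big]
    have e5 : (exc S v : ℝ) ≤ η * S.card := by
      refine le_of_mul_le_mul_right (e3.trans ?_) (show (0 : ℝ) < I by linarith)
      nlinarith [mul_le_mul_of_nonneg_right e4 (show (0 : ℝ) ≤ S.card by linarith)]
    nlinarith [h.k_ge'']
  exfalso
  have hd1 : 0 < (DD S).card := card_pos.2 ⟨0, zero_mem_DD S⟩
  obtain ⟨F, hF⟩ : ∃ F, F + 1 = (PP S).card + (QQ S).card + (DD S).card :=
    ⟨(PP S).card + (QQ S).card + (DD S).card - 1, by omega⟩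
  have b1 := hb G S h.sid c hc hkill F hF
  have hz2 : (PP S ∩ DD S).card + 1 ≤ (DD S).card := by
    rw [← card_erase_add_one (zero_mem_DD S)]
    refine Nat.succ_le_succ (card_le_card fun x hx => ?_)
    rw [mem_inter] at hx
    exact mem_erase.2 ⟨fun e => h.sid.zero_notMem (e ▸ hPS hx.1), hx.2⟩
  have hd2 : (DD S).card ≠ 2 := by
    intro e
    have e1 : ((DD S).erase 0).card = 1 := by rw [card_erase_of_mem (zero_mem_DD S), e]
    obtain ⟨d, hd⟩ := card_eq_one.1 e1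
    have m1 : d ∈ (DD S).erase 0 := by rw [hd]; simp
    rw [mem_erase] at m1
    have m2 : -d ∈ (DD S).erase 0 := mem_erase.2 ⟨neg_ne_zero.2 m1.1, h.sid.neg_mem_DD m1.2⟩
    rw [hd, mem_singleton] at m2
    have e2 := hkill d
    rw [sub_smul, one_smul, mul_comm, mul_smul, two_smul] at e2
    nth_rewrite 1 [← m2] at e2
    rw [neg_add_cancel, smul_zero, zero_sub, neg_eq_zero] at e2
    exact m1.1 e2
  by_cases hF0 : F = 0
  · have e1 : (QQ S).card = 0 := by omega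
    have e2 := hp G S h.sid (by omega) fun t ht => by
      by_contra hh
      have : t ∈ QQ S := mem_filter.2 ⟨ht, hh⟩
      rw [card_eq_zero.1 e1] at this
      simp at this
    nlinarith
  obtain ⟨u, hu⟩ : ∃ u, F = u + 1 + (PP S ∩ DD S).card + 1 :=
    ⟨F - (PP S ∩ DD S).card - 2, by omega⟩
  have c1 : S.card * (u + 1) ≤ F ^ 2 + 3 * F + 1 := by
    have : S.card * F = S.card * (u + 1) + S.card * (PP S ∩ DD S).card + S.card := by
      rw [hu]; ring
    omega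
  have c2 : F ≤ u + 1 + I := by omega
  have c3 : 2 * (u + 1) ≤ S.card + 8 * I := by omega
  have c4 : F ^ 2 ≤ (u + 1 + I) ^ 2 := Nat.pow_le_pow_left c2 2
  have c5 : S.card * (u + 1) ≤ (u + 1 + I ^ 2 + 5 * I + 4) * (u + 1) := by
    nlinarith [Nat.zero_le (u * I ^ 2), Nat.zero_le (u * I)]
  have c6 := Nat.le_of_mul_le_mul_right c5 (Nat.succ_pos u)
  nlinarith

theorem classC (hT : RowTRI) (h1 : RowN1) (h20 : RowN20) (h2 : RowTWO) (ha : RowONEa)
    (hb : RowONEc) (hp : RowPERF) (hk : S.card % 3 = 1) :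
    (1 - 20 * η) * S.card ≤ 2 * (DD S).card := by
  obtain ⟨c, hc⟩ : ∃ c : ℤ, 3 * c = S.card + 2 := ⟨((S.card : ℤ) + 2) / 3, by omega⟩
  by_cases hi : (img G (2 * c - 1)).card = 1
  · exact h.one ha hb hp hc hi
  have e1 := h.n20 hT h20 h2 hc hi
  have e2 := h.n01 h1
  have e3 : 5 * (Fintype.card G : ℝ) ≤ (S.card : ℝ) ^ 2 + 2 * S.card * (DD S).card +
      10 * S.card + 3 * ((Ty S 2 0).card + (Ty S 0 1).card) := by
    exact_mod_cast (rowCOUNT G S h.sid).2.1 hk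
  have h4 := h.k_pos
  have h5 := mul_le_mul_of_nonneg_right h.k_ge'' (show (0 : ℝ) ≤ S.card by linarith)
  refine le_of_mul_le_mul_right ?_ (show (0 : ℝ) < S.card by linarith)
  nlinarith [h.n_ge]

end Sit

end Asm

open Asm in
theorem defect_of_rows (hT : RowTRI) (h1 : RowN1) (h11 : RowN11) (h30 : RowN30) (h20 : RowN20)
    (h2 : RowTWO) (ha : RowONEa) (hb : RowONEc) (hp : RowPERF) (ε : ℝ) (hε : 0 < ε) :
    ∃ K : ℕ, ∀ (G : Type) [AddCommGroup G] [Fintype G] [DecidableEq G] (S : Finset G), Sid S →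
      K ≤ S.card → (1 - ε) * S.card ≤ 2 * (DD S).card := by
  set η : ℝ := min (ε / 20) (1 / 100) with hη
  have hη0 : 0 < η := lt_min (by linarith) (by norm_num)
  have hη1 : 20 * η ≤ ε := by linarith [min_le_left (ε / 20) (1 / 100)]
  obtain ⟨I, hI⟩ := exists_nat_ge (100 / η ^ 4)
  obtain ⟨K, hK⟩ := exists_nat_ge (100 * (I : ℝ) ^ 2 / η ^ 2)
  refine ⟨K, fun G _ _ _ S hS hk => ?_⟩
  have hk0 : (0 : ℝ) ≤ S.card := Nat.cast_nonneg _
  by_cases hd : 2 * (DD S).card ≤ S.card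
  · have hk' : (K : ℝ) ≤ S.card := by exact_mod_cast hk
    have h : Sit S η I := ⟨hS, hη0, min_le_right _ _,
      by rwa [div_le_iff₀ (by positivity), mul_comm] at hI,
      by have := hK.trans hk'; rwa [div_le_iff₀ (by positivity), mul_comm (S.card : ℝ)] at this, hd⟩
    refine le_trans (mul_le_mul_of_nonneg_right (by linarith) hk0) (?_ : (1 - 20 * η) * _ ≤ _)
    have : S.card % 3 = 0 ∨ S.card % 3 = 1 ∨ S.card % 3 = 2 := by omega
    rcases this with h3 | h3 | h3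
    · exact h.classA hT h1 h11 h30 h3
    · exact h.classC hT h1 h20 h2 ha hb hp h3
    · exact h.classB h1 h3
  · have : (S.card : ℝ) ≤ 2 * (DD S).card := by exact_mod_cast (not_le.1 hd).le
    nlinarith

end Pool.Agent.MP_c5d52e_co.H55
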