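import Mathlib

/-! The definitions of the problem. -/

namespace Pool.Agent.MP_c5d52e_co.H55

/-- The signed two-fold sumset: all `∑ λ_a a` with integer coefficients and `∑ |λ_a| = 2`. -/
def signed2 {G : Type} [AddCommGroup G] (A : Finset G) : Set G :=
  {g | ∃ l : G → ℤ, ∑ a ∈ A, |l a| = 2 ∧ g = ∑ a ∈ A, l a • a}

/-- `B_2` sets over the integers. -/
def IsB2 {G : Type} [AddCommGroup G] (A : Finset G) : Prop :=
  (signed2 A).ncard = 2 * A.card ^ 2

/-- The largest size of a `B_2` set over the integers in `G`. -/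
noncomputable def sigma (G : Type) [AddCommGroup G] : ℕ :=
  sSup {m | ∃ A : Finset G, IsB2 A ∧ A.card = m}

end Pool.Agent.MP_c5d52e_co.H55
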