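import Pool.Agent.MP_c5d52e_co.H55.Asm

/-! From the rows to the statements on `sigma`. -/

open Finset

namespace Pool.Agent.MP_c5d52e_co.H55

theorem floor_sqrt_iff (n m : ℕ) :
    m = ⌊√((n : ℝ) / 2)⌋₊ ↔ 2 * m ^ 2 ≤ n ∧ n < 2 * (m + 1) ^ 2 := by
  rw [eq_comm, Nat.floor_eq_iff (Real.sqrt_nonneg _), Real.le_sqrt (Nat.cast_nonneg _)
    (by positivity), Real.sqrt_lt' (by positivity)]
  constructor
  · rintro ⟨h1, h2⟩
    have e1 : 2 * (m : ℝ) ^ 2 ≤ n := by linarith
    have e2 : (n : ℝ) < 2 * ((m : ℝ) + 1) ^ 2 := by linarith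
    exact ⟨by exact_mod_cast e1, by exact_mod_cast e2⟩
  · rintro ⟨h1, h2⟩
    have e1 : 2 * (m : ℝ) ^ 2 ≤ n := by exact_mod_cast h1
    have e2 : (n : ℝ) < 2 * ((m : ℝ) + 1) ^ 2 := by exact_mod_cast h2
    exact ⟨by linarith, by linarith⟩

theorem IsB2.le {G : Type} [AddCommGroup G] [Finite G] {A : Finset G} (h : IsB2 A) :
    2 * A.card ^ 2 ≤ Nat.card G := by
  rw [← h, ← Set.ncard_univ]
  exact Set.ncard_le_ncard (Set.subset_univ _)

theorem sigma_bdd (G : Type) [AddCommGroup G] [Finite G] :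
    BddAbove {m | ∃ A : Finset G, IsB2 A ∧ A.card = m} := by
  refine ⟨Nat.card G, ?_⟩
  rintro m ⟨A, hA, rfl⟩
  have := hA.le
  nlinarith [Nat.zero_le (A.card ^ 2), Nat.le_self_pow two_ne_zero A.card]

theorem sigma_mem (G : Type) [AddCommGroup G] [Finite G] :
    ∃ A : Finset G, IsB2 A ∧ A.card = sigma G := by
  refine Nat.sSup_mem (s := {m | ∃ A : Finset G, IsB2 A ∧ A.card = m}) ⟨0, ∅, ?_, rfl⟩
    (sigma_bdd G)
  simp [IsB2, signed2]

theorem linear_of_rows (hB : RowBR)
    (hD : ∀ ε : ℝ, 0 < ε → ∃ K : ℕ, ∀ (G : Type) [AddCommGroup G] [Fintype G] [DecidableEq G]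
      (S : Finset G), Sid S → K ≤ S.card → (1 - ε) * S.card ≤ 2 * (DD S).card)
    (ε : ℝ) (hε : 0 < ε) :
    ∃ n₀ : ℕ, ∀ (G : Type) [AddCommGroup G] [Finite G] (m : ℕ), n₀ ≤ Nat.card G →
      m = ⌊√((Nat.card G : ℝ) / 2)⌋₊ → (Nat.card G : ℝ) < 2 * (m : ℝ) ^ 2 + (1 - ε) * m →
      sigma G < m := by
  classical
  obtain ⟨K, hK⟩ := hD ε hε
  refine ⟨2 * (K + 1) ^ 2, fun G _ _ m hn hm hlt => ?_⟩
  obtain ⟨h1, h2⟩ := (floor_sqrt_iff _ _).1 hm
  obtain ⟨A, hA, hs⟩ := sigma_mem G
  have h3 := hA.le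
  by_contra hge
  have h4 : A.card = m := by
    have : A.card < m + 1 := lt_of_pow_lt_pow_left₀ 2 (Nat.zero_le _) (by omega)
    omega
  have h5 : K + 1 < m + 1 := lt_of_pow_lt_pow_left₀ 2 (Nat.zero_le _) (by omega)
  have := Fintype.ofFinite G
  obtain ⟨hS, hc⟩ := (hB G A).1 hA
  have h6 := hK G _ hS (by omega)
  have h7 := hS.card_eq
  rw [hc, h4] at h6 h7
  rw [Nat.card_eq_fintype_card] at hlt
  have h8 : 2 * (Fintype.card G : ℝ) =
      (2 * (m : ℝ)) ^ 2 + 2 * (DD (A ∪ A.image fun a => -a)).card := by exact_mod_cast h7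
  push_cast at h6
  nlinarith

theorem three_of_rows (hB : RowBR) (hE : RowEX) (hP : RowPERF) (h2 : RowT2) (h3 : RowT3)
    (h4 : RowT4) (r : ℕ) :
    sigma (Fin r → ZMod 3) = ⌊√((Nat.card (Fin r → ZMod 3) : ℝ) / 2)⌋₊ ↔
      r ∈ ({0, 1, 2, 3, 5} : Set ℕ) := by
  have hcard : Fintype.card (Fin r → ZMod 3) = 3 ^ r := by simp
  rw [floor_sqrt_iff, Nat.card_eq_fintype_card, hcard]
  obtain ⟨A, hA, hs⟩ := sigma_mem (Fin r → ZMod 3)
  have hle := hA.le
  rw [Nat.card_eq_fintype_card, hcard, hs] at hle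
  constructor
  · rintro ⟨-, hlt⟩
    by_contra hr
    simp only [Set.mem_insert_iff, Set.mem_singleton_iff, not_or] at hr
    obtain ⟨hS, hc⟩ := (hB _ A).1 hA
    have h7 := hS.card_eq
    rw [hcard] at h7
    rw [← hs] at hlt
    generalize (A ∪ A.image fun a => -a) = S at hS hc h7
    have e3 : ∀ g : Fin r → ZMod 3, g + g + g = 0 := fun g => by
      funext i
      have : ∀ x : ZMod 3, x + x + x = 0 := by decide
      exact this (g i)
    have hdvd : 3 ∣ Fintype.card (Fin r → ZMod 3) := by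
      rw [hcard]; exact dvd_pow_self 3 hr.1
    have hdel : (DD S).card ≤ 2 * S.card + 1 := by
      rw [hc] at h7 ⊢
      nlinarith
    by_cases hr4 : r = 4
    · have e1 : 3 ^ r = 81 := by rw [hr4]; norm_num
      rw [e1] at h7 hlt
      have e2 : A.card = 6 := by
        have p1 : 5 < A.card := by
          by_contra p
          nlinarith
        have p2 : A.card < 7 := by
          by_contra p
          rw [hc] at h7
          nlinarith
        omega
      have := h2 _ S hS e3 hdvd (by omega) hdel (by omega) (by omega)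
      rw [hc, e2, this] at h7
      omega
    · have e0 : 6 ≤ r := by omega
      have e1 : 3 ^ 6 ≤ 3 ^ r := Nat.pow_le_pow_right (by norm_num) e0
      have e2 : 18 ≤ A.card := by
        by_contra p
        nlinarith
      have e4 := h2 _ S hS e3 hdvd (by omega) hdel (h3 _ S hS e3 (by omega) hdel)
        (h4 _ S hS e3 (by omega) hdel)
      have e5 := hP _ S hS e4 fun t ht => by
        rw [eq_neg_of_add_eq_zero_left (e3 t)]; exact hS.neg t ht
      rw [e4] at h7
      have e6 : r < 12 := by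
        by_contra p
        have : 3 ^ 12 ≤ 3 ^ r := Nat.pow_le_pow_right (by norm_num) (not_lt.1 p)
        nlinarith
      have key : ∀ k a N : ℕ, a ^ 2 < N → N < (a + 1) ^ 2 → k ^ 2 ≠ N := by
        intro k a N p1 p2 p3
        have q1 : a < k := lt_of_pow_lt_pow_left₀ 2 (Nat.zero_le _) (by omega)
        have q2 : k < a + 1 := lt_of_pow_lt_pow_left₀ 2 (Nat.zero_le _) (by omega)
        omega
      generalize S.card = k at h7
      clear hcard hdvd hle hlt e1 hS hc hdel e3 e4 e5 hs hA e2 S A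
      interval_cases r
      · exact key k 38 1456 (by norm_num) (by norm_num) (by omega)
      · exact key k 66 4372 (by norm_num) (by norm_num) (by omega)
      · exact key k 114 13120 (by norm_num) (by norm_num) (by omega)
      · exact key k 198 39364 (by norm_num) (by norm_num) (by omega)
      · exact key k 343 118096 (by norm_num) (by norm_num) (by omega)
      · exact key k 595 354292 (by norm_num) (by norm_num) (by omega)
  · intro hr
    refine ⟨hle, ?_⟩
    have key : ∀ m, (r, m) ∈ ({(0, 0), (1, 1), (2, 2), (3, 3), (5, 11)} : Finset (ℕ × ℕ)) →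
        3 ^ r < 2 * (m + 1) ^ 2 → 3 ^ r < 2 * (sigma (Fin r → ZMod 3) + 1) ^ 2 := by
      intro m hm hlt
      obtain ⟨B, hB1, hB2⟩ := hE r m hm
      have : m ≤ sigma (Fin r → ZMod 3) := le_csSup (sigma_bdd _) ⟨B, (hB _ B).2 hB2, hB1⟩
      have := Nat.pow_le_pow_left (Nat.succ_le_succ this) 2
      simp only [Nat.succ_eq_add_one] at this
      omega
    simp only [Set.mem_insert_iff, Set.mem_singleton_iff] at hr
    rcases hr with rfl | rfl | rfl | rfl | rfl
    · exact key 0 (by simp) (by norm_num)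
    · exact key 1 (by simp) (by norm_num)
    · exact key 2 (by simp) (by norm_num)
    · exact key 3 (by simp) (by norm_num)
    · exact key 11 (by simp) (by norm_num)

end Pool.Agent.MP_c5d52e_co.H55
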