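import Mathlib

/-! Symmetric Sidon sets in finite abelian groups: definitions and basic counting. -/

open Finset

set_option linter.unusedSectionVars false

namespace Pool.Agent.MP_c5d52e_co.H55

variable {G : Type} [AddCommGroup G] [Fintype G] [DecidableEq G]

/-- `S` is symmetric, has no element of order at most two, and every nonzero element is a sum of
two elements of `S` in at most one way. -/
structure Sid (S : Finset G) : Prop where
  neg : ∀ s ∈ S, -s ∈ S
  nz : ∀ s ∈ S, s + s ≠ 0
  uniq : ∀ a ∈ S, ∀ b ∈ S, ∀ c ∈ S, ∀ d ∈ S, a + b = c + d → a + b ≠ 0 → a = c ∨ a = d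

/-- The defect set: zero and the elements that are not sums of two elements of `S`. -/
def DD (S : Finset G) : Finset G := univ.filter fun g => g = 0 ∨ ∀ a ∈ S, g - a ∉ S

def XS (S : Finset G) (g : G) : Finset G := S.filter fun t => g - (t + t) ∈ S

def MS (S : Finset G) (g : G) : Finset G := S.filter fun u => g - u ∈ DD S

/-- Generic elements. -/
def Gen (S : Finset G) : Finset G := univ.filter fun g => g ∉ S ∧ ∀ t ∈ S, t + t + t ≠ g

/-- Generic elements of type `(x, y)`. -/
def Ty (S : Finset G) (x y : ℕ) : Finset G :=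
  (Gen S).filter fun g => (XS S g).card = x ∧ (MS S g).card = y

/-- Number of elements killed by `c`. -/
def tor (G : Type) [AddCommGroup G] [Fintype G] [DecidableEq G] (c : ℤ) : ℕ :=
  (univ.filter fun g : G => c • g = 0).card

/-- The subgroup `c G` as a finite set. -/
def img (G : Type) [AddCommGroup G] [Fintype G] [DecidableEq G] (c : ℤ) : Finset G :=
  univ.image fun g : G => c • g

def cnt (S : Finset G) (c : ℤ) (v : G) : ℕ := (S.filter fun s => c • s = v).card

/-- Pairs `(t, s)` in `Q × S` with `b t + a s ∈ S`. -/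
def tri (S Q : Finset G) (a b : ℤ) : ℕ :=
  ((Q ×ˢ S).filter fun p => b • p.1 + a • p.2 ∈ S).card

theorem mem_DD {S : Finset G} {g : G} : g ∈ DD S ↔ g = 0 ∨ ∀ a ∈ S, g - a ∉ S := by simp [DD]

theorem mem_XS {S : Finset G} {g t : G} : t ∈ XS S g ↔ t ∈ S ∧ g - (t + t) ∈ S := by simp [XS]

theorem mem_MS {S : Finset G} {g u : G} : u ∈ MS S g ↔ u ∈ S ∧ g - u ∈ DD S := by simp [MS]

theorem mem_Gen {S : Finset G} {g : G} : g ∈ Gen S ↔ g ∉ S ∧ ∀ t ∈ S, t + t + t ≠ g := by
  simp [Gen]

theorem mem_Ty {S : Finset G} {g : G} {x y : ℕ} :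
    g ∈ Ty S x y ↔ g ∈ Gen S ∧ (XS S g).card = x ∧ (MS S g).card = y := by simp [Ty]

theorem mem_img {c : ℤ} {v : G} : v ∈ img G c ↔ ∃ g : G, c • g = v := by simp [img]

theorem zero_mem_DD (S : Finset G) : (0 : G) ∈ DD S := mem_DD.2 (Or.inl rfl)

/-- A nonzero sum of two elements of `S` is not a defect. -/
theorem add_notMem_DD {S : Finset G} {a b : G} (ha : a ∈ S) (hb : b ∈ S) (h : a + b ≠ 0) :
    a + b ∉ DD S := by
  rw [mem_DD]
  rintro (h1 | h1)
  · exact h h1
  · exact h1 a ha (by simpa using hb)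

theorem exists_of_notMem_DD {S : Finset G} {g : G} (h : g ∉ DD S) :
    g ≠ 0 ∧ ∃ a ∈ S, ∃ b ∈ S, g = a + b := by
  rw [mem_DD] at h
  push Not at h
  obtain ⟨h0, a, ha, hb⟩ := h
  exact ⟨h0, a, ha, g - a, hb, by abel⟩

namespace Sid

variable {S : Finset G} (h : Sid S)
include h

omit [Fintype G] [DecidableEq G] in
theorem zero_notMem : (0 : G) ∉ S := fun h0 => h.nz 0 h0 (by simp)

omit [Fintype G] [DecidableEq G] in
theorem neg_iff {s : G} : -s ∈ S ↔ s ∈ S :=
  ⟨fun hs => by simpa using h.neg _ hs, h.neg s⟩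

omit [Fintype G] [DecidableEq G] in
theorem uniq' {a b c d : G} (ha : a ∈ S) (hb : b ∈ S) (hc : c ∈ S) (hd : d ∈ S)
    (e : a + b = c + d) (h0 : a + b ≠ 0) : (a = c ∧ b = d) ∨ (a = d ∧ b = c) := by
  rcases h.uniq a ha b hb c hc d hd e h0 with rfl | rfl
  · exact Or.inl ⟨rfl, add_left_cancel e⟩
  · exact Or.inr ⟨rfl, add_left_cancel (e.trans (add_comm _ _))⟩

omit [Fintype G] [DecidableEq G] in
theorem two_inj {a b : G} (ha : a ∈ S) (hb : b ∈ S) (e : a + a = b + b) : a = b := by
  rcases h.uniq a ha a ha b hb b hb e (h.nz a ha) with h1 | h1 <;> exact h1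

omit [Fintype G] [DecidableEq G] in
theorem four_ne {a : G} (ha : a ∈ S) : a + a + (a + a) ≠ 0 := by
  intro e
  have h1 : a = -a := h.two_inj ha (h.neg a ha) (by
    rw [← neg_add]; exact eq_neg_of_add_eq_zero_left e)
  exact h.nz a ha (by nth_rewrite 2 [h1]; simp)

theorem neg_mem_DD {d : G} (hd : d ∈ DD S) : -d ∈ DD S := by
  rw [mem_DD] at hd ⊢
  rcases hd with rfl | hd
  · simp
  · right
    intro a ha hm
    refine hd (-a) (h.neg a ha) ?_
    have := h.neg _ hm
    rwa [show -(-d - a) = d - -a by abel] at this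

omit [Fintype G] [DecidableEq G] in
theorem sum_zero : ∑ s ∈ S, s = 0 :=
  Finset.sum_involution (fun s _ => -s) (fun s _ => by simp)
    (fun s hs _ e => h.nz s hs (by nth_rewrite 1 [← e]; simp)) (fun s hs => h.neg s hs)
    (fun s _ => by simp)

omit [Fintype G] in
/-- At most two ordered representations as a sum. -/
theorem r2 {g : G} (hg : g ≠ 0) : (S.filter fun s => g - s ∈ S).card ≤ 2 := by
  rcases (S.filter fun s => g - s ∈ S).eq_empty_or_nonempty with h0 | ⟨a, ha⟩
  · rw [h0]; simp
  · rw [mem_filter] at ha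
    refine le_trans (card_le_card (t := {a, g - a}) fun s hs => ?_) card_le_two
    rw [mem_filter] at hs
    have := h.uniq s hs.1 (g - s) hs.2 a ha.1 (g - a) ha.2 (by abel) (by simpa using hg)
    simpa using this

omit [Fintype G] in
/-- At most two ordered representations as a difference. -/
theorem r2' {g : G} (hg : g ≠ 0) : (S.filter fun s => g + s ∈ S).card ≤ 2 := by
  have := h.r2 (neg_ne_zero.2 hg)
  refine le_trans (le_of_eq ?_) this
  congr 1
  ext s
  simp only [mem_filter, and_congr_right_iff]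
  intro _
  rw [← h.neg_iff, show -(g + s) = -g - s by abel]

omit [Fintype G] in
theorem r2_pair {g : G} (hg : g ≠ 0) : ((S ×ˢ S).filter fun p => p.1 + p.2 = g).card ≤ 2 := by
  refine le_trans (card_le_card_of_injOn Prod.fst (fun p hp => ?_) (fun p hp q hq e => ?_))
    (h.r2 hg)
  · simp only [coe_filter, mem_product, Set.mem_ofPred_eq] at hp ⊢
    exact ⟨hp.1.1, by rw [← hp.2]; simpa using hp.1.2⟩
  · simp only [coe_filter, mem_product, Set.mem_ofPred_eq] at hp hq
    refine Prod.ext e ?_
    have := hp.2.trans hq.2.symm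
    rw [e] at this
    exact add_left_cancel this

omit [Fintype G] in
theorem r2_pair' {g : G} (hg : g ≠ 0) : ((S ×ˢ S).filter fun p => p.1 - p.2 = g).card ≤ 2 := by
  refine le_trans (card_le_card_of_injOn Prod.snd (fun p hp => ?_) (fun p hp q hq e => ?_))
    (h.r2' hg)
  · simp only [coe_filter, mem_product, Set.mem_ofPred_eq] at hp ⊢
    exact ⟨hp.1.2, by rw [← hp.2]; simpa using hp.1.1⟩
  · simp only [coe_filter, mem_product, Set.mem_ofPred_eq] at hp hq
    refine Prod.ext ?_ e
    have := hp.2.trans hq.2.symm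
    rw [e] at this
    exact sub_left_injective this

omit [Fintype G] in
/-- Two distinct translates of `S` meet in at most two points. -/
theorem codeg [Fintype G] {u v : G} (huv : u ≠ v) :
    (univ.filter fun g : G => g - u ∈ S ∧ g - v ∈ S).card ≤ 2 := by
  refine le_trans (card_le_card_of_injOn (fun g => g - u) (fun g hg => ?_)
    (fun g _ g' _ e => sub_left_injective e)) (h.r2' (sub_ne_zero.2 huv))
  simp only [coe_filter, mem_univ, true_and, Set.mem_ofPred_eq] at hg ⊢
  exact ⟨hg.1, by rw [show u - v + (g - u) = g - v by abel]; exact hg.2⟩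

end Sid

theorem card_translate (S : Finset G) (v : G) :
    (univ.filter fun g : G => g - v ∈ S).card = S.card := by
  refine card_bij (fun g _ => g - v) (fun g hg => by simpa using hg)
    (fun g _ g' _ e => sub_left_injective e) (fun s hs => ⟨s + v, by simpa using hs, by simp⟩)

theorem gen_card (S : Finset G) : Fintype.card G ≤ (Gen S).card + 2 * S.card := by
  have h1 : (univ : Finset G) ⊆ Gen S ∪ (S ∪ S.image fun t => t + t + t) := by
    intro g _
    by_cases hg : g ∈ Gen S
    · exact mem_union_left _ hg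
    · rw [mem_Gen] at hg
      push Not at hg
      refine mem_union_right _ ?_
      by_cases hS : g ∈ S
      · exact mem_union_left _ hS
      · obtain ⟨t, ht, e⟩ := hg hS
        exact mem_union_right _ (mem_image.2 ⟨t, ht, e⟩)
  have h2 := card_le_card h1
  have h3 := card_union_le (Gen S) (S ∪ S.image fun t => t + t + t)
  have h4 := card_union_le S (S.image fun t => t + t + t)
  have h5 : (S.image fun t => t + t + t).card ≤ S.card := card_image_le
  rw [card_univ] at h2
  omega

/-- Fibres of multiplication by `c`. -/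
theorem fib_card (c : ℤ) (g₀ : G) : (univ.filter fun g : G => c • g = c • g₀).card = tor G c := by
  unfold tor
  refine card_bij (fun g _ => g - g₀) (fun g hg => ?_)
    (fun g _ g' _ e => sub_left_injective e) (fun s hs => ⟨s + g₀, ?_, by simp⟩)
  · simp only [mem_filter, mem_univ, true_and] at hg ⊢
    rw [smul_sub, hg, sub_self]
  · simp only [mem_filter, mem_univ, true_and] at hs ⊢
    rw [smul_add, hs, zero_add]

theorem fib_le (c : ℤ) (v : G) (Q : Finset G) : (Q.filter fun g => c • g = v).card ≤ tor G c := by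
  rcases (Q.filter fun g => c • g = v).eq_empty_or_nonempty with h0 | ⟨a, ha⟩
  · rw [h0]; simp
  · rw [← fib_card c a]
    rw [mem_filter] at ha
    refine card_le_card fun g hg => ?_
    rw [mem_filter] at hg ⊢
    exact ⟨mem_univ _, hg.2.trans ha.2.symm⟩

theorem tor_mul_img (c : ℤ) : tor G c * (img G c).card = Fintype.card G := by
  have h := card_eq_sum_card_image (fun g : G => c • g) (univ : Finset G)
  rw [card_univ] at h
  rw [h, img, mul_comm, ← smul_eq_mul, ← sum_const]
  refine sum_congr rfl fun v hv => ?_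
  obtain ⟨g, -, rfl⟩ := mem_image.1 hv
  exact (fib_card c g).symm

theorem tor_pos (c : ℤ) : 0 < tor G c := card_pos.2 ⟨0, by simp⟩

theorem img_pos (c : ℤ) : 0 < (img G c).card := card_pos.2 ⟨0, mem_img.2 ⟨0, by simp⟩⟩

theorem tor_le (c : ℤ) : tor G c ≤ Fintype.card G := card_le_univ _

theorem tor_neg (c : ℤ) : tor G (-c) = tor G c := by simp [tor]

theorem img_neg (c : ℤ) : img G (-c) = img G c := by
  ext v
  simp only [mem_img]
  exact ⟨fun ⟨g, hg⟩ => ⟨-g, by simpa using hg⟩, fun ⟨g, hg⟩ => ⟨-g, by simpa using hg⟩⟩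

theorem tor_le_img {a b : ℤ} (h : IsCoprime a b) : tor G a ≤ (img G b).card := by
  obtain ⟨u, v, huv⟩ := h
  refine card_le_card fun g hg => mem_img.2 ⟨v • g, ?_⟩
  simp only [mem_filter, mem_univ, true_and] at hg
  have h1 : (u * a + v * b) • g = g := by rw [huv, one_smul]
  rw [add_smul, mul_smul, hg, smul_zero, zero_add, mul_comm, mul_smul] at h1
  exact h1

theorem tor_coprime {a b : ℤ} (h : IsCoprime a b) : tor G a * tor G b ≤ Fintype.card G := by
  rw [← tor_mul_img (G := G) b, mul_comm]
  exact Nat.mul_le_mul_left _ (tor_le_img h)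

/-- Cauchy-Schwarz for the number of coincidences of two maps. -/
theorem cs_count {α β : Type} (P : Finset α) (Q : Finset β) (f : α → G) (g : β → G) :
    ((P ×ˢ Q).filter fun p => f p.1 = g p.2).card ^ 2 ≤
      ((P ×ˢ P).filter fun p => f p.1 = f p.2).card *
        ((Q ×ˢ Q).filter fun p => g p.1 = g p.2).card := by
  have key : ∀ {α β : Type} (P : Finset α) (Q : Finset β) (f : α → G) (g : β → G),
      ((P ×ˢ Q).filter fun p => f p.1 = g p.2).card =
        ∑ v : G, (P.filter fun x => f x = v).card * (Q.filter fun y => g y = v).card := by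
    intro α β P Q f g
    rw [card_eq_sum_card_fiberwise (f := fun p : α × β => f p.1) (t := univ)
      (fun _ _ => mem_coe.2 (mem_univ _))]
    refine sum_congr rfl fun v _ => ?_
    rw [← card_product]
    congr 1
    ext p
    simp only [mem_filter, mem_product]
    constructor
    · rintro ⟨⟨⟨h1, h2⟩, h3⟩, h4⟩
      exact ⟨⟨h1, h4⟩, h2, h3.symm.trans h4⟩
    · rintro ⟨⟨h1, h2⟩, h3, h4⟩
      exact ⟨⟨⟨h1, h3⟩, h2.trans h4.symm⟩, h2⟩
  rw [key, key, key]
  have := sum_mul_sq_le_sq_mul_sq (univ : Finset G) (fun v => (P.filter fun x => f x = v).card)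
    (fun v => (Q.filter fun y => g y = v).card)
  simpa only [sq] using this

namespace Sid

variable {S : Finset G} (h : Sid S)
include h

theorem energy (c : ℤ) :
    ((S ×ˢ S).filter fun p => c • p.1 = c • p.2).card ≤ S.card + 2 * tor G c := by
  rw [card_eq_sum_card_fiberwise (f := fun p : G × G => p.1 - p.2)
    (t := univ.filter fun g : G => c • g = 0) (fun p hp => by
      simp only [coe_filter, mem_product, Set.mem_ofPred_eq, mem_univ, true_and] at hp ⊢
      rw [smul_sub, hp.2, sub_self])]
  have h1 : ∀ v ∈ univ.filter fun g : G => c • g = 0,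
      (((S ×ˢ S).filter fun p => c • p.1 = c • p.2).filter fun p => p.1 - p.2 = v).card ≤
        (if v = 0 then S.card else 0) + 2 := by
    intro v _
    split_ifs with hv
    · refine le_trans (card_le_card_of_injOn Prod.fst (fun p hp => ?_) (fun p hp q hq e => ?_))
        (Nat.le_add_right _ _)
      · simp only [coe_filter, mem_filter, mem_product, Set.mem_ofPred_eq] at hp
        exact hp.1.1.1
      · simp only [coe_filter, mem_filter, mem_product, Set.mem_ofPred_eq] at hp hq
        refine Prod.ext e ?_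
        have := hp.2.trans hq.2.symm
        rw [e] at this
        exact sub_right_injective this
    · rw [zero_add]
      refine le_trans (card_le_card fun p hp => ?_) (h.r2_pair' hv)
      simp only [mem_filter] at hp ⊢
      exact ⟨hp.1.1, hp.2⟩
  refine le_trans (sum_le_sum h1) ?_
  rw [sum_add_distrib, sum_ite_eq', sum_const, smul_eq_mul, tor, mul_comm]
  split_ifs <;> omega

theorem sum_cnt_sq (c : ℤ) : ∑ v ∈ img G c, cnt S c v ^ 2 ≤ S.card + 2 * tor G c := by
  refine le_trans (le_of_eq ?_) (h.energy c)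
  rw [card_eq_sum_card_fiberwise (f := fun p : G × G => c • p.1) (t := img G c)
    (fun p _ => mem_coe.2 (mem_img.2 ⟨_, rfl⟩))]
  refine sum_congr rfl fun v _ => ?_
  rw [cnt, sq, ← card_product]
  congr 1
  ext p
  simp only [mem_filter, mem_product]
  constructor
  · rintro ⟨⟨h1, h2⟩, h3, h4⟩
    exact ⟨⟨⟨h1, h3⟩, h2.trans h4.symm⟩, h2⟩
  · rintro ⟨⟨⟨h1, h2⟩, h3⟩, h4⟩
    exact ⟨⟨h1, h4⟩, h2, h3.symm.trans h4⟩

theorem cnt_sq_le (c : ℤ) (v : G) : cnt S c v ^ 2 ≤ S.card + 2 * tor G c := by
  by_cases hv : v ∈ img G c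
  · exact le_trans (single_le_sum (f := fun v => cnt S c v ^ 2) (fun _ _ => Nat.zero_le _) hv)
      (h.sum_cnt_sq c)
  · have : cnt S c v = 0 := by
      rw [cnt, card_eq_zero, filter_eq_empty_iff]
      exact fun s _ e => hv (mem_img.2 ⟨s, e⟩)
    rw [this]; simp

omit h in
theorem sum_cnt (c : ℤ) : ∑ v ∈ img G c, cnt S c v = S.card :=
  (card_eq_sum_card_fiberwise (f := fun s : G => c • s) (t := img G c)
    (fun _ _ => mem_coe.2 (mem_img.2 ⟨_, rfl⟩))).symm

/-- The order of the group in terms of the defect. -/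
theorem card_eq : 2 * Fintype.card G = S.card ^ 2 + 2 * (DD S).card := by
  have h1 : S.card * S.card = ∑ g : G, (S.filter fun s => g - s ∈ S).card := by
    simp only [card_filter]
    rw [sum_comm]
    simp only [← card_filter, card_translate]
    simp
  have h2 : ∀ g : G, (S.filter fun s => g - s ∈ S).card +
      (if g ∈ S.image (fun t => t + t) then 1 else 0) + (if g ∈ DD S then 2 else 0) =
      2 + (if g = 0 then S.card else 0) := by
    intro g
    by_cases h0 : g = 0
    · subst h0
      have e1 : (S.filter fun s => 0 - s ∈ S) = S :=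
        filter_true_of_mem fun s hs => by simpa using h.neg s hs
      have e2 : (0 : G) ∉ S.image (fun t => t + t) := fun hm => by
        obtain ⟨t, ht, e⟩ := mem_image.1 hm
        exact h.nz t ht e
      rw [e1, if_neg e2, if_pos (zero_mem_DD S), if_pos rfl]
      omega
    · rw [if_neg h0]
      by_cases hD : g ∈ DD S
      · have e1 : (S.filter fun s => g - s ∈ S) = ∅ :=
          filter_eq_empty_iff.2 fun s hs => ((mem_DD.1 hD).resolve_left h0) s hs
        have e2 : g ∉ S.image (fun t => t + t) := fun hm => by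
          obtain ⟨t, ht, rfl⟩ := mem_image.1 hm
          exact add_notMem_DD ht ht h0 hD
        rw [e1, if_neg e2, if_pos hD]; simp
      · obtain ⟨-, a, ha, b, hb, rfl⟩ := exists_of_notMem_DD hD
        have e1 : (S.filter fun s => a + b - s ∈ S) = {a, b} := by
          ext s
          simp only [mem_filter, mem_insert, mem_singleton]
          constructor
          · rintro ⟨h1, h2⟩
            exact h.uniq s h1 _ h2 a ha b hb (by abel) (by simpa using h0)
          · rintro (rfl | rfl)
            · exact ⟨ha, by simpa using hb⟩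
            · exact ⟨hb, by simpa using ha⟩
        rw [e1, if_neg hD]
        by_cases hab : a = b
        · subst hab
          rw [if_pos (mem_image.2 ⟨a, ha, rfl⟩)]; simp
        · have e2 : a + b ∉ S.image (fun t => t + t) := fun hm => by
            obtain ⟨t, ht, e⟩ := mem_image.1 hm
            rcases h.uniq' ha hb ht ht e.symm h0 with ⟨h1, h2⟩ | ⟨h1, h2⟩ <;>
              exact hab (h1.trans h2.symm)
          rw [if_neg e2, card_pair hab]
  have h3 := sum_congr (rfl : (univ : Finset G) = univ) fun g _ => h2 g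
  have h4 : (S.image fun t => t + t).card = S.card :=
    card_image_of_injOn fun a ha b hb e => h.two_inj ha hb e
  rw [sum_add_distrib, sum_add_distrib, sum_add_distrib, ← h1, sum_ite_mem, sum_ite_mem,
    sum_ite_eq'] at h3
  simp only [univ_inter, sum_const, smul_eq_mul, mul_one, mem_univ, if_true, card_univ, h4] at h3
  rw [sq]
  omega

/-- Equidistribution in the cosets of the kernel of `c`. -/
theorem equi (c : ℤ) {v : G} (hv : v ∈ img G c) :
    (((img G c).card : ℝ) * cnt S c v - S.card) ^ 2 ≤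
      ((img G c).card : ℝ) ^ 2 * (S.card + 2 * (DD S).card) := by
  have h1 : ∑ w ∈ img G c, (cnt S c w : ℝ) ^ 2 ≤ S.card + 2 * tor G c := by
    exact_mod_cast h.sum_cnt_sq c
  have h2 : ∑ w ∈ img G c, (cnt S c w : ℝ) = S.card := by exact_mod_cast sum_cnt (S := S) c
  have h3 : (tor G c : ℝ) * (img G c).card = Fintype.card G := by exact_mod_cast tor_mul_img c
  have h4 : 2 * (Fintype.card G : ℝ) = (S.card : ℝ) ^ 2 + 2 * (DD S).card := by
    exact_mod_cast h.card_eq
  have h5 : (1 : ℝ) ≤ (img G c).card := by exact_mod_cast img_pos (G := G) c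
  set i : ℝ := ((img G c).card : ℝ) with hi
  have h6 := single_le_sum (f := fun w => (i * cnt S c w - S.card) ^ 2)
    (fun _ _ => sq_nonneg _) hv
  have h7 : ∑ w ∈ img G c, (i * cnt S c w - S.card) ^ 2 =
      i ^ 2 * ∑ w ∈ img G c, (cnt S c w : ℝ) ^ 2 -
        2 * i * S.card * ∑ w ∈ img G c, (cnt S c w : ℝ) + i * (S.card : ℝ) ^ 2 := by
    rw [mul_sum, mul_sum, ← sum_sub_distrib, hi, ← nsmul_eq_mul, ← sum_const, ← sum_add_distrib]
    exact sum_congr rfl fun w _ => by ring
  rw [h7, h2] at h6
  have h8 : (0 : ℝ) ≤ (DD S).card := Nat.cast_nonneg _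
  have h9 : i ^ 2 * ∑ w ∈ img G c, (cnt S c w : ℝ) ^ 2 ≤ i ^ 2 * (S.card + 2 * tor G c) :=
    mul_le_mul_of_nonneg_left h1 (sq_nonneg _)
  have h10 : i ^ 2 * (2 * (tor G c : ℝ)) = i * ((S.card : ℝ) ^ 2 + 2 * (DD S).card) := by
    rw [← h4, ← h3]; ring
  nlinarith [mul_le_mul_of_nonneg_right h5 (mul_nonneg (le_trans zero_le_one h5) h8)]

end Sid

end Pool.Agent.MP_c5d52e_co.H55
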