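import Pool.Agent.MP_c5d52e_co.H55.Spec

/-! The bridge between `B_2` sets and symmetric Sidon sets. -/

open Finset

set_option linter.unusedSectionVars false

namespace Pool.Agent.MP_c5d52e_co.H55

namespace BRa

variable {G : Type} [AddCommGroup G] [DecidableEq G]

/-- The sign of a Boolean. -/
def sg (b : Bool) : ℤ := if b then 1 else -1

/-- The value of a signed element. -/
def val (x : G × Bool) : G := sg x.2 • x.1

/-- The opposite signed element. -/
def opp (x : G × Bool) : G × Bool := (x.1, !x.2)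

theorem val_opp (x : G × Bool) : val (opp x) = -val x := by
  obtain ⟨a, b⟩ := x
  cases b <;> simp [val, opp, sg]

theorem opp_ne (x : G × Bool) : opp x ≠ x := by
  obtain ⟨a, b⟩ := x
  cases b <;> simp [opp]

theorem eq_or_opp {x y : G × Bool} (h : x.1 = y.1) : y = x ∨ y = opp x := by
  obtain ⟨a, b⟩ := x
  obtain ⟨c, d⟩ := y
  cases b <;> cases d <;> simp_all [opp]

/-- The signed elements of `A`. -/
def TT (A : Finset G) : Finset (G × Bool) := A ×ˢ univ

theorem mem_TT {A : Finset G} {x : G × Bool} : x ∈ TT A ↔ x.1 ∈ A := by simp [TT]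

theorem opp_mem {A : Finset G} {x : G × Bool} (h : x ∈ TT A) : opp x ∈ TT A :=
  mem_TT.2 (mem_TT.1 h : x.1 ∈ A)

theorem card_TT (A : Finset G) : (TT A).card = 2 * A.card := by
  simp [TT, mul_comm]

theorem image_val (A : Finset G) : (TT A).image val = A ∪ A.image fun a => -a := by
  ext g
  simp only [mem_image, mem_union, mem_TT]
  constructor
  · rintro ⟨⟨a, b⟩, ha, rfl⟩
    cases b
    · exact Or.inr ⟨a, ha, by simp [val, sg]⟩
    · exact Or.inl (by simpa [val, sg] using ha)
  · rintro (h | ⟨a, ha, rfl⟩)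
    · exact ⟨(g, true), h, by simp [val, sg]⟩
    · exact ⟨(a, false), ha, by simp [val, sg]⟩

theorem shift (A : Finset G) (l : G → ℤ) {a : G} (ha : a ∈ A) (e : ℤ) :
    ∑ x ∈ A, |Function.update l a (l a + e) x| + |l a| = ∑ x ∈ A, |l x| + |l a + e| ∧
      ∑ x ∈ A, Function.update l a (l a + e) x • x = e • a + ∑ x ∈ A, l x • x := by
  have h1 : ∑ x ∈ A.erase a, |Function.update l a (l a + e) x| = ∑ x ∈ A.erase a, |l x| :=
    sum_congr rfl fun x hx => by rw [Function.update_of_ne (ne_of_mem_erase hx)]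
  have h2 : ∑ x ∈ A.erase a, Function.update l a (l a + e) x • x = ∑ x ∈ A.erase a, l x • x :=
    sum_congr rfl fun x hx => by rw [Function.update_of_ne (ne_of_mem_erase hx)]
  constructor
  · rw [← add_sum_erase A _ ha, ← add_sum_erase A (fun x => |l x|) ha, h1, Function.update_self]
    ring
  · rw [← add_sum_erase A _ ha, ← add_sum_erase A (fun x => l x • x) ha, h2,
      Function.update_self, add_smul]
    abel

theorem peel (A : Finset G) (l : G → ℤ) (h : ∑ x ∈ A, |l x| ≠ 0) :
    ∃ x ∈ TT A, 0 < sg x.2 * l x.1 ∧ ∃ l' : G → ℤ, l' x.1 = l x.1 - sg x.2 ∧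
      ∑ y ∈ A, |l' y| + 1 = ∑ y ∈ A, |l y| ∧ ∑ y ∈ A, l y • y = val x + ∑ y ∈ A, l' y • y := by
  obtain ⟨a, ha, h0⟩ := exists_ne_zero_of_sum_ne_zero h
  rw [abs_ne_zero] at h0
  have key : ∀ b : Bool, 0 < sg b * l a → ∃ x ∈ TT A, 0 < sg x.2 * l x.1 ∧ ∃ l' : G → ℤ,
      l' x.1 = l x.1 - sg x.2 ∧ ∑ y ∈ A, |l' y| + 1 = ∑ y ∈ A, |l y| ∧
        ∑ y ∈ A, l y • y = val x + ∑ y ∈ A, l' y • y := by
    intro b hb
    obtain ⟨s1, s2⟩ := shift A l ha (-sg b)
    refine ⟨(a, b), mem_TT.2 ha, hb, Function.update l a (l a + -sg b), ?_, ?_, ?_⟩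
    · simp [sub_eq_add_neg]
    · have : |l a + -sg b| + 1 = |l a| := by
        cases b <;> simp only [sg] at hb ⊢
        · simp only [Bool.false_eq_true, if_false] at hb ⊢
          rw [abs_of_nonpos (by omega), abs_of_nonpos (by omega)]; ring
        · simp only [if_true] at hb ⊢
          rw [abs_of_nonneg (by omega), abs_of_nonneg (by omega)]; ring
      omega
    · rw [s2, val, neg_smul]; abel
  rcases lt_or_gt_of_ne h0 with h1 | h1
  · exact key false (by simp [sg, h1])
  · exact key true (by simp [sg, h1])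

theorem mem_signed2 {A : Finset G} {g : G} :
    g ∈ signed2 A ↔ ∃ x ∈ TT A, ∃ y ∈ TT A, y ≠ opp x ∧ g = val x + val y := by
  constructor
  · rintro ⟨l, h2, rfl⟩
    obtain ⟨x, hx, p1, l', e1, c1, s1⟩ := peel A l (by omega)
    obtain ⟨y, hy, p2, l'', -, c2, s2⟩ := peel A l' (by omega)
    have h0 : ∑ y ∈ A, l'' y • y = 0 := by
      have : ∑ y ∈ A, |l'' y| = 0 := by omega
      rw [sum_eq_zero_iff_of_nonneg fun _ _ => abs_nonneg _] at this
      exact sum_eq_zero fun z hz => by rw [abs_eq_zero.1 (this z hz), zero_smul]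
    refine ⟨x, hx, y, hy, ?_, by rw [s1, s2, h0, add_zero]⟩
    rintro rfl
    obtain ⟨a, b⟩ := x
    simp only [opp] at p1 p2 e1
    rw [e1] at p2
    cases b <;> simp [sg] at p1 p2 <;> omega
  · rintro ⟨x, hx, y, hy, hne, rfl⟩
    obtain ⟨s1, s2⟩ := shift A (fun _ => 0) (mem_TT.1 hy) (sg y.2)
    obtain ⟨s3, s4⟩ := shift A (Function.update (fun _ => 0) y.1 (0 + sg y.2)) (mem_TT.1 hx)
      (sg x.2)
    refine ⟨_, ?_, by rw [s4, s2]; simp [val]⟩
    have a1 : ∀ b, |sg b| = 1 := fun b => by cases b <;> simp [sg]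
    simp only [abs_zero, sum_const_zero, add_zero, zero_add, a1] at s1 s3 ⊢
    rw [s1] at s3
    by_cases h : x.1 = y.1
    · have hxy : y = x := (eq_or_opp h).resolve_right hne
      subst hxy
      have a2 : |sg y.2 + sg y.2| = 2 := by cases y.2 <;> simp [sg]
      rw [Function.update_self, a1, a2] at s3
      rw [Function.update_self]
      omega
    · rw [Function.update_of_ne h] at s3 ⊢
      simp only [abs_zero, zero_add, add_zero, a1] at s3 ⊢
      omega

/-- The sum, with opposite pairs used as second copies of the diagonal. -/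
def sm (p : (G × Bool) × (G × Bool)) : G :=
  if p.1.1 = p.2.1 then val p.1 + val p.1 else val p.1 + val p.2

/-- The involution that preserves the sum. -/
def tw (p : (G × Bool) × (G × Bool)) : (G × Bool) × (G × Bool) :=
  if p.1.1 = p.2.1 then (p.1, opp p.2) else (p.2, p.1)

theorem sm_eq {x y : G × Bool} (h : y ≠ opp x) : sm (x, y) = val x + val y := by
  unfold sm
  split_ifs with h1
  · have : y = x := (eq_or_opp h1).resolve_right h
    rw [this]
  · rfl

theorem image_sm (A : Finset G) : signed2 A = ↑((TT A ×ˢ TT A).image sm) := by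
  ext g
  rw [mem_signed2, mem_coe, mem_image]
  constructor
  · rintro ⟨x, hx, y, hy, hne, rfl⟩
    exact ⟨(x, y), mem_product.2 ⟨hx, hy⟩, sm_eq hne⟩
  · rintro ⟨⟨x, y⟩, hp, rfl⟩
    rw [mem_product] at hp
    by_cases h : x.1 = y.1
    · exact ⟨x, hp.1, x, hp.1, (opp_ne x).symm, if_pos h⟩
    · exact ⟨x, hp.1, y, hp.2, fun e => h (by rw [e]; rfl), if_neg h⟩

theorem pair_sub {A : Finset G} {p : (G × Bool) × (G × Bool)} (hp : p ∈ TT A ×ˢ TT A) :
    ({p, tw p} : Finset _) ⊆ (TT A ×ˢ TT A).filter (fun q => sm q = sm p) ∧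
      ({p, tw p} : Finset _).card = 2 := by
  obtain ⟨x, y⟩ := p
  have hp' := mem_product.1 hp
  by_cases h : x.1 = y.1
  · have e : tw (x, y) = (x, opp y) := if_pos h
    rw [e]
    refine ⟨fun q hq => ?_, card_pair fun e => opp_ne y (congrArg Prod.snd e).symm⟩
    rcases mem_insert.1 hq with rfl | hq
    · exact mem_filter.2 ⟨hp, rfl⟩
    · rw [mem_singleton.1 hq]
      exact mem_filter.2 ⟨mem_product.2 ⟨hp'.1, opp_mem hp'.2⟩,
        (if_pos h).trans (if_pos h).symm⟩
  · have e : tw (x, y) = (y, x) := if_neg h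
    rw [e]
    refine ⟨fun q hq => ?_, card_pair fun e => h (congrArg (fun q => q.1.1) e)⟩
    rcases mem_insert.1 hq with rfl | hq
    · exact mem_filter.2 ⟨hp, rfl⟩
    · rw [mem_singleton.1 hq]
      exact mem_filter.2 ⟨mem_product.2 ⟨hp'.2, hp'.1⟩,
        ((if_neg fun e => h e.symm).trans (add_comm _ _)).trans (if_neg h).symm⟩

theorem uniq_of_isB2 {A : Finset G} (h : IsB2 A) {x y z w : G × Bool} (hx : x ∈ TT A)
    (hy : y ∈ TT A) (hz : z ∈ TT A) (hw : w ∈ TT A) (h1 : y ≠ opp x) (h2 : w ≠ opp z)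
    (e : val x + val y = val z + val w) : x = z ∨ x = w := by
  rw [IsB2, image_sm, Set.ncard_coe_finset] at h
  have hs := card_eq_sum_card_image sm (TT A ×ˢ TT A)
  have hle : ∀ g ∈ (TT A ×ˢ TT A).image sm,
      2 ≤ ((TT A ×ˢ TT A).filter fun q => sm q = g).card := fun g hg => by
    obtain ⟨p, hp, rfl⟩ := mem_image.1 hg
    rw [← (pair_sub hp).2]
    exact card_le_card (pair_sub hp).1
  have hall := (sum_eq_sum_iff_of_le hle).1 (by
    rw [← hs, sum_const, h, card_product, card_TT, smul_eq_mul]; ring)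
  have hp : (x, y) ∈ TT A ×ˢ TT A := mem_product.2 ⟨hx, hy⟩
  have he := eq_of_subset_of_card_le (pair_sub hp).1
    (by rw [(pair_sub hp).2, ← hall _ (mem_image_of_mem sm hp)])
  have hq : (z, w) ∈ ({(x, y), tw (x, y)} : Finset _) := by
    rw [he]
    exact mem_filter.2 ⟨mem_product.2 ⟨hz, hw⟩, by rw [sm_eq h1, sm_eq h2, e]⟩
  rcases mem_insert.1 hq with hq | hq
  · exact Or.inl (congrArg Prod.fst hq).symm
  · rw [mem_singleton] at hq
    unfold tw at hq
    split_ifs at hq
    · exact Or.inl (congrArg Prod.fst hq).symm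
    · exact Or.inr (congrArg Prod.snd hq).symm

end BRa

open BRa in
theorem rowBR : RowBR := by
  intro G _ _ _ A
  rw [← BRa.image_val]
  constructor
  · intro h
    have inj : ∀ x ∈ TT A, ∀ y ∈ TT A, val x + val x = val y + val y → x = y :=
      fun x hx y hy e => by
        rcases uniq_of_isB2 h hx hx hy hy (opp_ne x).symm (opp_ne y).symm e with h | h <;> exact h
    refine ⟨⟨fun s hs => ?_, fun s hs h0 => ?_, fun a ha b hb c hc d hd e h0 => ?_⟩, ?_⟩
    · obtain ⟨x, hx, rfl⟩ := mem_image.1 hs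
      exact mem_image.2 ⟨opp x, opp_mem hx, val_opp x⟩
    · obtain ⟨x, hx, rfl⟩ := mem_image.1 hs
      refine opp_ne x (inj _ (opp_mem hx) x hx ?_)
      rw [val_opp, ← neg_add, h0, neg_zero]
    · obtain ⟨x, hx, rfl⟩ := mem_image.1 ha
      obtain ⟨y, hy, rfl⟩ := mem_image.1 hb
      obtain ⟨z, hz, rfl⟩ := mem_image.1 hc
      obtain ⟨w, hw, rfl⟩ := mem_image.1 hd
      refine (uniq_of_isB2 h hx hy hz hw (fun e' => h0 ?_) (fun e' => h0 ?_) e).imp
        (congrArg BRa.val) (congrArg BRa.val)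
      · rw [e', val_opp, add_neg_cancel]
      · rw [e, e', val_opp, add_neg_cancel]
    · rw [card_image_of_injOn fun x hx y hy e => inj x hx y hy (by rw [e]), card_TT]
  · rintro ⟨hS, hc⟩
    have inj : Set.InjOn BRa.val (TT A : Set (G × Bool)) :=
      card_image_iff.1 (hc.trans (card_TT A).symm)
    have e : signed2 A = ↑((DD ((TT A).image BRa.val))ᶜ) := by
      ext g
      rw [mem_signed2, mem_coe, mem_compl]
      constructor
      · rintro ⟨x, hx, y, hy, hne, rfl⟩
        refine add_notMem_DD (mem_image_of_mem _ hx) (mem_image_of_mem _ hy) fun h0 => hne ?_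
        refine inj hy (mem_coe.2 (opp_mem hx)) ?_
        rw [val_opp]
        exact eq_neg_of_add_eq_zero_right h0
      · intro hg
        obtain ⟨h0, a, ha, b, hb, rfl⟩ := exists_of_notMem_DD hg
        obtain ⟨x, hx, rfl⟩ := mem_image.1 ha
        obtain ⟨y, hy, rfl⟩ := mem_image.1 hb
        exact ⟨x, hx, y, hy, fun e' => h0 (by rw [e', val_opp, add_neg_cancel]), rfl⟩
    have h1 := hS.card_eq
    have h2 := card_add_card_compl (DD ((TT A).image BRa.val))
    rw [IsB2, e, Set.ncard_coe_finset]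
    rw [hc] at h1
    nlinarith

end Pool.Agent.MP_c5d52e_co.H55
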