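import Pool.Agent.MP_c5d52e_co.H55.Spec

/-! The master counting inequalities. -/

open Finset

namespace Pool.Agent.MP_c5d52e_co.H55

namespace COUNTa

variable {G : Type} [AddCommGroup G] [Fintype G] [DecidableEq G]

theorem ty_sum (S : Finset G) (x y : ℕ) :
    ∑ g ∈ Gen S, (if (XS S g).card = x ∧ (MS S g).card = y then 1 else 0) = (Ty S x y).card := by
  rw [Ty, card_filter]

theorem le_univ (S : Finset G) (f : G → ℕ) : ∑ g ∈ Gen S, f g ≤ ∑ g : G, f g :=
  sum_le_sum_of_subset (subset_univ _)

end COUNTa

open COUNTa in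
theorem rowCOUNT : RowCOUNT := by
  intro G _ _ _ S h
  have hX := sum_X S
  have hY := sum_Y S
  have hXX := h.sum_XX
  have hXY := h.sum_XY
  have hYY := h.sum_YY
  have hG := gen_card S
  have hX' := le_univ S fun g => (XS S g).card
  have hY' := le_univ S fun g => (MS S g).card
  rw [hX] at hX'
  rw [hY] at hY'
  refine ⟨fun hk => ?_, fun hk => ?_, fun hk => ?_, fun hk => ?_⟩
  · have key : ∀ g ∈ Gen S, 4 ≤ (XS S g).card + 2 * (MS S g).card +
        3 * (if (XS S g).card = 1 ∧ (MS S g).card = 0 then 1 else 0) := by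
      intro g hg
      obtain ⟨c, hc, -⟩ := h.star hg
      split_ifs <;> omega
    have := sum_le_sum key
    rw [sum_add_distrib, sum_add_distrib, ← mul_sum, ← mul_sum, ty_sum, sum_const,
      smul_eq_mul] at this
    nlinarith
  · have key : ∀ g ∈ Gen S, 5 ≤ (XS S g).card + 2 * (MS S g).card +
        3 * (if (XS S g).card = 2 ∧ (MS S g).card = 0 then 1 else 0) +
        3 * (if (XS S g).card = 0 ∧ (MS S g).card = 1 then 1 else 0) := by
      intro g hg
      obtain ⟨c, hc, -⟩ := h.star hg
      split_ifs <;> omega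
    have := sum_le_sum key
    rw [sum_add_distrib, sum_add_distrib, sum_add_distrib, ← mul_sum, ← mul_sum, ← mul_sum, ty_sum,
      ty_sum, sum_const, smul_eq_mul] at this
    nlinarith
  · have key : ∀ g ∈ Gen S, 3 ≤ (XS S g).card + (MS S g).card +
        3 * (if (XS S g).card = 0 ∧ (MS S g).card = 0 then 1 else 0) +
        (if (XS S g).card = 1 ∧ (MS S g).card = 1 then 1 else 0) := by
      intro g hg
      obtain ⟨c, hc, -⟩ := h.star hg
      split_ifs <;> omega
    have := sum_le_sum key
    rw [sum_add_distrib, sum_add_distrib, sum_add_distrib, ← mul_sum, ty_sum,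
      ty_sum, sum_const, smul_eq_mul] at this
    nlinarith
  · have gen : ∀ W : ℕ, 6 * W ≤ W * W + 9 := fun W => by
      zify; nlinarith [sq_nonneg ((W : ℤ) - 3)]
    have key : ∀ g ∈ Gen S, 6 * ((XS S g).card + 2 * (MS S g).card) ≤
        ((XS S g).card + 2 * (MS S g).card) * ((XS S g).card + 2 * (MS S g).card) +
        9 * (if (XS S g).card = 1 ∧ (MS S g).card = 1 then 1 else 0) +
        9 * (if (XS S g).card = 3 ∧ (MS S g).card = 0 then 1 else 0) := by
      intro g hg
      obtain ⟨c, hc, -⟩ := h.star hg
      have h9 := gen ((XS S g).card + 2 * (MS S g).card)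
      split_ifs with h1 h2 h2
      · omega
      · omega
      · omega
      · have : (XS S g).card + 2 * (MS S g).card = 0 ∨ 6 ≤ (XS S g).card + 2 * (MS S g).card := by
          omega
        rcases this with h0 | h0
        · rw [h0]
        · simpa using Nat.mul_le_mul_right _ h0
    have k1 := sum_le_sum key
    rw [sum_add_distrib, sum_add_distrib, ← mul_sum (a := 9), ← mul_sum (a := 9), ty_sum,
      ty_sum] at k1
    have k2 := sum_le_sum fun g (_ : g ∈ (Gen S)ᶜ) => gen ((XS S g).card + 2 * (MS S g).card)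
    rw [sum_add_distrib, sum_const, smul_eq_mul, card_compl] at k2
    have k3 := sum_add_sum_compl (Gen S) fun g => 6 * ((XS S g).card + 2 * (MS S g).card)
    have k4 := sum_add_sum_compl (Gen S) fun g =>
      ((XS S g).card + 2 * (MS S g).card) * ((XS S g).card + 2 * (MS S g).card)
    have k5 : ∑ g : G, 6 * ((XS S g).card + 2 * (MS S g).card) =
        6 * (S.card * S.card + 2 * ((DD S).card * S.card)) := by
      rw [← mul_sum, sum_add_distrib, ← mul_sum, hX, hY]
    have k6 : ∑ g : G, ((XS S g).card + 2 * (MS S g).card) * ((XS S g).card + 2 * (MS S g).card) =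
        ∑ g : G, (XS S g).card * (XS S g).card + 4 * ∑ g : G, (XS S g).card * (MS S g).card +
          4 * ∑ g : G, (MS S g).card * (MS S g).card := by
      rw [mul_sum, mul_sum, ← sum_add_distrib, ← sum_add_distrib]
      exact sum_congr rfl fun g _ => by ring
    have k7 : Fintype.card G - (Gen S).card ≤ 2 * S.card := by omega
    nlinarith

end Pool.Agent.MP_c5d52e_co.H55
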