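import Pool.Agent.MP_c5d52e_co.H55.Spec

/-! The examples in exponent three. -/

open Finset

namespace Pool.Agent.MP_c5d52e_co.H55

namespace EXa

theorem of_list {G : Type} [AddCommGroup G] [Fintype G] [DecidableEq G] (L M : List G) (m : ℕ)
    (hM : M = L ++ L.map fun a => -a) (hm : L.length = m) (h0 : M.Nodup)
    (h2 : ∀ s ∈ L, s + s ≠ 0)
    (h3 : ∀ a ∈ M, ∀ b ∈ M, a + b ≠ 0 → ∀ c ∈ M, a + b - c ∈ M → a = c ∨ b = c) :
    ∃ A : Finset G, A.card = m ∧ Sid (A ∪ A.image fun a => -a) ∧
      (A ∪ A.image fun a => -a).card = 2 * A.card := by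
  have hL : L.Nodup := (List.nodup_append.1 (hM ▸ h0)).1
  have e : (L.toFinset ∪ L.toFinset.image fun a => -a) = M.toFinset := by
    ext x
    simp [hM]
  have hc : L.toFinset.card = m := by rw [List.toFinset_card_of_nodup hL, hm]
  refine ⟨L.toFinset, hc, ?_, ?_⟩
  · rw [e]
    refine ⟨fun s hs => ?_, fun s hs => ?_, fun a ha b hb c hc d hd e1 e2 => ?_⟩
    · simp only [hM, List.mem_toFinset, List.mem_append, List.mem_map] at hs ⊢
      rcases hs with h | ⟨a, ha, rfl⟩
      · exact Or.inr ⟨s, h, rfl⟩
      · exact Or.inl (by rwa [neg_neg])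
    · simp only [hM, List.mem_toFinset, List.mem_append, List.mem_map] at hs
      rcases hs with h | ⟨a, ha, rfl⟩
      · exact h2 s h
      · rw [← neg_add, neg_ne_zero]
        exact h2 a ha
    · rw [List.mem_toFinset] at ha hb hc hd
      rcases h3 a ha b hb e2 c hc (by rwa [e1, add_sub_cancel_left]) with h | h
      · exact Or.inl h
      · rw [h, add_comm c] at e1
        exact Or.inr (add_right_cancel e1)
  · rw [e, List.toFinset_card_of_nodup h0, hc, hM, List.length_append, List.length_map, hm,
      two_mul]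

theorem of_table {G : Type} [AddCommGroup G] (M : List G) (f p q : G → ℕ)
    (h1 : ∀ a ∈ M, ∀ b ∈ M, f a = f b → a = b)
    (h2 : ∀ a ∈ M, ∀ b ∈ M, a + b = 0 ∨ (p (a + b) = f a ∧ q (a + b) = f b) ∨
      (p (a + b) = f b ∧ q (a + b) = f a)) :
    ∀ a ∈ M, ∀ b ∈ M, a + b ≠ 0 → ∀ c ∈ M, a + b - c ∈ M → a = c ∨ b = c := by
  intro a ha b hb h0 c hc hd
  have k1 := (h2 a ha b hb).resolve_left h0
  have k2 := h2 c hc _ hd
  rw [add_sub_cancel] at k2
  rcases k1 with k1 | k1 <;> rcases k2.resolve_left h0 with k2 | k2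
  · exact Or.inl (h1 a ha c hc (k1.1.symm.trans k2.1))
  · exact Or.inr (h1 b hb c hc (k1.2.symm.trans k2.2))
  · exact Or.inr (h1 b hb c hc (k1.1.symm.trans k2.1))
  · exact Or.inl (h1 a ha c hc (k1.2.symm.trans k2.2))

/-- the number with the given ternary digits -/
def code (v : Fin 5 → ZMod 3) : ℕ :=
  (v 0).val + 3 * (v 1).val + 9 * (v 2).val + 27 * (v 3).val + 81 * (v 4).val

def tabP : ℕ := 2509187892405351149758688320651022456163472247378465714130056692636869757985600410818815443737665082021476577067336338490200903775329969644246508262863732922941124030774509104116558146050314548891960669699808005240957044622611486211340715210703537411168911241113989039657630176479905496434466661398635661248538656739652383923860439849609091896480275205252769102482432868548244810671982228620296792790817650168691608773798551199764967262432851208058077021797207794845762288489538934859589067581968282572215130876304454110887365861396171162833057269061057756149916375908766350856173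

def tabQ : ℕ := 2529752544496235293092019180451658753338424296952458008310624613520513627405890338503241552209532348342606271746630735250794259305119048253514522193511138585553734552750857204984162165586296078164129981846428418145011743803381016827863793244674167512407246549026107167697059330510490297760421890751075405903990219406965678822089168764424295565851054411983124744073834769056044437937751118957888927923441742059161399294473928936619969602419933665761703414216489920711748649175927998417734823984681136934485232699976354320209594867204348926360348447312371951344722988324067967368031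

end EXa

theorem rowEX : RowEX := by
  intro r m h
  simp only [mem_insert, mem_singleton, Prod.mk.injEq] at h
  rcases h with ⟨rfl, rfl⟩ | ⟨rfl, rfl⟩ | ⟨rfl, rfl⟩ | ⟨rfl, rfl⟩ | ⟨rfl, rfl⟩
  · exact EXa.of_list [] [] 0 rfl rfl (by simp) (by simp) (by simp)
  · exact EXa.of_list [![1]] [![1], ![2]] 1 (by decide +kernel) rfl (by decide +kernel)
      (by decide +kernel) (by decide +kernel)
  · exact EXa.of_list [![1, 0], ![0, 1]] [![1, 0], ![0, 1], ![2, 0], ![0, 2]] 2
      (by decide +kernel) rfl (by decide +kernel) (by decide +kernel) (by decide +kernel)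
  · exact EXa.of_list [![1, 0, 0], ![0, 1, 0], ![0, 0, 1]]
      [![1, 0, 0], ![0, 1, 0], ![0, 0, 1], ![2, 0, 0], ![0, 2, 0], ![0, 0, 2]] 3
      (by decide +kernel) rfl (by decide +kernel) (by decide +kernel) (by decide +kernel)
  · exact EXa.of_list
      [![1, 0, 0, 0, 0], ![0, 1, 0, 0, 0], ![0, 0, 1, 0, 0], ![0, 0, 0, 1, 0], ![0, 0, 0, 0, 1],
        ![1, 1, 1, 1, 1], ![0, 1, 2, 2, 1], ![1, 0, 1, 2, 2], ![2, 1, 0, 1, 2], ![2, 2, 1, 0, 1],
        ![1, 2, 2, 1, 0]]
      [![1, 0, 0, 0, 0], ![0, 1, 0, 0, 0], ![0, 0, 1, 0, 0], ![0, 0, 0, 1, 0], ![0, 0, 0, 0, 1],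
        ![1, 1, 1, 1, 1], ![0, 1, 2, 2, 1], ![1, 0, 1, 2, 2], ![2, 1, 0, 1, 2], ![2, 2, 1, 0, 1],
        ![1, 2, 2, 1, 0],
        ![2, 0, 0, 0, 0], ![0, 2, 0, 0, 0], ![0, 0, 2, 0, 0], ![0, 0, 0, 2, 0], ![0, 0, 0, 0, 2],
        ![2, 2, 2, 2, 2], ![0, 2, 1, 1, 2], ![2, 0, 2, 1, 1], ![1, 2, 0, 2, 1], ![1, 1, 2, 0, 2],
        ![2, 1, 1, 2, 0]] 11
      (by decide +kernel) rfl (by decide +kernel) (by decide +kernel)
      (EXa.of_table _ EXa.code (fun v => EXa.tabP / 243 ^ EXa.code v % 243)
        (fun v => EXa.tabQ / 243 ^ EXa.code v % 243) (by decide +kernel) (by decide +kernel))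

end Pool.Agent.MP_c5d52e_co.H55
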