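import Pool.Agent.MP_c5d52e_co.H55.Spec

/-! Generic elements of types `(1,0)`, `(0,1)`, `(0,0)`. -/

open Finset

namespace Pool.Agent.MP_c5d52e_co.H55

namespace N1a

variable {G : Type} [AddCommGroup G] [Fintype G] [DecidableEq G] {S : Finset G}

theorem sub10 (h : Sid S) {c : ℤ} (hc : 3 * c = S.card + 1) : (Ty S 1 0).card ≤
    ((S ×ˢ S).filter fun p => (1 - 2 * c) • p.1 = c • p.2).card := by
  refine le_trans (card_le_card fun g hg => ?_)
    (card_image_le (f := fun p : G × G => p.1 + p.1 + p.2))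
  obtain ⟨hg, hX, hY⟩ := mem_Ty.1 hg
  obtain ⟨c', h1, h2⟩ := h.star hg
  obtain rfl : c' = c := by rw [hX, hY] at h1; push_cast at h1; omega
  obtain ⟨t, ht⟩ := card_eq_one.1 hX
  have hm : t ∈ XS S g := by rw [ht]; simp
  rw [ht, card_eq_zero.1 hY, sum_singleton, sum_empty, sub_zero] at h2
  rw [mem_XS] at hm
  refine mem_image.2 ⟨(t, g - (t + t)), mem_filter.2 ⟨mem_product.2 hm, ?_⟩, by simp⟩
  simp only [smul_sub, h2]
  module

theorem sub01 (h : Sid S) {c : ℤ} (hc : 3 * c + 1 = S.card) : (Ty S 0 1).card ≤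
    ((S ×ˢ DD S).filter fun p => (c + 1) • p.1 = (-c) • p.2).card := by
  refine le_trans (card_le_card fun g hg => ?_)
    (card_image_le (f := fun p : G × G => p.1 + p.2))
  obtain ⟨hg, hX, hY⟩ := mem_Ty.1 hg
  obtain ⟨c', h1, h2⟩ := h.star hg
  obtain rfl : c' = c := by rw [hX, hY] at h1; push_cast at h1; omega
  obtain ⟨u, hu⟩ := card_eq_one.1 hY
  have hm : u ∈ MS S g := by rw [hu]; simp
  rw [hu, card_eq_zero.1 hX, sum_singleton, sum_empty, zero_sub] at h2
  rw [mem_MS] at hm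
  refine mem_image.2 ⟨(u, g - u), mem_filter.2 ⟨mem_product.2 hm, ?_⟩, by simp⟩
  simp only [smul_sub, neg_smul, h2]
  module

theorem en_le (Q : Finset G) (c : ℤ) :
    ((Q ×ˢ Q).filter fun p => c • p.1 = c • p.2).card ≤ Q.card * tor G c := by
  refine le_trans (card_le_mul_card_image_of_maps_to (f := Prod.snd) (t := Q)
    (fun p hp => (mem_product.1 (mem_filter.1 hp).1).2) (tor G c) fun b _ => ?_)
    (le_of_eq (mul_comm _ _))
  refine le_trans (card_le_card_of_injOn Prod.fst (fun p hp => ?_) (fun p hp q hq e => ?_))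
    (fib_le c (c • b) Q)
  · simp only [coe_filter, mem_filter, mem_product, Set.mem_ofPred_eq] at hp ⊢
    exact ⟨hp.1.1.1, hp.2 ▸ hp.1.2⟩
  · simp only [coe_filter, mem_filter, mem_product, Set.mem_ofPred_eq] at hp hq
    exact Prod.ext e (hp.2.trans hq.2.symm)

end N1a

open N1a in
theorem rowN1 : RowN1 := by
  intro G _ _ _ S h
  refine ⟨?_, ?_, fun c hc => card_le_card fun g hg => ?_⟩
  · rcases (Ty S 1 0).eq_empty_or_nonempty with h0 | ⟨g, hg⟩
    · rw [h0]; simp
    obtain ⟨hg, hX, hY⟩ := mem_Ty.1 hg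
    obtain ⟨c, h1, -⟩ := h.star hg
    have hc : 3 * c = S.card + 1 := by rw [hX, hY] at h1; push_cast at h1; omega
    have e1 := (Nat.pow_le_pow_left (sub10 h hc) 2).trans
      ((cs_count S S (fun t => (1 - 2 * c) • t) fun s => c • s).trans
        (Nat.mul_le_mul (h.energy _) (h.energy _)))
    have e2 : tor G (1 - 2 * c) * tor G c ≤ Fintype.card G := tor_coprime ⟨1, 2, by ring⟩
    obtain ⟨a, ha⟩ := Nat.exists_eq_add_one_of_ne_zero (tor_pos (G := G) (1 - 2 * c)).ne'
    obtain ⟨b, hb⟩ := Nat.exists_eq_add_one_of_ne_zero (tor_pos (G := G) c).ne'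
    rw [ha, hb] at e1 e2
    have e3 : a + b + 2 ≤ Fintype.card G + 1 := by nlinarith [Nat.zero_le (a * b)]
    have e4 := Nat.mul_le_mul_left (2 * S.card) e3
    nlinarith
  · rcases (Ty S 0 1).eq_empty_or_nonempty with h0 | ⟨g, hg⟩
    · rw [h0]; simp
    obtain ⟨hg, hX, hY⟩ := mem_Ty.1 hg
    obtain ⟨c, h1, -⟩ := h.star hg
    have hc : 3 * c + 1 = S.card := by rw [hX, hY] at h1; push_cast at h1; omega
    have e1 := (Nat.pow_le_pow_left (sub01 h hc) 2).trans
      ((cs_count S (DD S) (fun t => (c + 1) • t) fun s => (-c) • s).trans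
        (Nat.mul_le_mul_right _ (h.energy _)))
    have e2 : tor G (c + 1) * tor G (-c) ≤ Fintype.card G := tor_coprime ⟨1, 1, by ring⟩
    have e3 := en_le (DD S) (-c)
    have e4 : ((DD S ×ˢ DD S).filter fun p => (-c) • p.1 = (-c) • p.2).card ≤ (DD S).card ^ 2 :=
      (card_filter_le _ _).trans (by rw [card_product, sq])
    have e5 := Nat.mul_le_mul_left S.card e4
    have e6 := Nat.mul_le_mul_left (2 * tor G (c + 1)) e3
    have e7 := Nat.mul_le_mul_left (2 * (DD S).card) e2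
    refine e1.trans ?_
    rw [add_mul]
    refine Nat.add_le_add e5 (e6.trans (le_trans (le_of_eq ?_) e7))
    ring
  · obtain ⟨hg, hX, hY⟩ := mem_Ty.1 hg
    obtain ⟨c', h1, h2⟩ := h.star hg
    obtain rfl : c' = c := by rw [hX, hY] at h1; push_cast at h1; omega
    rw [card_eq_zero.1 hX, card_eq_zero.1 hY, sum_empty, sub_zero] at h2
    exact mem_filter.2 ⟨mem_univ _, h2⟩

end Pool.Agent.MP_c5d52e_co.H55
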