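import Pool.Agent.MP_c5d52e_co.H55.Spec

/-! The number of generic elements of type `(1, 1)`. -/

open Finset

namespace Pool.Agent.MP_c5d52e_co.H55

namespace N11a

variable {G : Type} [AddCommGroup G] [Fintype G] [DecidableEq G]

theorem data {S : Finset G} (h : Sid S) {c : ℤ} (hc : 3 * c = S.card) {g : G}
    (hg : g ∈ Ty S 1 1) : ∃ t u : G, t ∈ S ∧ u ∈ S ∧ g - (t + t) ∈ S ∧ g - u ∈ DD S ∧ t ≠ u ∧
      g - (t + t) ≠ u ∧ c • g = t - u := by
  obtain ⟨hG, hX, hM⟩ := mem_Ty.1 hg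
  obtain ⟨c', h1, h2⟩ := h.star hG
  obtain ⟨t, ht⟩ := card_eq_one.1 hX
  obtain ⟨u, hu⟩ := card_eq_one.1 hM
  have hcc : c' = c := by
    rw [hX, hM] at h1
    push_cast at h1
    omega
  have ht' : t ∈ XS S g := by rw [ht]; exact mem_singleton_self t
  have hu' : u ∈ MS S g := by rw [hu]; exact mem_singleton_self u
  obtain ⟨f1, f2, -⟩ := h.XS_facts hG ht'
  rw [ht, hu, sum_singleton, sum_singleton, hcc] at h2
  exact ⟨t, u, (mem_XS.1 ht').1, (mem_MS.1 hu').1, (mem_XS.1 ht').2, (mem_MS.1 hu').2,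
    fun e => f1 (e ▸ hu'), fun e => f2 (e ▸ hu'), h2⟩

omit [Fintype G] in
theorem pairs_le {S : Finset G} (h : Sid S) (V : Finset G) :
    ((S ×ˢ S).filter fun p => p.1 - p.2 ∈ V ∧ p.1 ≠ p.2).card ≤ 2 * V.card := by
  refine card_le_mul_card_image_of_maps_to (f := fun p : G × G => p.1 - p.2)
    (fun p hp => (mem_filter.1 hp).2.1) 2 fun v _ => ?_
  by_cases hv : v = 0
  · have : (((S ×ˢ S).filter fun p => p.1 - p.2 ∈ V ∧ p.1 ≠ p.2).filter
        fun p : G × G => p.1 - p.2 = v) = ∅ := by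
      refine filter_eq_empty_iff.2 fun p hp e => (mem_filter.1 hp).2.2 ?_
      rw [hv] at e
      exact sub_eq_zero.1 e
    rw [this]
    simp
  · refine le_trans (card_le_card fun p hp => ?_) (h.r2_pair' hv)
    simp only [mem_filter] at hp ⊢
    exact ⟨hp.1.1, hp.2⟩

omit [Fintype G] in
theorem triples_le {S : Finset G} (h : Sid S) (T V : Finset G) (x y z : G → G)
    (hx : ∀ g ∈ T, x g ∈ S ∧ y g ∈ S ∧ z g ∈ S ∧ x g - y g ∈ V ∧ x g ≠ y g)
    (hi : ∀ g ∈ T, ∀ g' ∈ T, x g = x g' → z g = z g' → g = g') :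
    T.card ≤ 2 * S.card * V.card := by
  have h1 : T.card ≤ (((S ×ˢ S).filter fun p => p.1 - p.2 ∈ V ∧ p.1 ≠ p.2) ×ˢ S).card := by
    refine card_le_card_of_injOn (fun g => ((x g, y g), z g)) (fun g hg => ?_)
      (fun g hg g' hg' e => ?_)
    · obtain ⟨a1, a2, a3, a4, a5⟩ := hx g hg
      exact mem_coe.2 (mem_product.2 ⟨mem_filter.2 ⟨mem_product.2 ⟨a1, a2⟩, a4, a5⟩, a3⟩)
    · simp only [Prod.mk.injEq] at e
      exact hi g hg g' hg' e.1.1 e.2
  rw [card_product] at h1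
  calc T.card ≤ _ := h1
    _ ≤ 2 * V.card * S.card := Nat.mul_le_mul_right _ (pairs_le h V)
    _ = 2 * S.card * V.card := by ring

end N11a

theorem rowN11 : RowN11 := by
  intro G _ _ _ S h c hc
  have key : ∀ g : G, ∃ t u : G, g ∈ Ty S 1 1 → t ∈ S ∧ u ∈ S ∧ g - (t + t) ∈ S ∧ g - u ∈ DD S ∧
      t ≠ u ∧ g - (t + t) ≠ u ∧ c • g = t - u := by
    intro g
    by_cases hg : g ∈ Ty S 1 1
    · obtain ⟨t, u, hh⟩ := N11a.data h hc hg
      exact ⟨t, u, fun _ => hh⟩
    · exact ⟨0, 0, fun hh => absurd hh hg⟩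
  choose t u H using key
  have hu : ∀ g ∈ Ty S 1 1, u g = t g - c • g := fun g hg => by
    rw [(H g hg).2.2.2.2.2.2]
    abel
  refine ⟨?_, ?_, ?_, ?_⟩
  · refine card_le_card_of_injOn (fun g => (t g, g - (t g + t g))) (fun g hg => ?_)
      (fun g _ g' _ e => ?_)
    · obtain ⟨a1, a2, a3, -⟩ := H g hg
      refine mem_coe.2 (mem_filter.2 ⟨mem_product.2 ⟨a1, a3⟩, ?_⟩)
      have e : (1 - 2 * c) • t g + (-c) • (g - (t g + t g)) = u g := by
        rw [hu g hg]
        module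
      simpa only [e] using a2
    · simp only [Prod.mk.injEq] at e
      have e2 := e.2
      rw [e.1] at e2
      exact sub_left_injective e2
  · refine card_le_card_of_injOn (fun g => (g - u g, u g)) (fun g hg => ?_)
      (fun g _ g' _ e => ?_)
    · obtain ⟨a1, a2, -, a4, -⟩ := H g hg
      refine mem_coe.2 (mem_filter.2 ⟨mem_product.2 ⟨a4, a2⟩, ?_⟩)
      have e : c • (g - u g) + (c + 1) • u g = t g := by
        have : c • (g - u g) + (c + 1) • u g = c • g + u g := by module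
        rw [this, hu g hg]
        abel
      simpa only [e] using a1
    · simp only [Prod.mk.injEq] at e
      have e1 := e.1
      rw [e.2] at e1
      exact sub_left_injective e1
  · have h1 := N11a.triples_le h (Ty S 1 1) (image₂ (· + ·) (img G (c + 1)) (img G (2 * c - 1)))
      (fun g => g - (t g + t g)) u t (fun g hg => by
        obtain ⟨a1, a2, a3, -, -, a6, -⟩ := H g hg
        refine ⟨a3, a2, a1, ?_, a6⟩
        refine mem_image₂.2 ⟨_, mem_img.2 ⟨g - (t g + t g), rfl⟩, _, mem_img.2 ⟨t g, rfl⟩, ?_⟩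
        rw [hu g hg]
        module) (fun g _ g' _ e1 e2 => by
        rw [e2] at e1
        exact sub_left_injective e1)
    rw [mul_assoc (2 * S.card)]
    exact le_trans h1 (Nat.mul_le_mul_left _ (card_image₂_le _ _ _))
  · exact N11a.triples_le h (Ty S 1 1) (img G c) t u (fun g => g - (t g + t g)) (fun g hg => by
      obtain ⟨a1, a2, a3, -, a5, -, a7⟩ := H g hg
      exact ⟨a1, a2, a3, mem_img.2 ⟨g, a7⟩, a5⟩) (fun g _ g' _ e1 e2 => by
      rw [e1] at e2
      exact sub_left_injective e2)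

end Pool.Agent.MP_c5d52e_co.H55
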