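import Pool.Agent.MP_c5d52e_co.H55.Spec

/-! Elements of type `(2, 0)`. -/

open Finset

namespace Pool.Agent.MP_c5d52e_co.H55

namespace N20a

variable {G : Type} [AddCommGroup G] [Fintype G] [DecidableEq G] {S : Finset G}

theorem base (h : Sid S) {c : ℤ} (hc : 3 * c = S.card + 2) {g : G} (hg : g ∈ Ty S 2 0) :
    (XS S g).Nonempty ∧ ∀ t ∈ XS S g, c • g - t ∈ XS S g := by
  obtain ⟨h1, h2, h3⟩ := mem_Ty.1 hg
  obtain ⟨c', e1, e2⟩ := h.star h1
  rw [h2, h3] at e1
  obtain rfl : c = c' := by omega
  obtain ⟨a, b, hab, e⟩ := card_eq_two.1 h2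
  rw [card_eq_zero.1 h3, e, sum_pair hab, sum_empty, sub_zero] at e2
  rw [e, e2]
  refine ⟨⟨a, by simp⟩, fun t ht => ?_⟩
  rcases mem_insert.1 ht with rfl | ht
  · simp
  · rw [mem_singleton.1 ht]; simp

omit [Fintype G] in
theorem pairs (h : Sid S) (I : Finset G) :
    (S.sigma fun t => I.filter fun y => t + t - y ∈ S).card ≤ S.card + I.card ^ 2 := by
  have h1 : (S.sigma fun t => (I.filter fun y => t + t - y ∈ S).offDiag).card ≤
      2 * (I ×ˢ I).card := by
    refine card_le_mul_card_image_of_maps_to (f := fun x : Σ _ : G, G × G => x.2) ?_ 2 ?_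
    · intro x hx
      have := mem_offDiag.1 (mem_sigma.1 hx).2
      exact mem_product.2 ⟨(mem_filter.1 this.1).1, (mem_filter.1 this.2.1).1⟩
    · rintro ⟨y, y'⟩ -
      by_cases hy : y = y'
      · rw [filter_eq_empty_iff.2, card_empty]
        · exact Nat.zero_le _
        · intro x hx e
          have := (mem_offDiag.1 (mem_sigma.1 hx).2).2.2
          rw [e] at this
          exact this hy
      · refine le_trans (card_le_card_of_injOn (fun x => x.1 + x.1 - y) ?_ ?_)
          (h.r2' (sub_ne_zero.2 hy))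
        · intro x hx
          obtain ⟨hx, e⟩ := mem_filter.1 (mem_coe.1 hx)
          have := mem_offDiag.1 (mem_sigma.1 hx).2
          rw [e] at this
          refine mem_coe.2 (mem_filter.2 ⟨(mem_filter.1 this.1).2, ?_⟩)
          rw [show y - y' + (x.1 + x.1 - y) = x.1 + x.1 - y' by abel]
          exact (mem_filter.1 this.2.1).2
        · rintro ⟨t, p⟩ hx ⟨t', p'⟩ hx' e
          obtain ⟨hx, e1⟩ := mem_filter.1 (mem_coe.1 hx)
          obtain ⟨hx', e2⟩ := mem_filter.1 (mem_coe.1 hx')
          obtain rfl : t = t' :=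
            h.two_inj (mem_sigma.1 hx).1 (mem_sigma.1 hx').1 (sub_left_injective e)
          obtain rfl : p = p' := e1.trans e2.symm
          rfl
  rw [card_sigma, card_product] at h1
  have h2 : ∀ t ∈ S, 2 * (I.filter fun y => t + t - y ∈ S).card ≤
      2 + (I.filter fun y => t + t - y ∈ S).offDiag.card := by
    intro t _
    rw [offDiag_card]
    generalize (I.filter fun y => t + t - y ∈ S).card = m
    have : 3 * m ≤ 2 + m * m := by
      rcases m with _ | _ | m
      · omega
      · omega
      · nlinarith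
    omega
  have h3 := sum_le_sum h2
  rw [← mul_sum, sum_add_distrib, sum_const, smul_eq_mul] at h3
  rw [card_sigma, sq]
  omega

end N20a

open N20a

theorem rowN20 : RowN20 := by
  intro G _ _ _ S h c hc
  have hT : ∀ g : G, ∃ t, g ∈ Ty S 2 0 → t ∈ XS S g := by
    intro g
    by_cases hg : g ∈ Ty S 2 0
    · obtain ⟨t, ht⟩ := (base h hc hg).1
      exact ⟨t, fun _ => ht⟩
    · exact ⟨0, fun h' => absurd h' hg⟩
  choose T hT using hT
  refine ⟨?_, ?_, fun J hJ => ?_⟩
  · refine card_le_card_of_injOn (fun g => (T g, g - (T g + T g))) ?_ ?_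
    · intro g hg
      have h1 := hT g hg
      have h2 := (base h hc hg).2 _ h1
      refine mem_coe.2 (mem_filter.2 ⟨mem_product.2 (mem_XS.1 h1), ?_⟩)
      rw [show (2 * c - 1) • T g + c • (g - (T g + T g)) = c • g - T g by module]
      exact (mem_XS.1 h2).1
    · intro g _ g' _ e
      obtain ⟨e1, e2⟩ := Prod.mk.inj e
      rw [e1] at e2
      exact sub_left_injective e2
  · have hA : ((Ty S 2 0).filter fun g => ¬ c • g = 0).card ≤ 2 * (img G c ×ˢ S).card := by
      refine card_le_mul_card_image_of_maps_to (f := fun g => (c • g, g - (T g + T g))) ?_ 2 ?_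
      · intro g hg
        exact mem_product.2 ⟨mem_img.2 ⟨g, rfl⟩, (mem_XS.1 (hT g (mem_filter.1 hg).1)).2⟩
      · rintro ⟨y, s⟩ -
        by_cases hy : y = 0
        · rw [filter_eq_empty_iff.2, card_empty]
          · exact Nat.zero_le _
          · intro g hg e
            exact (mem_filter.1 hg).2 ((Prod.mk.inj e).1.trans hy)
        · refine le_trans (card_le_card_of_injOn T ?_ ?_) (h.r2 hy)
          · intro g hg
            obtain ⟨hg, e⟩ := mem_filter.1 (mem_coe.1 hg)
            have hg' := (mem_filter.1 hg).1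
            refine mem_coe.2 (mem_filter.2 ⟨(mem_XS.1 (hT g hg')).1, ?_⟩)
            rw [← (Prod.mk.inj e).1]
            exact (mem_XS.1 ((base h hc hg').2 _ (hT g hg'))).1
          · intro g hg g' hg' e
            have e1 := (Prod.mk.inj (mem_filter.1 (mem_coe.1 hg)).2).2
            have e2 := (Prod.mk.inj (mem_filter.1 (mem_coe.1 hg')).2).2
            rw [e] at e1
            exact sub_left_injective (e1.trans e2.symm)
    have hB : ((Ty S 2 0).filter fun g => c • g = 0).card ≤ 2 * S.card := by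
      refine card_le_mul_card_image_of_maps_to (f := T) ?_ 2 ?_
      · intro g hg
        exact (mem_XS.1 (hT g (mem_filter.1 hg).1)).1
      · intro t ht
        refine le_trans (card_le_card_of_injOn (fun g => g - (t + t)) ?_
          fun g _ g' _ e => sub_left_injective e) (h.r2' (h.four_ne ht))
        intro g hg
        obtain ⟨hg, e⟩ := mem_filter.1 (mem_coe.1 hg)
        obtain ⟨hg', e0⟩ := mem_filter.1 hg
        have h1 := hT g hg'
        have h2 := (mem_XS.1 ((base h hc hg').2 _ h1)).2
        rw [e] at h1 h2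
        rw [e0] at h2
        refine mem_coe.2 (mem_filter.2 ⟨(mem_XS.1 h1).2, ?_⟩)
        rwa [show t + t + (t + t) + (g - (t + t)) = g - (0 - t + (0 - t)) by abel]
    have := card_filter_add_card_filter_not (s := Ty S 2 0) (fun g => c • g = 0)
    rw [card_product] at hA
    nlinarith
  · have h1 : ((Ty S 2 0).sigma fun g => XS S g).card = 2 * (Ty S 2 0).card := by
      rw [card_sigma, sum_congr rfl fun g hg => (mem_Ty.1 hg).2.1, sum_const, smul_eq_mul,
        mul_comm]
    rw [← h1, mul_comm]
    refine le_trans ?_ (Nat.mul_le_mul_left J (pairs h (img G (2 * c - 1))))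
    refine card_le_mul_card_image_of_maps_to
      (f := fun x : Σ _ : G, G => (⟨x.2, (2 * c - 1) • x.1⟩ : Σ _ : G, G)) ?_ J ?_
    · rintro ⟨g, t⟩ hx
      obtain ⟨hg, ht⟩ := mem_sigma.1 hx
      refine mem_sigma.2 ⟨(mem_XS.1 ht).1, mem_filter.2 ⟨mem_img.2 ⟨g, rfl⟩, ?_⟩⟩
      have h2 := (mem_XS.1 ((base h hc hg).2 _ ht)).2
      dsimp only at h2 ⊢
      rwa [show t + t - (2 * c - 1) • g = g - (c • g - t + (c • g - t)) by module]
    · rintro ⟨t, y⟩ -
      refine le_trans (card_le_card_of_injOn (fun x => x.1 - (t + t)) ?_ ?_)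
        (hJ (y - (2 * c - 1) • (t + t)))
      · rintro ⟨g, t'⟩ hx
        obtain ⟨hx1, e⟩ := mem_filter.1 (mem_coe.1 hx)
        have h3 : g - (t' + t') ∈ S := (mem_XS.1 (mem_sigma.1 hx1).2).2
        obtain rfl : t' = t := congrArg Sigma.fst e
        obtain rfl : (2 * c - 1) • g = y := congrArg (fun x : Σ _ : G, G => x.2) e
        exact mem_coe.2 (mem_filter.2 ⟨h3, smul_sub _ _ _⟩)
      · rintro ⟨g, t'⟩ hx ⟨g', t''⟩ hx' e
        have e1 : t' = t := congrArg Sigma.fst (mem_filter.1 (mem_coe.1 hx)).2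
        have e2 : t'' = t := congrArg Sigma.fst (mem_filter.1 (mem_coe.1 hx')).2
        have e3 : g = g' := sub_left_injective e
        rw [e1, e2, e3]

end Pool.Agent.MP_c5d52e_co.H55
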