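import Pool.Agent.MP_c5d52e_co.H55.Spec

/-! Elements of type three, zero. -/

open Finset

namespace Pool.Agent.MP_c5d52e_co.H55

namespace N30a

/-- Triangles of a relation. -/
theorem tri_sq {α : Type} (S : Finset α) (R : α → α → Prop) [DecidableRel R] :
    (((S ×ˢ S) ×ˢ S).filter fun p => R p.1.1 p.1.2 ∧ R p.1.1 p.2 ∧ R p.1.2 p.2).card ^ 2 ≤
      ((S ×ˢ S).filter fun p => R p.1 p.2).card ^ 3 := by
  have h1 : (((S ×ˢ S) ×ˢ S).filter fun p => R p.1.1 p.1.2 ∧ R p.1.1 p.2 ∧ R p.1.2 p.2).card =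
      ∑ q ∈ (S ×ˢ S).filter fun p => R p.1 p.2, (S.filter fun c => R q.1 c ∧ R q.2 c).card := by
    rw [card_filter, sum_product, sum_filter]
    refine sum_congr rfl fun q _ => ?_
    by_cases hq : R q.1 q.2
    · simp only [hq, true_and, if_true, card_filter]
    · simp [hq]
  have h2 : ((S ×ˢ S).filter fun p => R p.1 p.2).card = ∑ a ∈ S, (S.filter fun c => R a c).card := by
    rw [card_filter, sum_product]
    exact sum_congr rfl fun a _ => (card_filter _ _).symm
  have h3 : ∑ q ∈ (S ×ˢ S).filter fun p => R p.1 p.2,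
      (S.filter fun c => R q.1 c ∧ R q.2 c).card ^ 2 ≤
        ((S ×ˢ S).filter fun p => R p.1 p.2).card ^ 2 := by
    refine le_trans (sum_le_sum_of_subset (filter_subset _ _)) ?_
    rw [h2, sq, sum_mul_sum, sum_product]
    refine sum_le_sum fun a _ => sum_le_sum fun b _ => ?_
    rw [sq]
    exact Nat.mul_le_mul (card_le_card (monotone_filter_right _ fun c _ h => h.1))
      (card_le_card (monotone_filter_right _ fun c _ h => h.2))
  rw [h1, pow_succ' _ 2]
  exact le_trans sq_sum_le_card_mul_sum_sq (Nat.mul_le_mul_left _ h3)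

variable {G : Type} [AddCommGroup G] [DecidableEq G] {S : Finset G}

theorem edges (h : Sid S) (y : G) :
    ((S ×ˢ S).filter fun p => ∃ t ∈ S, p.1 + p.2 + (y + y) = t + t).card ≤ 3 * S.card := by
  have h1 : ((S ×ˢ S).filter fun p => ∃ t ∈ S, p.1 + p.2 + (y + y) = t + t) ⊆
      ((S ×ˢ S).filter fun p => p.1 + p.2 = 0) ∪
        (S.filter fun t => t + t - (y + y) ≠ 0).biUnion fun t =>
          (S ×ˢ S).filter fun p => p.1 + p.2 = t + t - (y + y) := by
    intro p hp
    obtain ⟨hp1, t, ht, e⟩ := mem_filter.1 hp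
    by_cases h0 : p.1 + p.2 = 0
    · exact mem_union_left _ (mem_filter.2 ⟨hp1, h0⟩)
    · have e' : p.1 + p.2 = t + t - (y + y) := eq_sub_of_add_eq e
      exact mem_union_right _ (mem_biUnion.2 ⟨t, mem_filter.2 ⟨ht, e' ▸ h0⟩,
        mem_filter.2 ⟨hp1, e'⟩⟩)
  have h2 : ((S ×ˢ S).filter fun p => p.1 + p.2 = 0).card ≤ S.card := by
    refine card_le_card_of_injOn Prod.fst (fun p hp => (mem_product.1 (mem_filter.1 hp).1).1)
      fun p hp q hq e => Prod.ext e ?_
    have e1 := (mem_filter.1 hp).2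
    have e2 := (mem_filter.1 hq).2
    rw [← e2, e] at e1
    exact add_left_cancel e1
  have h3 : ((S.filter fun t => t + t - (y + y) ≠ 0).biUnion fun t =>
      (S ×ˢ S).filter fun p => p.1 + p.2 = t + t - (y + y)).card ≤ S.card * 2 :=
    le_trans (card_biUnion_le_card_mul _ _ 2 fun t ht => h.r2_pair (mem_filter.1 ht).2)
      (Nat.mul_le_mul_right _ (card_filter_le _ _))
  have := (card_le_card h1).trans (card_union_le _ _)
  omega

end N30a

theorem rowN30 : RowN30 := by
  intro G _ _ _ S h c hc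
  have key : ∀ y : G, ((Ty S 3 0).filter fun g => c • g = y).card ^ 2 ≤ 27 * S.card ^ 3 := by
    intro y
    have h1 := N30a.tri_sq S fun a b => ∃ t ∈ S, a + b + (y + y) = t + t
    have h2 := Nat.pow_le_pow_left (N30a.edges h y) 3
    rw [mul_pow] at h2
    refine le_trans (Nat.pow_le_pow_left ?_ 2) (h1.trans h2)
    refine card_le_card_of_forall_subsingleton
      (fun g p => ∃ t ∈ S, p.1.1 + p.1.2 + (y + y) = t + t ∧ g = t + t + p.2)
      (fun g hg => ?_) fun p _ g hg g' hg' => ?_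
    · obtain ⟨hg1, hy⟩ := mem_filter.1 hg
      obtain ⟨hG, hX, hM⟩ := mem_Ty.1 hg1
      obtain ⟨c', hc', e⟩ := h.star hG
      obtain ⟨t1, t2, t3, h12, h13, h23, hX'⟩ := card_eq_three.1 hX
      have hcc : c' = c + 1 := by
        rw [hX, hM] at hc'
        push_cast at hc'
        omega
      rw [card_eq_zero.1 hM, hX', sum_insert (by simp [h12, h13]), sum_pair h23, sum_empty,
        sub_zero, hcc, add_smul, one_smul, hy] at e
      have m1 := mem_XS.1 (show t1 ∈ XS S g by simp [hX'])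
      have m2 := mem_XS.1 (show t2 ∈ XS S g by simp [hX'])
      have m3 := mem_XS.1 (show t3 ∈ XS S g by simp [hX'])
      have ey : y = t1 + (t2 + t3) - g := eq_sub_of_add_eq e
      have e3 : g - (t1 + t1) + (g - (t2 + t2)) + (y + y) = t3 + t3 := by rw [ey]; abel
      refine ⟨((g - (t1 + t1), g - (t2 + t2)), g - (t3 + t3)), mem_filter.2
        ⟨mem_product.2 ⟨mem_product.2 ⟨m1.2, m2.2⟩, m3.2⟩, ⟨t3, m3.1, e3⟩, ⟨t2, m2.1, ?_⟩,
          ⟨t1, m1.1, ?_⟩⟩, t3, m3.1, e3, by simp⟩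
      · dsimp only
        rw [ey]; abel
      · dsimp only
        rw [ey]; abel
    · obtain ⟨-, t, ht, e, rfl⟩ := hg
      obtain ⟨-, t', ht', e', rfl⟩ := hg'
      rw [← e, ← e']
  rw [card_eq_sum_card_fiberwise (f := fun g : G => c • g) (t := img G c)
    (fun g _ => mem_coe.2 (mem_img.2 ⟨_, rfl⟩)), sq (img G c).card, mul_assoc]
  refine le_trans sq_sum_le_card_mul_sum_sq (Nat.mul_le_mul_left _ ?_)
  exact (sum_le_card_nsmul _ _ _ fun y _ => key y).trans (smul_eq_mul _ _).le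

end Pool.Agent.MP_c5d52e_co.H55
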