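import Pool.Agent.MP_c5d52e_co.H55.Spec

/-! Row ONEa. -/

open Finset

set_option linter.unusedSectionVars false

namespace Pool.Agent.MP_c5d52e_co.H55

namespace ONEaa

variable {G : Type} [AddCommGroup G] [Fintype G] [DecidableEq G] {S : Finset G}

theorem card_PP (h : Sid S) : (PP S).card = (QQ S).card := by
  have h1 := card_filter_add_card_filter_not (s := S) fun v => ∀ t ∈ S, t + t ≠ v
  have h2 := card_filter_add_card_filter_not (s := S) fun t => t + t ∉ S
  have h3 : (S.filter fun t => ¬ (t + t ∉ S)).card =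
      (S.filter fun v => ¬ ∀ t ∈ S, t + t ≠ v).card := by
    refine card_bij (fun t _ => t + t) (fun t ht => ?_) (fun a ha b hb e => ?_) fun v hv => ?_
    · rw [mem_filter, not_not] at ht
      exact mem_filter.2 ⟨ht.2, fun hh => hh t ht.1 rfl⟩
    · exact h.two_inj (mem_filter.1 ha).1 (mem_filter.1 hb).1 e
    · rw [mem_filter] at hv
      obtain ⟨hv1, hv2⟩ := hv
      push Not at hv2
      obtain ⟨t, ht, e⟩ := hv2
      exact ⟨t, mem_filter.2 ⟨ht, not_not.2 (e ▸ hv1)⟩, e⟩
  unfold PP QQ
  omega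

theorem sum_exc (h : Sid S) : ∑ v ∈ S, exc S v ≤ 3 * S.card := by
  let T : Finset G := S.image fun t => t + t + t
  have h1 : ∑ v ∈ S, exc S v = ((S ×ˢ S).filter fun p => p.1 + p.2 ∈ T).card := by
    rw [card_filter, sum_product]
    refine sum_congr rfl fun v _ => ?_
    rw [← card_filter, exc]
    congr 1
    ext s
    simp only [mem_filter, T, mem_image]
  have h2 := card_eq_sum_card_fiberwise (f := fun p : G × G => p.1 + p.2)
    (s := (S ×ˢ S).filter fun p => p.1 + p.2 ∈ T) (t := T) fun p hp => (mem_filter.1 hp).2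
  have h3 : ∀ g ∈ T, (((S ×ˢ S).filter fun p => p.1 + p.2 ∈ T).filter
      fun p => p.1 + p.2 = g).card ≤ 2 + if g = 0 then S.card else 0 := fun g _ => by
    refine (card_le_card (filter_subset_filter _ (filter_subset _ _))).trans ?_
    by_cases hg : g = 0
    · rw [if_pos hg]
      refine le_trans (card_le_card_of_injOn (t := S) Prod.fst (fun p hp => ?_)
        fun p hp q hq e => ?_) (Nat.le_add_left _ _)
      · exact (mem_product.1 (mem_filter.1 hp).1).1
      · have := (mem_filter.1 hp).2.trans (mem_filter.1 hq).2.symm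
        rw [show p.1 = q.1 from e] at this
        exact Prod.ext e (add_left_cancel this)
    · rw [if_neg hg]
      exact h.r2_pair hg
  have h4 : T.card ≤ S.card := card_image_le
  have h5 : ∑ g ∈ T, (if g = 0 then S.card else 0) ≤ S.card := by
    rw [sum_ite_eq']
    split_ifs <;> omega
  have h6 := sum_le_sum h3
  rw [sum_add_distrib, sum_const, smul_eq_mul] at h6
  omega

theorem five_le (h : Sid S) {c : ℤ} (hc : 3 * c = S.card + 2) (hq : ∀ g : G, (2 * c - 1) • g = 0)
    {v s : G} (hv : v ∈ PP S) (hs : s ∈ S) (h1 : s ≠ v) (h2 : v + s ≠ 0) (hg : v + s ∈ Gen S) :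
    5 ≤ (XS S (v + s)).card + 2 * (MS S (v + s)).card := by
  obtain ⟨c', e1, e2⟩ := h.star hg
  rw [PP, mem_filter] at hv
  have hq' : c • (v + s) + c • (v + s) = v + s := by
    have := hq (v + s)
    rw [sub_smul, one_smul, two_mul, add_smul, sub_eq_zero] at this
    exact this
  by_contra hlt
  have hW : ((XS S (v + s)).card = 2 ∧ (MS S (v + s)).card = 0) ∨
      ((XS S (v + s)).card = 0 ∧ (MS S (v + s)).card = 1) := by omega
  rcases hW with ⟨hx, hy⟩ | ⟨hx, hy⟩
  · have hcc : c' = c := by omega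
    obtain ⟨t1, t2, hne, ht⟩ := card_eq_two.1 hx
    have m1 : t1 ∈ XS S (v + s) := by rw [ht]; simp
    have m2 : t2 ∈ XS S (v + s) := by rw [ht]; simp
    rw [hcc, ht, card_eq_zero.1 hy, sum_pair hne, sum_empty, sub_zero] at e2
    rw [e2] at hq'
    rw [mem_XS] at m1 m2
    have a1 : v + s - (t1 + t1) = t2 + t2 := by rw [← hq']; abel
    have a2 : v + s - (t2 + t2) = t1 + t1 := by rw [← hq']; abel
    rcases h.uniq v hv.1 s hs (t1 + t1) (a2 ▸ m2.2) (t2 + t2) (a1 ▸ m1.2)
      (by rw [← hq']; abel) h2 with e | e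
    · exact hv.2 t1 m1.1 e.symm
    · exact hv.2 t2 m2.1 e.symm
  · have hcc : c' = c - 1 := by omega
    obtain ⟨u, hu⟩ := card_eq_one.1 hy
    have m1 : u ∈ MS S (v + s) := by rw [hu]; simp
    rw [hcc, hu, card_eq_zero.1 hx, sum_singleton, sum_empty, sub_smul, one_smul, zero_sub,
      sub_eq_iff_eq_add] at e2
    rw [e2] at hq'
    have a1 : v + s = u + u := by
      have : v + s = (v + s) + ((v + s) - (u + u)) := by
        nth_rewrite 1 [← hq']; abel
      exact sub_eq_zero.1 (left_eq_add.1 this)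
    have hu' := (mem_MS.1 m1).1
    rcases h.uniq' hv.1 hs hu' hu' a1 h2 with e | e
    · exact h1 (e.2.trans e.1.symm)
    · exact h1 (e.2.trans e.1.symm)

theorem sumX (h : Sid S) {v : G} (hv : v ∈ PP S) :
    ∑ s ∈ S.filter (fun s => v + s ≠ 0), (XS S (v + s)).card ≤ S.card + (QQ S).card := by
  rw [PP, mem_filter] at hv
  simp only [XS, card_filter]
  rw [sum_comm, QQ, card_filter, card_eq_sum_ones S, ← sum_add_distrib]
  refine sum_le_sum fun t ht => ?_
  rw [← card_filter]
  by_cases h2 : t + t ∈ S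
  · rw [if_neg (not_not.2 h2)]
    refine le_trans (card_le_card (t := {t + t}) fun s hs => ?_) (by simp)
    simp only [mem_filter] at hs
    rcases h.uniq' hv.1 hs.1.1 h2 hs.2 (by abel) hs.1.2 with e | e
    · exact (hv.2 t ht e.1.symm).elim
    · exact mem_singleton.2 e.2
  · rw [if_pos h2]
    refine le_trans (card_le_card fun s hs => ?_) (h.r2' (g := v - (t + t)) fun e => ?_)
    · simp only [mem_filter] at hs ⊢
      exact ⟨hs.1.1, by rw [show v - (t + t) + s = v + s - (t + t) by abel]; exact hs.2⟩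
    · exact hv.2 t ht (sub_eq_zero.1 e).symm

theorem sumY (h : Sid S) {v : G} (hv : v ∈ S) :
    ∑ s ∈ S.filter (fun s => v + s ≠ 0), (MS S (v + s)).card + (S ∩ DD S).card ≤
      (if v ∈ DD S then S.card else 0) + 2 * (DD S).card := by
  have e0 : S ∩ DD S = (DD S).filter fun d => d ∈ S := by
    ext d
    simp only [mem_inter, mem_filter, and_comm]
  have e1 : (if v ∈ DD S then S.card else 0) = ∑ d ∈ DD S, if d = v then S.card else 0 := by
    rw [sum_ite_eq']
  simp only [MS_hit, hit, card_filter, id]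
  rw [sum_comm, e0, card_filter, ← sum_add_distrib, e1, mul_comm, ← smul_eq_mul, ← sum_const,
    ← sum_add_distrib]
  refine sum_le_sum fun d _ => ?_
  rw [← card_filter]
  by_cases h1 : d = v
  · rw [if_pos h1]
    have : ((S.filter fun s => v + s ≠ 0).filter fun s => v + s - d ∈ S).card ≤ S.card :=
      card_le_card ((filter_subset _ _).trans (filter_subset _ _))
    split_ifs <;> omega
  · rw [if_neg h1, zero_add]
    by_cases h2 : d ∈ S
    · rw [if_pos h2]
      refine Nat.succ_le_succ (le_trans (card_le_card (t := {d}) fun s hs => ?_) (by simp))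
      simp only [mem_filter] at hs
      rcases h.uniq' hv hs.1.1 h2 hs.2 (by abel) hs.1.2 with e | e
      · exact (h1 e.1.symm).elim
      · exact mem_singleton.2 e.2
    · rw [if_neg h2, add_zero]
      refine le_trans (card_le_card fun s hs => ?_) (h.r2' (g := v - d) fun e => ?_)
      · simp only [mem_filter] at hs ⊢
        exact ⟨hs.1.1, by rw [show v - d + s = v + s - d by abel]; exact hs.2⟩
      · exact h1 (sub_eq_zero.1 e).symm

end ONEaa

open ONEaa in
theorem rowONEa : RowONEa := by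
  intro G _ _ _ S h
  refine ⟨card_PP h, sum_exc h, fun c hc hq v hv => ?_⟩
  have hvS : v ∈ S := (mem_filter.1 hv).1
  let A : Finset G := S.filter fun s => s ≠ v ∧ v + s ≠ 0 ∧ v + s ∈ Gen S
  have h1 : S ⊆ A ∪ ({v, -v} ∪ ((S.filter fun s => v + s ∈ S) ∪
      S.filter fun s => ∃ t ∈ S, t + t + t = v + s)) := fun s hs => by
    simp only [A, mem_union, mem_filter, mem_insert, mem_singleton, mem_Gen]
    by_contra hn
    push Not at hn
    obtain ⟨a1, ⟨a2, a3⟩, a4, a5⟩ := hn
    obtain ⟨t, ht, e⟩ := a1 hs a2 (fun e => a3 (eq_neg_of_add_eq_zero_right e)) (a4 hs)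
    exact a5 hs t ht e
  have h2 : S.card ≤ A.card + (2 + (2 + exc S v)) := by
    refine (card_le_card h1).trans ((card_union_le _ _).trans (Nat.add_le_add_left
      ((card_union_le _ _).trans (Nat.add_le_add card_le_two ((card_union_le _ _).trans
        (Nat.add_le_add_right (h.r2' fun e => h.zero_notMem (e ▸ hvS)) _)))) _))
  have h3 : A.card * 5 ≤ ∑ s ∈ S.filter (fun s => v + s ≠ 0),
      ((XS S (v + s)).card + 2 * (MS S (v + s)).card) := by
    refine le_trans ?_ (sum_le_sum_of_subset (s := A) fun s hs => ?_)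
    · rw [← smul_eq_mul]
      refine card_nsmul_le_sum _ _ _ fun s hs => ?_
      rw [mem_filter] at hs
      exact five_le h hc hq hv hs.1 hs.2.1 hs.2.2.1 hs.2.2.2
    · rw [mem_filter] at hs ⊢
      exact ⟨hs.1, hs.2.2.1⟩
  rw [sum_add_distrib, ← mul_sum] at h3
  have h4 := sumX h hv
  have h5 := sumY h hvS
  split_ifs at h5 ⊢ <;> omega

end Pool.Agent.MP_c5d52e_co.H55
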