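import Pool.Agent.MP_c5d52e_co.H55.Spec

/-! Row ONEc. -/

open Finset

set_option linter.unusedSectionVars false

namespace Pool.Agent.MP_c5d52e_co.H55

namespace ONEca

variable {G : Type} [AddCommGroup G] [Fintype G] [DecidableEq G] {S : Finset G}

theorem mem_PP {v : G} : v ∈ PP S ↔ v ∈ S ∧ ∀ t ∈ S, t + t ≠ v := mem_filter

theorem mem_QQ {t : G} : t ∈ QQ S ↔ t ∈ S ∧ t + t ∉ S := mem_filter

theorem sum_S (h : Sid S) (P : Finset G) (f : G → G) (hf : ∀ x ∈ P, f x ≠ 0) :
    ∑ g ∈ S, hit S P f g ≤ 2 * P.card := by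
  simp only [hit, card_filter]
  rw [sum_comm]
  simp only [← card_filter]
  rw [mul_comm, ← smul_eq_mul]
  refine sum_le_card_nsmul _ _ _ fun x hx => ?_
  simpa only [neg_add_eq_sub] using h.r2' (neg_ne_zero.2 (hf x hx))

theorem xp (h : Sid S) {g : G} (hD : g ∉ DD S) (hd : ∀ t ∈ S, t + t ≠ g) :
    (XS S g).card + hit S (PP S) id g = 2 + hit S (QQ S) (fun t => t + t) g := by
  obtain ⟨h0, a, ha, b, hb, e⟩ := exists_of_notMem_DD hD
  have hab : a ≠ b := fun hab => hd a ha (by rw [e, hab])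
  have h1 : (S.filter fun v => g - v ∈ S) = {a, b} := by
    ext v
    simp only [mem_filter, mem_insert, mem_singleton]
    refine ⟨fun hv => h.uniq v hv.1 _ hv.2 a ha b hb (by rw [← e]; abel) (by simpa using h0), ?_⟩
    rintro (rfl | rfl)
    · exact ⟨ha, by rw [e]; simpa using hb⟩
    · exact ⟨hb, by rw [e]; simpa using ha⟩
  have h2 := card_filter_add_card_filter_not (s := S.filter fun v => g - v ∈ S)
    (fun v => ∀ t ∈ S, t + t ≠ v)
  have h3 := card_filter_add_card_filter_not (s := XS S g) (fun t => t + t ∉ S)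
  have h4 : ((S.filter fun v => g - v ∈ S).filter fun v => ∀ t ∈ S, t + t ≠ v).card =
      hit S (PP S) id g := by
    rw [hit, PP, filter_comm]; rfl
  have h5 : ((XS S g).filter fun t => t + t ∉ S).card = hit S (QQ S) (fun t => t + t) g := by
    rw [hit, QQ, XS, filter_comm]
  have h6 : ((XS S g).filter fun t => ¬ t + t ∉ S).card =
      ((S.filter fun v => g - v ∈ S).filter fun v => ¬ ∀ t ∈ S, t + t ≠ v).card := by
    refine card_bij (fun t _ => t + t) (fun t ht => ?_) (fun t ht u hu e => ?_) fun v hv => ?_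
    · rw [mem_filter, mem_XS, not_not] at ht
      exact mem_filter.2 ⟨mem_filter.2 ⟨ht.2, ht.1.2⟩, fun hh => hh t ht.1.1 rfl⟩
    · exact h.two_inj (mem_XS.1 (mem_filter.1 ht).1).1 (mem_XS.1 (mem_filter.1 hu).1).1 e
    · rw [mem_filter, mem_filter] at hv
      obtain ⟨⟨h7, h8⟩, h9⟩ := hv
      push Not at h9
      obtain ⟨t, ht, rfl⟩ := h9
      exact ⟨t, mem_filter.2 ⟨mem_XS.2 ⟨ht, h8⟩, not_not.2 h7⟩, rfl⟩
  have h7 : (S.filter fun v => g - v ∈ S).card = 2 := by rw [h1, card_pair hab]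
  omega

theorem yy {g : G} (hg : g ∉ S) :
    (MS S g).card = hit S ((DD S).erase 0) id g := by
  rw [MS_hit, hit, hit]
  congr 1
  ext d
  simp only [mem_filter, mem_erase, id]
  refine ⟨fun hd => ⟨⟨fun h0 => hg ?_, hd.1⟩, hd.2⟩, fun hd => ⟨hd.1.2, hd.2⟩⟩
  simpa [h0] using hd.2

theorem loc (h : Sid S) {c : ℤ} (hc : 3 * c = S.card + 2) (h2 : ∀ g : G, (2 * c - 1) • g = 0)
    {g : G} (hg : g ∈ Gen S) (hD : g ∉ DD S) (hd : ∀ t ∈ S, t + t ≠ g) {w : ℕ}
    (hw : w = hit S (PP S) id g + hit S (QQ S) (fun t => t + t) g +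
      hit S ((DD S).erase 0) id g) : 3 * w ≤ w * w := by
  have a1 := xp h hD hd
  have a2 := yy (mem_Gen.1 hg).1
  obtain ⟨c', a3, a4⟩ := h.star hg
  have a5 : c • g + c • g = g := by
    have := h2 g
    rwa [sub_smul, one_smul, sub_eq_zero, two_mul, add_smul] at this
  have key : ¬ (hit S (QQ S) (fun t => t + t) g = 1 ∧ c' = c ∧
      (((XS S g).card = 2 ∧ (MS S g).card = 0) ∨ ((XS S g).card = 3 ∧ (MS S g).card = 1))) := by
    rintro ⟨b1, rfl, b2⟩
    obtain ⟨t, ht⟩ := card_eq_one.1 b1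
    have t1 := mem_filter.1 (ht.ge (mem_singleton_self t))
    have t2 := mem_QQ.1 t1.1
    have t3 : t ∈ XS S g := mem_XS.2 ⟨t2.1, t1.2⟩
    have t4 : ∀ s ∈ (XS S g).erase t, s ∈ S ∧ g - (s + s) ∈ S ∧ s + s ∈ S := fun s hs => by
      rw [mem_erase, mem_XS] at hs
      refine ⟨hs.2.1, hs.2.2, by_contra fun hn => hs.1 ?_⟩
      exact mem_singleton.1 (ht.le (mem_filter.2 ⟨mem_QQ.2 ⟨hs.2.1, hn⟩, hs.2.2⟩))
    have t5 := card_erase_of_mem t3
    rw [← add_sum_erase _ _ t3] at a4
    rcases b2 with ⟨b2, b3⟩ | ⟨b2, b3⟩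
    · rw [b2] at t5
      obtain ⟨s, hs⟩ := card_eq_one.1 t5
      rw [hs, card_eq_zero.1 b3, sum_singleton, sum_empty] at a4
      have := (t4 s (hs.ge (mem_singleton_self s))).2.1
      rw [← a5, a4, show t + s - 0 + (t + s - 0) - (s + s) = t + t by abel] at this
      exact t2.2 this
    · rw [b2] at t5
      obtain ⟨s, r, hsr, hs⟩ := card_eq_two.1 t5
      obtain ⟨u, hu⟩ := card_eq_one.1 b3
      rw [hs, hu, sum_pair hsr, sum_singleton] at a4
      have s1 := t4 s (hs.ge (by simp))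
      have r1 := t4 r (hs.ge (by simp))
      have u1 : u ∈ MS S g := hu.ge (mem_singleton_self u)
      have g0 : g ≠ 0 := fun h0 => hD (h0 ▸ zero_mem_DD S)
      rcases h.uniq _ s1.2.2 _ s1.2.1 _ r1.2.2 _ r1.2.1 (by abel) (by simpa using g0) with e | e
      · exact hsr (h.two_inj s1.1 r1.1 e)
      · have e2 : t + t = u + u := by
          rw [← a5, a4] at e
          rw [← sub_eq_zero] at e ⊢
          rw [← neg_eq_zero, ← e]
          abel
        exact (h.XS_facts hg t3).1 (h.two_inj t2.1 (mem_MS.1 u1).1 e2 ▸ u1)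
  have : w = 0 ∨ 3 ≤ w := by
    by_contra hn
    obtain ⟨e, rfl⟩ : ∃ e, c' = c + e := ⟨c' - c, by ring⟩
    generalize hit S (QQ S) (fun t => t + t) g = q at *
    have : q = 0 ∨ q = 1 ∨ q = 2 := by omega
    rcases this with rfl | rfl | rfl <;> omega
  rcases this with rfl | h3
  · simp
  · exact Nat.mul_le_mul_right _ h3

end ONEca

open ONEca in
theorem rowONEc : RowONEc := by
  intro G _ _ _ S h c hc h2 F hF
  set D := (DD S).erase 0 with hD
  have d1 : D.card + 1 = (DD S).card := card_erase_add_one (zero_mem_DD S)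
  have hF' : F = (PP S).card + (QQ S).card + D.card := by omega
  set p := hit S (PP S) id with hp
  set q := hit S (QQ S) (fun t => t + t) with hq
  set y := hit S D id with hy
  have s1 : ∑ g : G, (p g + q g + y g) = F * S.card := by
    rw [sum_add_distrib, sum_add_distrib, sum_hit, sum_hit, sum_hit, hF']; ring
  have m1 := sum_hit_mul h (PP S) (PP S) id id
  have m2 := sum_hit_mul h (QQ S) (QQ S) (fun t => t + t) (fun t => t + t)
  have m3 := sum_hit_mul h D D id id
  have m4 := sum_hit_mul h (PP S) (QQ S) id (fun t => t + t)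
  have m5 := sum_hit_mul h (PP S) D id id
  have m6 := sum_hit_mul h (QQ S) D (fun t => t + t) id
  rw [diag_card _ id fun a _ b _ e => e] at m1 m3
  rw [diag_card _ (fun t => t + t) fun a ha b hb e =>
    h.two_inj (mem_QQ.1 ha).1 (mem_QQ.1 hb).1 e] at m2
  have e4 : ((PP S ×ˢ QQ S).filter fun x => id x.1 = x.2 + x.2) = ∅ :=
    filter_eq_empty_iff.2 fun x hx e => (mem_PP.1 (mem_product.1 hx).1).2 _
      (mem_QQ.1 (mem_product.1 hx).2).1 e.symm
  have e6 : ((QQ S ×ˢ D).filter fun x => x.1 + x.1 = id x.2) = ∅ :=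
    filter_eq_empty_iff.2 fun x hx e => by
      have := (mem_QQ.1 (mem_product.1 hx).1).1
      exact add_notMem_DD this this (h.nz _ this)
        (by rw [e]; exact mem_of_mem_erase (mem_product.1 hx).2)
  have e5 : ((PP S ×ˢ D).filter fun x => id x.1 = id x.2).card ≤ (PP S ∩ DD S).card := by
    refine card_le_card_of_injOn Prod.fst (fun x hx => ?_) fun x hx z hz e => ?_
    · simp only [coe_filter, mem_product, Set.mem_ofPred_eq, id] at hx
      exact mem_coe.2 (mem_inter.2 ⟨hx.1.1, hx.2 ▸ mem_of_mem_erase hx.1.2⟩)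
    · simp only [coe_filter, mem_product, Set.mem_ofPred_eq, id] at hx hz
      exact Prod.ext e (hx.2.symm.trans (e.trans hz.2))
  rw [e4] at m4
  rw [e6] at m6
  have m5' := m5.trans (Nat.add_le_add_right (Nat.mul_le_mul_right _ e5) _)
  rw [card_empty, zero_mul, zero_add] at m4 m6
  simp only [← hp, ← hq, ← hy] at m1 m2 m3 m4 m5' m6
  clear m5
  have s2 : ∑ g : G, (p g + q g + y g) * (p g + q g + y g) = ∑ g, p g * p g + ∑ g, q g * q g +
      ∑ g, y g * y g + 2 * ∑ g, p g * q g + 2 * ∑ g, p g * y g + 2 * ∑ g, q g * y g := by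
    simp only [mul_sum, ← sum_add_distrib]
    exact sum_congr rfl fun g _ => by ring
  have s3 : ∑ g ∈ S, (p g + q g + y g) ≤ 2 * F := by
    have b1 := sum_S h (PP S) id fun x hx h0 => h.zero_notMem (h0 ▸ (mem_PP.1 hx).1)
    have b2 := sum_S h (QQ S) (fun t => t + t) fun x hx => h.nz x (mem_QQ.1 hx).1
    have b3 := sum_S h D id fun x hx => ne_of_mem_erase hx
    rw [← hp] at b1
    rw [← hq] at b2
    rw [← hy] at b3
    rw [sum_add_distrib, sum_add_distrib, hF', mul_add, mul_add]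
    exact add_le_add (add_le_add b1 b2) b3
  set B := (S.image fun t => t + t + t) ∪ DD S ∪ (QQ S).image fun t => t + t with hB
  have cB : B.card ≤ S.card + (DD S).card + (QQ S).card :=
    (card_union_le _ _).trans (add_le_add ((card_union_le _ _).trans
      (add_le_add card_image_le le_rfl)) card_image_le)
  have pw : ∀ g : G, 3 * (p g + q g + y g) ≤ (p g + q g + y g) * (p g + q g + y g) +
      2 * (if g ∈ S then p g + q g + y g else 0) + 2 * (if g ∈ B then 1 else 0) := by
    intro g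
    by_cases g1 : g ∈ S
    · rw [if_pos g1]
      have := Nat.le_mul_self (p g + q g + y g)
      omega
    by_cases g2 : g ∈ B
    · rw [if_pos g2]
      generalize p g + q g + y g = w
      have : 3 * w ≤ w * w + 2 := by
        rcases w with _ | _ | w
        · simp
        · simp
        · nlinarith
      omega
    · simp only [hB, mem_union, mem_image, not_or, not_exists, not_and] at g2
      have := loc h hc h2 (mem_Gen.2 ⟨g1, g2.1.1⟩) g2.1.2
        (fun t ht e => g2.2 t (mem_QQ.2 ⟨ht, e ▸ g1⟩) e) (w := p g + q g + y g) rfl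
      omega
  have s4 := sum_le_sum fun g (_ : g ∈ univ) => pw g
  rw [sum_add_distrib, sum_add_distrib, ← mul_sum, ← mul_sum, ← mul_sum, s1, s2, sum_ite_mem,
    sum_ite_mem, univ_inter, univ_inter, ← card_eq_sum_ones] at s4
  subst hF'
  nlinarith

end Pool.Agent.MP_c5d52e_co.H55
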