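import Pool.Agent.MP_c5d52e_co.H55.Spec

/-! The perfect case closed under doubling: a character sum argument. -/

open Finset

namespace Pool.Agent.MP_c5d52e_co.H55

namespace PERFa

variable {G : Type} [AddCommGroup G] [Fintype G] [DecidableEq G]

/-- The representation function in the perfect, doubling-closed case. -/
theorem rep {S : Finset G} (h : Sid S) (hD : (DD S).card = 1) (h2 : ∀ t ∈ S, t + t ∈ S)
    (g : G) : (S.filter fun s => g - s ∈ S).card + (if g ∈ S then 1 else 0) +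
      (if g = 0 then 2 else 0) = 2 + (if g = 0 then S.card else 0) := by
  have hDD : ∀ x, x ∈ DD S → x = 0 := by
    obtain ⟨a, ha⟩ := card_eq_one.1 hD
    intro x hx
    have h0 := zero_mem_DD S
    rw [ha, mem_singleton] at hx h0
    rw [hx, ← h0]
  have him : S.image (fun t => t + t) = S := by
    refine eq_of_subset_of_card_le (fun x hx => ?_) (le_of_eq ?_)
    · obtain ⟨t, ht, rfl⟩ := mem_image.1 hx
      exact h2 t ht
    · exact (card_image_of_injOn fun a ha b hb e => h.two_inj ha hb e).symm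
  by_cases h0 : g = 0
  · subst h0
    have e1 : (S.filter fun s => 0 - s ∈ S) = S :=
      filter_true_of_mem fun s hs => by simpa using h.neg s hs
    rw [e1, if_neg h.zero_notMem, if_pos rfl, if_pos rfl]
    omega
  · rw [if_neg h0, if_neg h0]
    have hD' : g ∉ DD S := fun hx => h0 (hDD g hx)
    obtain ⟨-, a, ha, b, hb, rfl⟩ := exists_of_notMem_DD hD'
    have e1 : (S.filter fun s => a + b - s ∈ S) = {a, b} := by
      ext s
      simp only [mem_filter, mem_insert, mem_singleton]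
      constructor
      · rintro ⟨h1, h2⟩
        exact h.uniq s h1 _ h2 a ha b hb (by abel) (by simpa using h0)
      · rintro (rfl | rfl)
        · exact ⟨ha, by simpa using hb⟩
        · exact ⟨hb, by simpa using ha⟩
    rw [e1]
    by_cases hab : a = b
    · subst hab
      rw [if_pos (h2 a ha)]; simp
    · have e2 : a + b ∉ S := fun hm => by
        rw [← him] at hm
        obtain ⟨t, ht, e⟩ := mem_image.1 hm
        rcases h.uniq' ha hb ht ht e.symm h0 with ⟨h1, h2⟩ | ⟨h1, h2⟩ <;>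
          exact hab (h1.trans h2.symm)
      rw [if_neg e2, card_pair hab]

omit [DecidableEq G] in
theorem sq_sum [DecidableEq G] (S : Finset G) (ψ : AddChar G ℂ) :
    (∑ s ∈ S, ψ s) ^ 2 = ∑ g : G, ((S.filter fun s => g - s ∈ S).card : ℂ) * ψ g := by
  have e1 : ∀ g : G, ((S.filter fun s => g - s ∈ S).card : ℂ) * ψ g =
      ∑ s ∈ S, if g - s ∈ S then ψ g else 0 := by
    intro g
    rw [← sum_filter, sum_const, nsmul_eq_mul]
  simp only [e1]
  rw [sum_comm, sq, sum_mul_sum]
  refine sum_congr rfl fun a _ => ?_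
  rw [← sum_filter]
  refine sum_bij (fun b _ => a + b) (fun b hb => by simpa using hb)
    (fun b _ b' _ e => add_left_cancel e)
    (fun g hg => ⟨g - a, by simpa using hg, by simp⟩) (fun b _ => ?_)
  rw [AddChar.map_add_eq_mul]

theorem quad {S : Finset G} (h : Sid S) (hD : (DD S).card = 1) (h2 : ∀ t ∈ S, t + t ∈ S)
    (ψ : AddChar G ℂ) (hψ : ψ ≠ 0) :
    (2 * (∑ s ∈ S, ψ s) + 1) ^ 2 = 4 * (S.card : ℂ) - 7 := by
  have e0 : ∑ g : G, ψ g = 0 := AddChar.sum_eq_zero_iff_ne_zero.2 hψ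
  have e1 : ∀ g : G, ((S.filter fun s => g - s ∈ S).card : ℂ) * ψ g =
      2 * ψ g - (if g ∈ S then ψ g else 0) + (if g = 0 then (S.card : ℂ) - 2 else 0) := by
    intro g
    have h3 := rep h hD h2 g
    by_cases hg : g = 0
    · subst hg
      rw [if_neg h.zero_notMem, if_pos rfl, if_pos rfl] at h3
      have h4 : (S.filter fun s => 0 - s ∈ S).card = S.card := by omega
      rw [h4, if_neg h.zero_notMem, if_pos rfl, AddChar.map_zero_eq_one]
      ring
    · rw [if_neg hg, if_neg hg] at h3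
      rw [if_neg hg]
      by_cases hS : g ∈ S
      · rw [if_pos hS] at h3
        have h4 : (S.filter fun s => g - s ∈ S).card = 1 := by omega
        rw [h4, if_pos hS]; push_cast; ring
      · rw [if_neg hS] at h3
        have h4 : (S.filter fun s => g - s ∈ S).card = 2 := by omega
        rw [h4, if_neg hS]; push_cast; ring
  have e2 := sq_sum S ψ
  simp only [e1] at e2
  rw [sum_add_distrib, sum_sub_distrib, ← mul_sum, e0, sum_ite_mem, univ_inter, sum_ite_eq',
    if_pos (mem_univ _)] at e2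
  linear_combination 4 * e2

theorem tot {S : Finset G} (h : Sid S) :
    ∑ ψ ∈ (univ : Finset (AddChar G ℂ)).erase 0, (2 * (∑ s ∈ S, ψ s) + 1) =
      (Fintype.card G : ℂ) - 1 - 2 * S.card := by
  have e1 : ∑ ψ : AddChar G ℂ, ∑ s ∈ S, ψ s = 0 := by
    rw [sum_comm]
    refine sum_eq_zero fun s hs => ?_
    rw [AddChar.sum_apply_eq_ite, if_neg]
    rintro rfl
    exact h.zero_notMem hs
  have e2 := add_sum_erase (univ : Finset (AddChar G ℂ))
    (fun ψ => 2 * (∑ s ∈ S, ψ s) + 1) (mem_univ 0)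
  rw [sum_add_distrib (s := univ), ← mul_sum, e1, sum_const, card_univ, AddChar.card_eq] at e2
  simp only [AddChar.zero_apply, sum_const, nsmul_eq_mul, mul_one] at e2
  linear_combination e2

theorem arith (k n e : ℤ) (hk : 2 ≤ k) (h1 : 2 * n = k ^ 2 + 2)
    (h2 : (4 * k - 7) * e ^ 2 = (n - 1 - 2 * k) ^ 2) : k ≤ 994 := by
  have h3 : (4 * k - 7) ∣ 3969 := by
    refine ⟨1024 * e ^ 2 - ((4 * k - 7) ^ 3 - 4 * (4 * k - 7) ^ 2 - 122 * (4 * k - 7) + 252), ?_⟩
    have hn : 2 * (n - 1 - 2 * k) = k ^ 2 - 4 * k := by linarith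
    have h4 : 4 * ((4 * k - 7) * e ^ 2) = (k ^ 2 - 4 * k) ^ 2 := by
      rw [h2, ← hn]; ring
    linear_combination (-256) * h4
  have h5 := Int.le_of_dvd (by norm_num) h3
  omega

end PERFa

theorem rowPERF : RowPERF := by
  intro G _ _ _ S h hD h2
  classical
  by_cases hk : S.card < 2
  · omega
  have hR : (0 : ℝ) ≤ 4 * (S.card : ℝ) - 7 := by
    have : (2 : ℝ) ≤ S.card := by exact_mod_cast not_lt.1 hk
    linarith
  set ρ : ℂ := (Real.sqrt (4 * (S.card : ℝ) - 7) : ℂ) with hρ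
  have hρ2 : ρ ^ 2 = 4 * (S.card : ℂ) - 7 := by
    rw [hρ, ← Complex.ofReal_pow, Real.sq_sqrt hR]; push_cast; ring
  have e1 : ∀ ψ : AddChar G ℂ, ∃ e : ℤ, ψ ≠ 0 → 2 * (∑ s ∈ S, ψ s) + 1 = ρ * e := by
    intro ψ
    by_cases hψ : ψ = 0
    · exact ⟨0, fun hh => absurd hψ hh⟩
    · have h3 := PERFa.quad h hD h2 ψ hψ
      rw [← hρ2] at h3
      rcases sq_eq_sq_iff_eq_or_eq_neg.1 h3 with h4 | h4
      · exact ⟨1, fun _ => by rw [h4]; simp⟩
      · exact ⟨-1, fun _ => by rw [h4]; simp⟩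
  choose e he using e1
  have e2 := PERFa.tot h
  rw [sum_congr rfl fun ψ hψ => he ψ (ne_of_mem_erase hψ), ← mul_sum, ← Int.cast_sum] at e2
  set E : ℤ := ∑ ψ ∈ (univ : Finset (AddChar G ℂ)).erase 0, e ψ
  have e3 : (4 * (S.card : ℂ) - 7) * (E : ℂ) ^ 2 =
      ((Fintype.card G : ℂ) - 1 - 2 * S.card) ^ 2 := by
    rw [← e2, ← hρ2]; ring
  have e4 : (4 * (S.card : ℤ) - 7) * E ^ 2 = ((Fintype.card G : ℤ) - 1 - 2 * S.card) ^ 2 := by
    exact_mod_cast e3
  have e5 : 2 * (Fintype.card G : ℤ) = (S.card : ℤ) ^ 2 + 2 := by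
    have := h.card_eq
    rw [hD] at this
    exact_mod_cast this
  have := PERFa.arith S.card (Fintype.card G) E (by exact_mod_cast not_lt.1 hk) e5 e4
  omega

end Pool.Agent.MP_c5d52e_co.H55
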