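import Pool.Agent.MP_c5d52e_co.H55.Spec

/-! Exponent three: the local facts. -/

open Finset

set_option linter.unusedSectionVars false

namespace Pool.Agent.MP_c5d52e_co.H55

namespace T1a

variable {G : Type} [AddCommGroup G] [Fintype G] [DecidableEq G]

theorem dbl (h3 : ∀ g : G, g + g + g = 0) (g : G) : g + g = -g :=
  eq_neg_of_add_eq_zero_left (h3 g)

theorem cases3 (h3 : ∀ g : G, g + g + g = 0) (c : ℤ) (g : G) :
    (c % 3 = 0 ∧ c • g = 0) ∨ (c % 3 = 1 ∧ c • g = g) ∨ (c % 3 = 2 ∧ c • g = -g) := by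
  have h0 : (3 : ℤ) • g = 0 := by rw [← h3 g]; abel
  have h1 : c • g = (c % 3) • g := by
    conv_lhs => rw [← Int.mul_ediv_add_emod c 3]
    rw [add_smul, mul_comm, mul_smul, h0, smul_zero, zero_add]
  have h2 : c % 3 = 0 ∨ c % 3 = 1 ∨ c % 3 = 2 := by omega
  rcases h2 with h | h | h
  · exact Or.inl ⟨h, by rw [h1, h, zero_smul]⟩
  · exact Or.inr (Or.inl ⟨h, by rw [h1, h, one_smul]⟩)
  · exact Or.inr (Or.inr ⟨h, by rw [h1, h, two_smul, dbl h3]⟩)

theorem notDD {S : Finset G} (h : Sid S) (h3 : ∀ g : G, g + g + g = 0) {s : G} (hs : s ∈ S) :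
    s ∉ DD S := by
  have e : -s + -s = s := by rw [dbl h3, neg_neg]
  have := add_notMem_DD (h.neg s hs) (h.neg s hs) (h.nz _ (h.neg s hs))
  rwa [e] at this

theorem mem_XS3 {S : Finset G} (h3 : ∀ g : G, g + g + g = 0) {g t : G} :
    t ∈ XS S g ↔ t ∈ S ∧ g + t ∈ S := by
  rw [mem_XS, dbl h3, sub_neg_eq_add]

theorem hit_eq {S : Finset G} {g : G} (hg : g ∉ S) :
    hit S ((DD S).erase 0) id g = (MS S g).card := by
  rw [MS_hit]
  unfold hit
  congr 1
  ext d
  simp only [mem_filter, mem_erase, id]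
  constructor
  · rintro ⟨⟨-, h1⟩, h2⟩
    exact ⟨h1, h2⟩
  · rintro ⟨h1, h2⟩
    refine ⟨⟨fun e => hg ?_, h1⟩, h2⟩
    rwa [e, sub_zero] at h2

theorem third {M : Finset G} (hM : M.card = 3) {u v : G} (hu : u ∈ M) (hv : v ∈ M) (huv : u ≠ v) :
    ∃ w ∈ M, w ≠ u ∧ w ≠ v ∧ ∑ x ∈ M, x = u + v + w := by
  have hv' : v ∈ M.erase u := mem_erase.2 ⟨huv.symm, hv⟩
  have h1 : ((M.erase u).erase v).card = 1 := by
    rw [card_erase_of_mem hv', card_erase_of_mem hu, hM]
  obtain ⟨w, hw⟩ := card_eq_one.1 h1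
  have hw' : w ∈ (M.erase u).erase v := by rw [hw]; exact mem_singleton_self w
  rw [mem_erase, mem_erase] at hw'
  refine ⟨w, hw'.2.2, hw'.2.1, hw'.1, ?_⟩
  rw [← add_sum_erase M _ hu, ← add_sum_erase _ _ hv', hw, sum_singleton, add_assoc]

theorem part1 {S : Finset G} (h : Sid S) (h3 : ∀ g : G, g + g + g = 0) :
    2 * (Gen S \ DD S).card + 2 * S.card = S.card ^ 2 := by
  have e : Gen S \ DD S = univ \ (S ∪ DD S) := by
    ext g
    simp only [mem_sdiff, mem_Gen, mem_univ, true_and, mem_union, not_or]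
    constructor
    · rintro ⟨⟨h1, -⟩, h2⟩
      exact ⟨h1, h2⟩
    · rintro ⟨h1, h2⟩
      refine ⟨⟨h1, fun t _ e => h2 ?_⟩, h2⟩
      rw [← e, h3]
      exact zero_mem_DD S
  have hd : Disjoint S (DD S) := disjoint_left.2 fun s hs => notDD h h3 hs
  have h1 := card_sdiff_add_card_eq_card (subset_univ (S ∪ DD S))
  rw [card_union_of_disjoint hd, card_univ] at h1
  have h2 := h.card_eq
  rw [e]
  omega

theorem part2 {S : Finset G} (h : Sid S) (h3 : ∀ g : G, g + g + g = 0) {g : G}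
    (hg : g ∈ (DD S).erase 0) : hit S ((DD S).erase 0) id g % 3 = S.card % 3 := by
  rw [mem_erase] at hg
  have hS : g ∉ S := fun hs => notDD h h3 hs hg.2
  have hG : g ∈ Gen S := mem_Gen.2 ⟨hS, fun t _ e => hg.1 (by rw [← e, h3])⟩
  obtain ⟨c, hc, -⟩ := h.star hG
  have hX : XS S g = ∅ := by
    refine eq_empty_of_forall_notMem fun t ht => ?_
    rw [mem_XS3 h3] at ht
    refine ((mem_DD.1 hg.2).resolve_left hg.1) (-t) (h.neg t ht.1) ?_
    rw [sub_neg_eq_add]
    exact ht.2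
  rw [hX, card_empty] at hc
  rw [hit_eq hS]
  omega

/-- the partition identity for a proper sum -/
theorem key {S : Finset G} (h : Sid S) (h3 : ∀ g : G, g + g + g = 0) {g : G}
    (hg : g ∈ Gen S \ DD S) :
    (∀ u ∈ MS S g, g - u ∉ S ∧ g + u ∉ S) ∧ ∃ c : ℤ, 3 * c + (MS S g).card = S.card + 2 ∧
      ((c % 3 = 0 ∧ ∑ u ∈ MS S g, u = -g) ∨ (c % 3 = 1 ∧ ∑ u ∈ MS S g, u = g) ∨
        (c % 3 = 2 ∧ ∑ u ∈ MS S g, u = 0)) := by
  rw [mem_sdiff] at hg
  have hS : g ∉ S := (mem_Gen.1 hg.1).1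
  obtain ⟨h0, a, ha, b, hb, e⟩ := exists_of_notMem_DD hg.2
  have hab : a ≠ b := by
    rintro rfl
    exact hS (by rw [e, dbl h3]; exact h.neg a ha)
  have hX : XS S g = {-a, -b} := by
    ext t
    rw [mem_XS3 h3, mem_insert, mem_singleton]
    constructor
    · rintro ⟨h1, h2⟩
      have := h.uniq (-t) (h.neg t h1) (g + t) h2 a ha b hb (by rw [← e]; abel)
        (by rw [show -t + (g + t) = g by abel]; exact h0)
      rcases this with h4 | h4
      · left; rw [← h4, neg_neg]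
      · right; rw [← h4, neg_neg]
    · rintro (rfl | rfl)
      · exact ⟨h.neg a ha, by rw [e, show a + b + -a = b by abel]; exact hb⟩
      · exact ⟨h.neg b hb, by rw [e, show a + b + -b = a by abel]; exact ha⟩
  have hne : -a ≠ -b := fun e' => hab (neg_injective e')
  obtain ⟨c, hc, hs⟩ := h.star hg.1
  rw [hX, card_pair hne] at hc
  rw [hX, sum_pair hne, show -a + -b = -g by rw [e]; abel] at hs
  have hs' : ∑ u ∈ MS S g, u = -g - c • g := by rw [hs]; abel
  refine ⟨fun u hu => ⟨fun hh => notDD h h3 hh (mem_MS.1 hu).2, fun hh => ?_⟩, c,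
    by exact_mod_cast hc, ?_⟩
  · exact (h.XS_facts hg.1 ((mem_XS3 h3).2 ⟨(mem_MS.1 hu).1, hh⟩)).1 hu
  · rcases cases3 h3 c g with ⟨h1, h2⟩ | ⟨h1, h2⟩ | ⟨h1, h2⟩
    · exact Or.inl ⟨h1, by rw [hs', h2, sub_zero]⟩
    · refine Or.inr (Or.inl ⟨h1, ?_⟩)
      rw [hs', h2, sub_eq_add_neg, dbl h3, neg_neg]
    · exact Or.inr (Or.inr ⟨h1, by rw [hs', h2, sub_self]⟩)

end T1a

open T1a

theorem rowT1 : RowT1 := by
  intro G _ _ _ S h h3
  refine ⟨part1 h h3, fun g hg => ⟨fun hh => (mem_sdiff.1 hh).2 (mem_erase.1 hg).2,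
    part2 h h3 hg⟩, fun g hg Y hY => ?_⟩
  obtain ⟨hM, c, hc, hs⟩ := key h h3 hg
  rw [mem_sdiff] at hg
  have hS : g ∉ S := (mem_Gen.1 hg.1).1
  have h0 : g ≠ 0 := (exists_of_notMem_DD hg.2).1
  rw [hit_eq hS] at hY
  rw [← hY] at hc
  refine ⟨by omega, fun h1 => ?_, fun h1 => ?_, fun h1 => ?_, fun h1 => ?_⟩
  · obtain ⟨u, hu⟩ := card_eq_one.1 (hY.symm.trans h1)
    have hu' : u ∈ S := (mem_MS.1 (by rw [hu]; exact mem_singleton_self u : u ∈ MS S g)).1
    rw [hu, sum_singleton] at hs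
    rcases hs with ⟨-, e⟩ | ⟨-, e⟩ | ⟨-, e⟩
    · exact hS (h.neg_iff.1 (e ▸ hu'))
    · exact hS (e ▸ hu')
    · exact h.zero_notMem (e ▸ hu')
  · have hE : MS S g = ∅ := card_eq_zero.1 (hY.symm.trans h1)
    rw [hE, sum_empty] at hs
    rcases hs with ⟨-, e⟩ | ⟨-, e⟩ | ⟨e, -⟩
    · exact absurd (neg_eq_zero.1 e.symm) h0
    · exact absurd e.symm h0
    · omega
  · obtain ⟨u, v, huv, hE⟩ := card_eq_two.1 (hY.symm.trans h1)
    have hu : u ∈ MS S g := by rw [hE]; simp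
    have hv : v ∈ MS S g := by rw [hE]; simp
    have hu' := mem_MS.1 hu
    have hv' := mem_MS.1 hv
    rw [hE, sum_pair huv] at hs
    rcases hs with ⟨-, e⟩ | ⟨-, e⟩ | ⟨e, e'⟩
    · refine absurd ?_ (hM u hu).2
      rw [show g + u = -v by rw [← neg_neg g, ← e]; abel]
      exact h.neg v hv'.1
    · refine absurd ?_ (hM u hu).1
      rw [show g - u = v by rw [← e]; abel]
      exact hv'.1
    · have hv0 : v = -u := eq_neg_of_add_eq_zero_right e'
      refine ⟨by omega, g - u, mem_erase.2 ⟨fun e0 => hS ?_, hu'.2⟩, g - v,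
        mem_erase.2 ⟨fun e0 => hS ?_, hv'.2⟩, fun e0 => huv (sub_right_injective e0), ?_, ?_⟩
      · rw [sub_eq_zero.1 e0]; exact hu'.1
      · rw [sub_eq_zero.1 e0]; exact hv'.1
      · rw [hv0, show g - u - (g - -u) = -u + -u by abel, dbl h3, neg_neg]
        exact hu'.1
      · rw [hv0, show g - u + (g - -u) = g + g by abel, dbl h3]
  · have hc3 : (MS S g).card = 3 := hY.symm.trans h1
    have hs' : c % 3 = 0 ∧ ∑ u ∈ MS S g, u = -g := by
      obtain ⟨u, v, w, huv, huw, hvw, hE⟩ := card_eq_three.1 hc3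
      have hu := mem_MS.1 (by rw [hE]; simp : u ∈ MS S g)
      have hv := mem_MS.1 (by rw [hE]; simp : v ∈ MS S g)
      have hw := mem_MS.1 (by rw [hE]; simp : w ∈ MS S g)
      have hsum : ∑ x ∈ MS S g, x = u + (v + w) := by
        rw [hE, sum_insert (by simp [huv, huw]), sum_pair hvw]
      rcases hs with e | ⟨-, e⟩ | ⟨-, e⟩
      · exact e
      · rw [hsum] at e
        have e1 : g - u = v + w := by rw [← e]; abel
        refine absurd (e1 ▸ hu.2) (add_notMem_DD hv.1 hw.1 fun e0 => hS ?_)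
        rw [← e, e0, add_zero]; exact hu.1
      · rw [hsum] at e
        have e1 : v + w = u + u := by rw [dbl h3]; exact eq_neg_of_add_eq_zero_right e
        have := h.uniq v hv.1 w hw.1 u hu.1 u hu.1 e1 (by rw [e1]; exact h.nz u hu.1)
        rw [or_self] at this
        exact absurd this.symm huv
    refine ⟨by omega, fun d hd d' hd' h4 h5 hne => ?_⟩
    have hu : g - d ∈ MS S g := mem_MS.2 ⟨h4, by simpa using (mem_erase.1 hd).2⟩
    have hv : g - d' ∈ MS S g := mem_MS.2 ⟨h5, by simpa using (mem_erase.1 hd').2⟩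
    obtain ⟨w, hw, -, -, e⟩ := third hc3 hu hv fun e0 => hne (sub_right_injective e0)
    rw [hs'.2] at e
    have e1 : d + d' = w := by
      have e2 : d + d' = w + (g + g + g) := by
        have : w = -g - (g - d) - (g - d') := by rw [e]; abel
        rw [this]; abel
      rw [e2, h3, add_zero]
    rw [e1]
    exact (mem_MS.1 hw).1

end Pool.Agent.MP_c5d52e_co.H55
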