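import Pool.Agent.MP_c5d52e_co.H55.Spec

/-! Exponent three: the residues other than one and six. -/

open Finset

set_option linter.unusedSectionVars false

namespace Pool.Agent.MP_c5d52e_co.H55

namespace T2a

variable {G : Type} [AddCommGroup G] [Fintype G] [DecidableEq G]

theorem two_le (f : G → ℕ) {A B : Finset G} (h : ∀ g ∈ B, g ∉ A) :
    ∑ g ∈ A, f g + ∑ g ∈ B, f g ≤ ∑ g : G, f g := by
  rw [← sum_union (disjoint_right.2 h)]
  exact sum_le_sum_of_subset (subset_univ _)

theorem low (f : G → ℕ) {A : Finset G} {c : ℕ} (h : ∀ g ∈ A, c ≤ f g) :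
    A.card * c ≤ ∑ g ∈ A, f g := by
  simpa using card_nsmul_le_sum A f c h

theorem zero_of_mem {S : Finset G} (h : Sid S) (h3 : ∀ g : G, g + g + g = 0) {g : G}
    (hg : g ∈ S ∨ g = 0) : hit S ((DD S).erase 0) id g = 0 := by
  rw [hit, card_eq_zero, filter_eq_empty_iff]
  intro d hd hm
  rw [mem_erase] at hd
  simp only [id] at hm
  rcases hg with hg | rfl
  · have e : g + -(g - d) = d := by abel
    exact add_notMem_DD hg (h.neg _ hm) (by rw [e]; exact hd.1) (by rw [e]; exact hd.2)
  · have e : (0 - d) + (0 - d) = d := by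
      have e' : (0 - d) + (0 - d) = d - (d + d + d) := by abel
      rw [e', h3, sub_zero]
    exact add_notMem_DD hm hm (by rw [e]; exact hd.1) (by rw [e]; exact hd.2)

end T2a

open T2a in
theorem rowT2 : RowT1 → RowT2 := by
  intro hT1 G _ _ _ S h h3 hn hk hD h1 h6
  obtain ⟨hT, hDs, hY⟩ := hT1 G S h h3
  have hds : ((DD S).erase 0).card + 1 = (DD S).card := card_erase_add_one (zero_mem_DD S)
  have hs1 := sum_hit S ((DD S).erase 0) id
  have hs2 := sum_hit_mul h ((DD S).erase 0) ((DD S).erase 0) id id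
  rw [diag_card ((DD S).erase 0) id fun a _ b _ e => e] at hs2
  have hsum := two_le (hit S ((DD S).erase 0) id) fun g hg => (hDs g hg).1
  have hce := h.card_eq
  set Y := hit S ((DD S).erase 0) id with hYdef
  set ds := ((DD S).erase 0).card with hdsdef
  set k := S.card with hkdef
  set T := (Gen S \ DD S).card with hTdef
  have hds2 : ds ≤ 2 * k := by omega
  have hmul : ds * k ≤ 2 * k * k := Nat.mul_le_mul_right _ hds2
  by_cases hc : k % 3 = 0 ∨ k % 9 = 7
  · exfalso
    have h5 := low Y (A := Gen S \ DD S) (c := 5) fun g hg => by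
      obtain ⟨a1, a2, a3, a4, a5⟩ := hY g hg (Y g) rfl
      have a4' : Y g = 2 → k % 9 = 6 := fun e => (a4 e).1
      have a5' : Y g = 3 → k % 9 = 1 := fun e => (a5 e).1
      omega
    have e1 : T * 5 ≤ 2 * k * k := by omega
    have e2 : 12 * k ≤ k * k := Nat.mul_le_mul_right k hk
    nlinarith
  by_cases hc2 : k % 3 = 2
  · exfalso
    have h4 := low Y (A := Gen S \ DD S) (c := 4) fun g hg => by
      obtain ⟨a1, a2, -, -, -⟩ := hY g hg (Y g) rfl
      omega
    have h2 := low Y (A := (DD S).erase 0) (c := 2) fun g hg => by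
      have := (hDs g hg).2
      omega
    have h7 : 2 * k ≤ ds := by
      by_contra hlt
      have : ds + 1 ≤ 2 * k := by omega
      obtain ⟨j, hj⟩ : ∃ j, k = j + 2 := ⟨k - 2, by omega⟩
      have e1 : T * 4 + ds * 2 ≤ ds * k := by omega
      rw [hj] at e1 hT this hk
      nlinarith
    have h8 : ds = 2 * k := by omega
    obtain ⟨j, hj⟩ : ∃ j, k = 3 * j + 2 := ⟨k / 3, by omega⟩
    have e : k ^ 2 = 3 * (3 * j * j + 4 * j + 1) + 1 := by rw [hj]; ring
    omega
  have hk4 : k % 9 = 4 := by omega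
  have hpt : ∀ g : G, 6 * Y g ≤ Y g * Y g + if g ∈ (DD S).erase 0 then 9 else 0 := by
    intro g
    split_ifs with hg
    · zify
      nlinarith [sq_nonneg ((Y g : ℤ) - 3)]
    · by_cases hS : g ∈ S ∨ g = 0
      · have : Y g = 0 := zero_of_mem h h3 hS
        omega
      · push Not at hS
        have hgT : g ∈ Gen S \ DD S := mem_sdiff.2
          ⟨mem_Gen.2 ⟨hS.1, fun t _ e => hS.2 (by rw [← e, h3])⟩,
            fun hh => hg (mem_erase.2 ⟨hS.2, hh⟩)⟩
        obtain ⟨a1, -, -, -, a5⟩ := hY g hgT (Y g) rfl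
        have a5' : Y g = 3 → k % 9 = 1 := fun e => (a5 e).1
        have : Y g = 0 ∨ 6 ≤ Y g := by omega
        rcases this with e | e
        · omega
        · nlinarith
  have h9 := sum_le_sum fun g (_ : g ∈ (univ : Finset G)) => hpt g
  rw [← mul_sum, sum_add_distrib, sum_ite_mem, univ_inter, sum_const, smul_eq_mul, hs1] at h9
  have h10 : 5 * (ds * k) ≤ 2 * (ds * ds) + ds * 9 := by omega
  by_contra hne
  have h11 : 0 < ds := by omega
  have h12 : ds * (5 * k) ≤ ds * (2 * ds + 9) := by nlinarith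
  have := Nat.le_of_mul_le_mul_left h12 h11
  omega

end Pool.Agent.MP_c5d52e_co.H55
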