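import Pool.Agent.MP_c5d52e_co.H55.Spec

/-! Exponent three: the residue one. -/

open Finset

set_option linter.unusedSectionVars false

namespace Pool.Agent.MP_c5d52e_co.H55

namespace T3a

variable {G : Type} [AddCommGroup G] [Fintype G] [DecidableEq G]

theorem two_le (f : G → ℕ) {A B : Finset G} (h : ∀ g ∈ B, g ∉ A) :
    ∑ g ∈ A, f g + ∑ g ∈ B, f g ≤ ∑ g : G, f g := by
  rw [← sum_union (disjoint_right.2 h)]
  exact sum_le_sum_of_subset (subset_univ _)

theorem sum_pairs (S P : Finset G) :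
    ∑ g ∈ P, hit S P id g = ((P ×ˢ P).filter fun p => p.1 - p.2 ∈ S).card := by
  simp only [hit, card_filter, id]
  rw [sum_product]

end T3a

open T3a in
theorem rowT3 : RowT1 → RowT3 := by
  intro hT1 G _ _ _ S h h3 hk hD h1
  obtain ⟨hT, hDs, hY⟩ := hT1 G S h h3
  have hds : ((DD S).erase 0).card + 1 = (DD S).card := card_erase_add_one (zero_mem_DD S)
  have hs1 := sum_hit S ((DD S).erase 0) id
  have hsum := two_le (hit S ((DD S).erase 0) id) fun g hg => (hDs g hg).1
  have hal := sum_pairs S ((DD S).erase 0)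
  set P := (((DD S).erase 0) ×ˢ ((DD S).erase 0)).filter
    fun p => p.1 ≠ p.2 ∧ p.1 + p.2 ∈ S with hP
  have hPle : P.card ≤
      ((((DD S).erase 0) ×ˢ ((DD S).erase 0)).filter fun p => p.1 - p.2 ∈ S).card := by
    refine card_le_card_of_injOn (fun p => (p.1, -p.2)) (fun p hp => ?_) (fun p _ q _ e => ?_)
    · simp only [hP, coe_filter, mem_product, mem_erase, Set.mem_ofPred_eq] at hp ⊢
      exact ⟨⟨hp.1.1, neg_ne_zero.2 hp.1.2.1, h.neg_mem_DD hp.1.2.2⟩, by simpa using hp.2.2⟩
    · simp only [Prod.mk.injEq, neg_inj] at e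
      exact Prod.ext e.1 e.2
  set T3 := (Gen S \ DD S).filter fun g => hit S ((DD S).erase 0) id g = 3 with hT3
  have hdc : T3.card * 6 ≤ P.card * 2 := by
    refine card_mul_le_card_mul (fun (g : G) (p : G × G) => g - p.1 ∈ S ∧ g - p.2 ∈ S)
      (fun g hg => ?_) (fun p hp => ?_)
    · rw [hT3, mem_filter] at hg
      have a5 := ((hY g hg.1 _ rfl).2.2.2.2 hg.2).2
      have e : (((DD S).erase 0).filter fun d => g - id d ∈ S).offDiag.card = 6 := by
        have : (((DD S).erase 0).filter fun d => g - id d ∈ S).card = 3 := hg.2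
        rw [offDiag_card, this]
      rw [← e]
      refine card_le_card fun p hp => ?_
      simp only [mem_offDiag, mem_filter, id] at hp
      rw [mem_bipartiteAbove, hP, mem_filter, mem_product]
      exact ⟨⟨⟨hp.1.1, hp.2.1.1⟩, hp.2.2, a5 _ hp.1.1 _ hp.2.1.1 hp.1.2 hp.2.1.2 hp.2.2⟩,
        hp.1.2, hp.2.1.2⟩
    · rw [hP, mem_filter] at hp
      refine le_trans (card_le_card fun g hg => ?_) (h.codeg hp.2.1)
      rw [mem_bipartiteBelow] at hg
      exact mem_filter.2 ⟨mem_univ _, hg.2⟩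
  have hpt : ∀ g ∈ Gen S \ DD S, 6 ≤ hit S ((DD S).erase 0) id g +
      if hit S ((DD S).erase 0) id g = 3 then 3 else 0 := by
    intro g hg
    obtain ⟨a1, -, a3, -, -⟩ := hY g hg _ rfl
    split_ifs <;> omega
  have h9 := sum_le_sum hpt
  rw [sum_add_distrib, ← sum_filter, sum_const, sum_const, smul_eq_mul, smul_eq_mul, ← hT3] at h9
  have hds2 : ((DD S).erase 0).card ≤ 2 * S.card := by omega
  have hmul := Nat.mul_le_mul_right S.card hds2
  have h10 : (Gen S \ DD S).card * 6 ≤ 2 * S.card * S.card := by omega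
  nlinarith

end Pool.Agent.MP_c5d52e_co.H55
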