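import Pool.Agent.MP_c5d52e_co.H55.Spec

/-! Exponent three: the residue six. -/

open Finset

set_option linter.unusedSectionVars false

namespace Pool.Agent.MP_c5d52e_co.H55

namespace T4a

variable {G : Type} [AddCommGroup G] [Fintype G] [DecidableEq G]

theorem two_le (f : G → ℕ) {A B : Finset G} (h : ∀ g ∈ B, g ∉ A) :
    ∑ g ∈ A, f g + ∑ g ∈ B, f g ≤ ∑ g : G, f g := by
  rw [← sum_union (disjoint_right.2 h)]
  exact sum_le_sum_of_subset (subset_univ _)

theorem sum_pairs (S P : Finset G) :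
    ∑ g ∈ P, hit S P id g = ((P ×ˢ P).filter fun p => p.1 - p.2 ∈ S).card := by
  simp only [hit, card_filter, id]
  rw [sum_product]

theorem sq_part (f : G → ℕ) (A : Finset G) :
    ∑ g ∈ A, f g ^ 2 + ∑ g : G, f g ≤ ∑ g : G, f g * f g + ∑ g ∈ A, f g := by
  have h1 := sum_add_sum_compl A f
  have h2 := sum_add_sum_compl A fun g => f g * f g
  have h3 : ∑ g ∈ Aᶜ, f g ≤ ∑ g ∈ Aᶜ, f g * f g := sum_le_sum fun g _ => Nat.le_mul_self _
  simp only [sq]
  omega

theorem arith {k d a : ℤ} (hk : 36 ≤ k) (hd0 : 0 ≤ d) (hd : d ≤ 2 * k) (ha : k * k ≤ a + 10 * k)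
    (h : a ^ 2 ≤ d * (a + 2 * (d * d))) : False := by
  have h0 : 0 ≤ k * (k - 12) := by nlinarith
  have ha0 : 0 ≤ a := by nlinarith
  have h1 : d * d ≤ 2 * k * (2 * k) := mul_le_mul hd hd hd0 (by linarith)
  have h2 : d * (a + 2 * (d * d)) ≤ 2 * k * (a + 2 * (2 * k * (2 * k))) :=
    mul_le_mul hd (by linarith) (by positivity) (by linarith)
  have h3 : (k * k - 10 * k) * (k * k - 12 * k) ≤ a * (a - 2 * k) :=
    mul_le_mul (by linarith) (by linarith) (by linarith) ha0
  have h4 : 0 < k * k * (k * (k - 38) + 120) := by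
    apply mul_pos (by positivity)
    nlinarith [sq_nonneg (k - 36)]
  nlinarith

end T4a

open T4a in
theorem rowT4 : RowT1 → RowT4 := by
  intro hT1 G _ _ _ S h h3 hk hD h1
  obtain ⟨hT, hDs, hY⟩ := hT1 G S h h3
  have hds : ((DD S).erase 0).card + 1 = (DD S).card := card_erase_add_one (zero_mem_DD S)
  have hs1 := sum_hit S ((DD S).erase 0) id
  have hs2 := sum_hit_mul h ((DD S).erase 0) ((DD S).erase 0) id id
  rw [diag_card ((DD S).erase 0) id fun a _ b _ e => e] at hs2
  have hsum := two_le (hit S ((DD S).erase 0) id) fun g hg => (hDs g hg).1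
  have hal := sum_pairs S ((DD S).erase 0)
  have hsq := sq_part (hit S ((DD S).erase 0) id) ((DD S).erase 0)
  have hcs := sq_sum_le_card_mul_sum_sq (s := (DD S).erase 0) (f := hit S ((DD S).erase 0) id)
  set P := (((DD S).erase 0) ×ˢ ((DD S).erase 0)).filter fun p => p.1 - p.2 ∈ S with hP
  set T2 := (Gen S \ DD S).filter fun g => hit S ((DD S).erase 0) id g = 2 with hT2
  have hdc : T2.card * 2 ≤ P.card * 1 := by
    refine card_mul_le_card_mul (fun (g : G) (p : G × G) => p.1 + p.2 = -g)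
      (fun g hg => ?_) (fun p _ => ?_)
    · rw [hT2, mem_filter] at hg
      obtain ⟨d, hd, d', hd', hne, hS, e⟩ := ((hY g hg.1 _ rfl).2.2.2.1 hg.2).2
      have hne' : (d, d') ≠ (d', d) := fun e => hne (congrArg Prod.fst e)
      rw [← card_pair hne']
      refine card_le_card fun p hp => ?_
      rw [mem_bipartiteAbove, hP, mem_filter, mem_product]
      simp only [mem_insert, mem_singleton] at hp
      rcases hp with rfl | rfl
      · exact ⟨⟨⟨hd, hd'⟩, hS⟩, e⟩
      · exact ⟨⟨⟨hd', hd⟩, by simpa using h.neg _ hS⟩, by rw [← e]; exact add_comm _ _⟩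
    · refine card_le_one.2 fun g hg g' hg' => ?_
      rw [mem_bipartiteBelow] at hg hg'
      exact neg_injective (hg.2.symm.trans hg'.2)
  have hpt : ∀ g ∈ Gen S \ DD S, 5 ≤ hit S ((DD S).erase 0) id g +
      if hit S ((DD S).erase 0) id g = 2 then 3 else 0 := by
    intro g hg
    obtain ⟨a1, -, -, -, -⟩ := hY g hg _ rfl
    split_ifs <;> omega
  have h9 := sum_le_sum hpt
  rw [sum_add_distrib, ← sum_filter, sum_const, sum_const, smul_eq_mul, smul_eq_mul, ← hT2] at h9
  have hds2 : ((DD S).erase 0).card ≤ 2 * S.card := by omega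
  have hmul := Nat.mul_le_mul_right S.card hds2
  have h10 : S.card * S.card ≤ P.card + 10 * S.card := by nlinarith
  have h11 : ∑ g ∈ (DD S).erase 0, hit S ((DD S).erase 0) id g ^ 2 ≤
      P.card + 2 * (((DD S).erase 0).card * ((DD S).erase 0).card) := by omega
  have h12 := hcs.trans (Nat.mul_le_mul_left _ h11)
  rw [hal] at h12
  exact arith (k := S.card) (d := ((DD S).erase 0).card) (a := P.card) (by exact_mod_cast hk)
    (Nat.cast_nonneg _) (by exact_mod_cast hds2) (by exact_mod_cast h10) (by exact_mod_cast h12)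

end Pool.Agent.MP_c5d52e_co.H55
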