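import Pool.Agent.MP_c5d52e_co.H55.Spec

/-! Row TRI. -/

open Finset

namespace Pool.Agent.MP_c5d52e_co.H55

theorem rowTRI : RowTRI := by
  intro G _ _ _ S h Q a b J hJ
  have h1 : tri S Q a b = ∑ t ∈ Q, (S.filter fun s => b • t + a • s ∈ S).card := by
    simp only [tri, card_filter, sum_product]
  have h2 : ∑ t ∈ Q, (S.filter fun s => b • t + a • s ∈ S).card ^ 2 =
      ∑ p ∈ S ×ˢ S, (Q.filter fun t => b • t + a • p.1 ∈ S ∧ b • t + a • p.2 ∈ S).card := by
    simp only [card_filter]
    rw [sum_comm]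
    refine sum_congr rfl fun t _ => ?_
    rw [sq, sum_mul_sum, sum_product]
    refine sum_congr rfl fun s _ => sum_congr rfl fun s' _ => ?_
    rw [ite_and]
    split_ifs <;> rfl
  have h3 : ∀ p ∈ S ×ˢ S,
      (Q.filter fun t => b • t + a • p.1 ∈ S ∧ b • t + a • p.2 ∈ S).card ≤
        (if a • p.1 = a • p.2 then Q.card else 0) + 2 * J := by
    intro p _
    split_ifs with e
    · exact (card_filter_le _ _).trans (Nat.le_add_right _ _)
    · have h4 := card_le_mul_card_image_of_maps_to
        (s := Q.filter fun t => b • t + a • p.1 ∈ S ∧ b • t + a • p.2 ∈ S)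
        (t := S.filter fun s => a • p.2 - a • p.1 + s ∈ S) (f := fun t => b • t + a • p.1)
        (fun t ht => by
          obtain ⟨-, h5, h6⟩ := mem_filter.1 ht
          refine mem_filter.2 ⟨h5, ?_⟩
          rwa [show a • p.2 - a • p.1 + (b • t + a • p.1) = b • t + a • p.2 by abel]) J
        (fun u _ => (card_le_card fun t ht => by
          obtain ⟨h5, h6⟩ := mem_filter.1 ht
          exact mem_filter.2 ⟨(mem_filter.1 h5).1, eq_sub_of_add_eq h6⟩).trans (hJ (u - a • p.1)))
      have h5 := h.r2' (sub_ne_zero.2 (Ne.symm e))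
      rw [zero_add, mul_comm]
      exact h4.trans (Nat.mul_le_mul_left _ h5)
  have h4 := sum_le_sum h3
  rw [sum_add_distrib, ← sum_filter, sum_const, sum_const, card_product, smul_eq_mul, smul_eq_mul,
    ← h2] at h4
  have h5 := Nat.mul_le_mul_right Q.card (h.energy a)
  rw [h1]
  refine sq_sum_le_card_mul_sum_sq.trans (Nat.mul_le_mul_left _ (h4.trans ?_))
  nlinarith

end Pool.Agent.MP_c5d52e_co.H55
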