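import Pool.Agent.MP_c5d52e_co.H55.Spec

/-! The case where multiplication by `2c - 1` has an image with two elements. -/

open Finset

set_option linter.unusedSectionVars false

namespace Pool.Agent.MP_c5d52e_co.H55

namespace TWOa

variable {G : Type} [AddCommGroup G] [Fintype G] [DecidableEq G] {S : Finset G}

theorem key (h : Sid S) {c : ℤ} (hc : 3 * c = S.card + 2) {g : G} (hg : g ∈ Ty S 2 0)
    {t : G} (ht : t ∈ XS S g) : t + t - (2 * c - 1) • g ∈ S := by
  obtain ⟨hG, hX, hM⟩ := mem_Ty.1 hg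
  obtain ⟨c', h1, h2⟩ := h.star hG
  have hcc : c' = c := by
    rw [hX, hM] at h1
    push_cast at h1
    omega
  subst hcc
  rw [card_eq_zero.1 hM, sum_empty, sub_zero] at h2
  obtain ⟨a, b, hab, hXS⟩ := card_eq_two.1 hX
  rw [hXS, sum_pair hab] at h2
  have ha : g - (a + a) ∈ S := (mem_XS.1 (hXS ▸ mem_insert_self a {b})).2
  have hb : g - (b + b) ∈ S := (mem_XS.1 (hXS ▸ mem_insert_of_mem (mem_singleton_self b))).2
  have e : (2 * c' - 1) • g = a + b + (a + b) - g := by
    rw [sub_smul, one_smul, two_mul, add_smul, h2]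
  rw [hXS, mem_insert, mem_singleton] at ht
  rcases ht with rfl | rfl
  · rw [e, show t + t - (t + b + (t + b) - g) = g - (b + b) by abel]; exact hb
  · rw [e, show t + t - (a + t + (a + t) - g) = g - (a + a) by abel]; exact ha

theorem upper (h : Sid S) {c : ℤ} (hc : 3 * c = S.card + 2)
    (h2 : ∀ t : G, (2 * c - 1) • t + (2 * c - 1) • t = 0) {J : ℕ}
    (hJ : ∀ v : G, cnt S (2 * c - 1) v ≤ J) (y : G) :
    2 * ((Ty S 2 0).filter fun g => (2 * c - 1) • g = y).card ≤
      (S.filter fun t => t + t - y ∈ S).card * J := by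
  have e1 : 2 * ((Ty S 2 0).filter fun g => (2 * c - 1) • g = y).card =
      (((Ty S 2 0).filter fun g => (2 * c - 1) • g = y).sigma fun g => XS S g).card := by
    rw [card_sigma, mul_comm, ← smul_eq_mul, ← sum_const]
    exact sum_congr rfl fun g hg => (mem_Ty.1 (mem_filter.1 hg).1).2.1.symm
  rw [e1]
  refine le_trans ?_ (Nat.mul_le_mul_left _ (hJ y))
  rw [cnt, ← card_product]
  refine card_le_card_of_injOn (fun p => (p.2, p.1 - (p.2 + p.2))) (fun p hp => ?_)
    (fun p _ p' _ e => ?_)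
  · rw [mem_coe, mem_sigma, mem_filter] at hp
    obtain ⟨⟨h1, h3⟩, h4⟩ := hp
    rw [mem_coe, mem_product, mem_filter, mem_filter]
    refine ⟨⟨(mem_XS.1 h4).1, ?_⟩, (mem_XS.1 h4).2, ?_⟩
    · rw [← h3]; exact key h hc h1 h4
    · show (2 * c - 1) • (p.1 - (p.2 + p.2)) = y
      rw [smul_sub, smul_add, h2, sub_zero, h3]
  · obtain ⟨g, t⟩ := p
    obtain ⟨g', t'⟩ := p'
    simp only [Prod.mk.injEq] at e
    obtain ⟨rfl, e2⟩ := e
    rw [sub_left_injective e2]

theorem disj (h : Sid S) {y y' : G} (hne : y ≠ y') (hy : y + y = 0) (hy' : y' + y' = 0) {w : G}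
    (h1 : w - y ∈ S) (h2 : w - y' ∈ S) : False := by
  have e : w - y + -(w - y') = w - y' + -(w - y) := by
    have : w - y + -(w - y') - (w - y' + -(w - y)) = (y' + y') - (y + y) := by abel
    rw [hy, hy', sub_zero] at this
    exact sub_eq_zero.1 this
  have n0 : w - y + -(w - y') ≠ 0 := fun h0 => hne (by
    have : w - y = w - y' := by rwa [← sub_eq_add_neg, sub_eq_zero] at h0
    exact sub_right_injective this)
  rcases h.uniq _ h1 _ (h.neg _ h2) _ h2 _ (h.neg _ h1) e n0 with h3 | h3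
  · exact hne (sub_right_injective h3)
  · exact h.nz _ h1 (by nth_rewrite 2 [h3]; simp)

theorem lower (h : Sid S) {c : ℤ} (hc : 3 * c = S.card + 2)
    (h2 : ∀ t : G, (2 * c - 1) • t + (2 * c - 1) • t = 0) {y y' : G} (hne : y ≠ y')
    (hy : y + y = 0) (hy' : y' + y' = 0) (hq : (2 * c - 1) • y' = y') {J' : ℕ}
    (hJ : J' ≤ cnt S (2 * c - 1) y) :
    ((Ty S 2 0).filter fun g => (2 * c - 1) • g = y).card +
      (S.filter fun t => t + t - y' ∈ S).card * J' ≤ tor G (2 * c - 1) := by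
  have hw : ∀ t : G, (2 * c - 1) • (t + t - y') = y' := fun t => by
    rw [smul_sub, smul_add, h2, hq, zero_sub]
    exact neg_eq_of_add_eq_zero_left hy'
  let A := (S.filter fun t => t + t - y' ∈ S) ×ˢ (S.filter fun s => (2 * c - 1) • s = y)
  have hinj : Set.InjOn (fun p : G × G => p.1 + p.1 + p.2) A := by
    intro p hp p' hp' e
    rw [mem_coe, mem_product, mem_filter, mem_filter] at hp hp'
    have e' : p.1 + p.1 - y' + p.2 = p'.1 + p'.1 - y' + p'.2 := by
      have e1 : p.1 + p.1 + p.2 = p'.1 + p'.1 + p'.2 := e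
      rw [show p.1 + p.1 - y' + p.2 = p.1 + p.1 + p.2 - y' by abel, e1]; abel
    have n0 : p.1 + p.1 - y' + p.2 ≠ 0 := fun h0 => hne (by
      have h3 := congrArg (fun x => (2 * c - 1) • x) h0
      simp only [smul_add, smul_zero] at h3
      rw [hw, hp.2.2] at h3
      exact add_left_cancel (h3.trans hy'.symm))
    rcases h.uniq' hp.1.2 hp.2.1 hp'.1.2 hp'.2.1 e' n0 with h3 | h3
    · exact Prod.ext (h.two_inj hp.1.1 hp'.1.1 (sub_left_injective h3.1)) h3.2
    · exact absurd (by rw [← hp'.2.2, ← h3.1, hw]) hne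
  have hd : Disjoint ((Ty S 2 0).filter fun g => (2 * c - 1) • g = y)
      (A.image fun p : G × G => p.1 + p.1 + p.2) := by
    rw [disjoint_left]
    intro g hg hg'
    obtain ⟨p, hp, rfl⟩ := mem_image.1 hg'
    rw [mem_product, mem_filter, mem_filter] at hp
    rw [mem_filter] at hg
    have h3 : p.1 ∈ XS S (p.1 + p.1 + p.2) := mem_XS.2 ⟨hp.1.1, by simpa using hp.2.1⟩
    have h4 := key h hc hg.1 h3
    rw [hg.2] at h4
    exact disj h hne hy hy' h4 hp.1.2
  have h5 : (S.filter fun t => t + t - y' ∈ S).card * J' ≤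
      (A.image fun p : G × G => p.1 + p.1 + p.2).card := by
    rw [card_image_of_injOn hinj, card_product]
    exact Nat.mul_le_mul_left _ hJ
  refine le_trans (Nat.add_le_add_left h5 _) ?_
  rw [← card_union_of_disjoint hd]
  refine le_trans (card_le_card fun g hg => ?_) (fib_le (2 * c - 1) y univ)
  rw [mem_filter]
  refine ⟨mem_univ _, ?_⟩
  rcases mem_union.1 hg with hg | hg
  · exact (mem_filter.1 hg).2
  · obtain ⟨p, hp, rfl⟩ := mem_image.1 hg
    rw [mem_product, mem_filter, mem_filter] at hp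
    rw [smul_add, smul_add, h2, zero_add, hp.2.2]

end TWOa

open TWOa in
theorem rowTWO : RowTWO := by
  intro G _ _ _ S h c hc hi J J' hJ hJ'
  have h0 : (0 : G) ∈ img G (2 * c - 1) := mem_img.2 ⟨0, by simp⟩
  obtain ⟨z, hz, hI⟩ : ∃ z : G, z ≠ 0 ∧ img G (2 * c - 1) = {0, z} := by
    obtain ⟨a, b, hab, e⟩ := card_eq_two.1 hi
    rw [e, mem_insert, mem_singleton] at h0
    rcases h0 with rfl | rfl
    · exact ⟨b, hab.symm, e⟩
    · exact ⟨a, hab, e.trans (pair_comm _ _)⟩
  have hzI : z ∈ img G (2 * c - 1) := by rw [hI]; simp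
  have hall : ∀ g : G, (2 * c - 1) • g = 0 ∨ (2 * c - 1) • g = z := fun g => by
    have : (2 * c - 1) • g ∈ img G (2 * c - 1) := mem_img.2 ⟨g, rfl⟩
    rwa [hI, mem_insert, mem_singleton] at this
  have hzz : z + z = 0 := by
    obtain ⟨g, hg⟩ := mem_img.1 hzI
    rcases hall (-g) with h1 | h1
    · rw [smul_neg, hg, neg_eq_zero] at h1; exact absurd h1 hz
    · rw [smul_neg, hg] at h1
      nth_rewrite 1 [← h1]; simp
  have h2 : ∀ t : G, (2 * c - 1) • t + (2 * c - 1) • t = 0 := fun t => by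
    rcases hall t with h1 | h1 <;> rw [h1]
    exacts [add_zero 0, hzz]
  have hqz : (2 * c - 1) • z = z := by
    rw [sub_smul, one_smul, two_mul, add_smul, ← smul_add, hzz, smul_zero, zero_sub]
    exact neg_eq_of_add_eq_zero_left hzz
  have u0 := upper h hc h2 hJ 0
  have uz := upper h hc h2 hJ z
  have l0 := lower h hc h2 hz.symm (add_zero 0) hzz hqz (hJ' 0 h0)
  have lz := lower h hc h2 hz hzz (add_zero 0) (smul_zero _) (hJ' z hzI)
  have hN : (Ty S 2 0).card ≤ ((Ty S 2 0).filter fun g => (2 * c - 1) • g = 0).card +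
      ((Ty S 2 0).filter fun g => (2 * c - 1) • g = z).card := by
    refine le_trans (card_le_card fun g hg => ?_) (card_union_le _ _)
    rw [mem_union, mem_filter, mem_filter]
    rcases hall g with h1 | h1
    exacts [Or.inl ⟨hg, h1⟩, Or.inr ⟨hg, h1⟩]
  have hP : (S.filter fun t => t + t - 0 ∈ S).card + (S.filter fun t => t + t - z ∈ S).card ≤
      S.card := by
    rw [← card_union_of_disjoint]
    · exact card_le_card (union_subset (filter_subset _ _) (filter_subset _ _))
    · rw [disjoint_left]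
      intro t h1 h3
      exact disj h hz.symm (add_zero 0) hzz (mem_filter.1 h1).2 (mem_filter.1 h3).2
  have hn := tor_mul_img (G := G) (2 * c - 1)
  rw [hi] at hn
  have hJJ : J' ≤ J := (hJ' 0 h0).trans (hJ 0)
  obtain ⟨r, hr⟩ := Nat.exists_eq_add_of_le hP
  have hr' : r * J' ≤ r * J := Nat.mul_le_mul_left _ hJJ
  rw [hr, add_mul, add_mul, add_mul, add_mul]
  omega

end Pool.Agent.MP_c5d52e_co.H55
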