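import Pool.Agent.MP_c5d52e_co.H55.Star
import Pool.Agent.MP_c5d52e_co.H55.Defs

/-! Statements of the rows. -/

open Finset

namespace Pool.Agent.MP_c5d52e_co.H55

section
variable {G : Type} [AddCommGroup G] [Fintype G] [DecidableEq G]

/-- Elements of `S` that are not doubles. -/
def PP (S : Finset G) : Finset G := S.filter fun v => ∀ t ∈ S, t + t ≠ v

/-- Elements of `S` whose double is not in `S`. -/
def QQ (S : Finset G) : Finset G := S.filter fun t => t + t ∉ S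

def exc (S : Finset G) (v : G) : ℕ := (S.filter fun s => ∃ t ∈ S, t + t + t = v + s).card

end

def RowTRI : Prop :=
  ∀ (G : Type) [AddCommGroup G] [Fintype G] [DecidableEq G] (S : Finset G), Sid S →
    ∀ (Q : Finset G) (a b : ℤ) (J : ℕ), (∀ v : G, (Q.filter fun t => b • t = v).card ≤ J) →
      tri S Q a b ^ 2 ≤ Q.card * (Q.card * (S.card + 2 * tor G a) + 2 * S.card ^ 2 * J)

def RowN1 : Prop :=
  ∀ (G : Type) [AddCommGroup G] [Fintype G] [DecidableEq G] (S : Finset G), Sid S →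
    (Ty S 1 0).card ^ 2 ≤
        S.card ^ 2 + 2 * S.card * (Fintype.card G + 1) + 4 * Fintype.card G ∧
      (Ty S 0 1).card ^ 2 ≤ S.card * (DD S).card ^ 2 + 2 * (DD S).card * Fintype.card G ∧
      ∀ c : ℤ, 3 * c = S.card → (Ty S 0 0).card ≤ tor G c

def RowN11 : Prop :=
  ∀ (G : Type) [AddCommGroup G] [Fintype G] [DecidableEq G] (S : Finset G), Sid S →
    ∀ c : ℤ, 3 * c = S.card →
      (Ty S 1 1).card ≤ tri S S (-c) (1 - 2 * c) ∧ (Ty S 1 1).card ≤ tri S (DD S) (c + 1) c ∧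
      (Ty S 1 1).card ≤ 2 * S.card * (img G (c + 1)).card * (img G (2 * c - 1)).card ∧
      (Ty S 1 1).card ≤ 2 * S.card * (img G c).card

def RowN30 : Prop :=
  ∀ (G : Type) [AddCommGroup G] [Fintype G] [DecidableEq G] (S : Finset G), Sid S →
    ∀ c : ℤ, 3 * c = S.card → (Ty S 3 0).card ^ 2 ≤ (img G c).card ^ 2 * (27 * S.card ^ 3)

def RowN20 : Prop :=
  ∀ (G : Type) [AddCommGroup G] [Fintype G] [DecidableEq G] (S : Finset G), Sid S →
    ∀ c : ℤ, 3 * c = S.card + 2 →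
      (Ty S 2 0).card ≤ tri S S c (2 * c - 1) ∧
      (Ty S 2 0).card ≤ 2 * S.card * (img G c).card + 2 * S.card ∧
      ∀ J : ℕ, (∀ v : G, cnt S (2 * c - 1) v ≤ J) →
        2 * (Ty S 2 0).card ≤ (S.card + (img G (2 * c - 1)).card ^ 2) * J

def RowTWO : Prop :=
  ∀ (G : Type) [AddCommGroup G] [Fintype G] [DecidableEq G] (S : Finset G), Sid S →
    ∀ c : ℤ, 3 * c = S.card + 2 → (img G (2 * c - 1)).card = 2 →
      ∀ J J' : ℕ, (∀ v : G, cnt S (2 * c - 1) v ≤ J) →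
        (∀ v ∈ img G (2 * c - 1), J' ≤ cnt S (2 * c - 1) v) →
        3 * (Ty S 2 0).card + S.card * J' ≤ Fintype.card G + S.card * J

def RowONEa : Prop :=
  ∀ (G : Type) [AddCommGroup G] [Fintype G] [DecidableEq G] (S : Finset G), Sid S →
    (PP S).card = (QQ S).card ∧ ∑ v ∈ S, exc S v ≤ 3 * S.card ∧
    ∀ c : ℤ, 3 * c = S.card + 2 → (∀ g : G, (2 * c - 1) • g = 0) → ∀ v ∈ PP S,
      4 * S.card + 2 * (S ∩ DD S).card ≤ 20 + 5 * exc S v + (QQ S).card +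
        (if v ∈ DD S then 2 * S.card else 0) + 4 * (DD S).card

def RowONEc : Prop :=
  ∀ (G : Type) [AddCommGroup G] [Fintype G] [DecidableEq G] (S : Finset G), Sid S →
    ∀ c : ℤ, 3 * c = S.card + 2 → (∀ g : G, (2 * c - 1) • g = 0) →
      ∀ F : ℕ, F + 1 = (PP S).card + (QQ S).card + (DD S).card →
        S.card * F ≤ F ^ 2 + S.card * (PP S ∩ DD S).card + 2 * F + S.card + (DD S).card +
          (QQ S).card

def RowPERF : Prop :=
  ∀ (G : Type) [AddCommGroup G] [Fintype G] [DecidableEq G] (S : Finset G), Sid S →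
    (DD S).card = 1 → (∀ t ∈ S, t + t ∈ S) → S.card ≤ 994

def RowCOUNT : Prop :=
  ∀ (G : Type) [AddCommGroup G] [Fintype G] [DecidableEq G] (S : Finset G), Sid S →
    (S.card % 3 = 2 → 4 * Fintype.card G ≤
      S.card ^ 2 + 2 * S.card * (DD S).card + 8 * S.card + 3 * (Ty S 1 0).card) ∧
    (S.card % 3 = 1 → 5 * Fintype.card G ≤ S.card ^ 2 + 2 * S.card * (DD S).card +
      10 * S.card + 3 * ((Ty S 2 0).card + (Ty S 0 1).card)) ∧
    (S.card % 3 = 0 → 3 * Fintype.card G ≤ S.card ^ 2 + S.card * (DD S).card +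
      6 * S.card + 3 * (Ty S 0 0).card + (Ty S 1 1).card) ∧
    (S.card % 3 = 0 → 3 * S.card ^ 2 ≤ 8 * (DD S).card ^ 2 +
      9 * (2 * S.card + (Ty S 1 1).card + (Ty S 3 0).card))

def RowBR : Prop :=
  ∀ (G : Type) [AddCommGroup G] [Fintype G] [DecidableEq G] (A : Finset G),
    IsB2 A ↔ Sid (A ∪ A.image fun a => -a) ∧ (A ∪ A.image fun a => -a).card = 2 * A.card

def RowEX : Prop :=
  ∀ r m : ℕ, (r, m) ∈ ({(0, 0), (1, 1), (2, 2), (3, 3), (5, 11)} : Finset (ℕ × ℕ)) →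
    ∃ A : Finset (Fin r → ZMod 3), A.card = m ∧ Sid (A ∪ A.image fun a => -a) ∧
      (A ∪ A.image fun a => -a).card = 2 * A.card

/-- Exponent three: the local facts. -/
def RowT1 : Prop :=
  ∀ (G : Type) [AddCommGroup G] [Fintype G] [DecidableEq G] (S : Finset G), Sid S →
    (∀ g : G, g + g + g = 0) →
    2 * (Gen S \ DD S).card + 2 * S.card = S.card ^ 2 ∧
    (∀ g ∈ (DD S).erase 0, g ∉ Gen S \ DD S ∧ hit S ((DD S).erase 0) id g % 3 = S.card % 3) ∧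
    ∀ g ∈ Gen S \ DD S, ∀ Y, Y = hit S ((DD S).erase 0) id g →
      (Y + 1) % 3 = S.card % 3 ∧ Y ≠ 1 ∧ (Y = 0 → S.card % 9 = 4) ∧
      (Y = 2 → S.card % 9 = 6 ∧ ∃ d ∈ (DD S).erase 0, ∃ d' ∈ (DD S).erase 0,
        d ≠ d' ∧ d - d' ∈ S ∧ d + d' = -g) ∧
      (Y = 3 → S.card % 9 = 1 ∧ ∀ d ∈ (DD S).erase 0, ∀ d' ∈ (DD S).erase 0,
        g - d ∈ S → g - d' ∈ S → d ≠ d' → d + d' ∈ S)

def RowT2 : Prop :=
  ∀ (G : Type) [AddCommGroup G] [Fintype G] [DecidableEq G] (S : Finset G), Sid S →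
    (∀ g : G, g + g + g = 0) → 3 ∣ Fintype.card G → 12 ≤ S.card →
    (DD S).card ≤ 2 * S.card + 1 → S.card % 9 ≠ 1 → S.card % 9 ≠ 6 → (DD S).card = 1

def RowT3 : Prop :=
  ∀ (G : Type) [AddCommGroup G] [Fintype G] [DecidableEq G] (S : Finset G), Sid S →
    (∀ g : G, g + g + g = 0) → 12 ≤ S.card → (DD S).card ≤ 2 * S.card + 1 → S.card % 9 ≠ 1

def RowT4 : Prop :=
  ∀ (G : Type) [AddCommGroup G] [Fintype G] [DecidableEq G] (S : Finset G), Sid S →
    (∀ g : G, g + g + g = 0) → 36 ≤ S.card → (DD S).card ≤ 2 * S.card + 1 → S.card % 9 ≠ 6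

end Pool.Agent.MP_c5d52e_co.H55
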