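import Pool.Agent.MP_c5d52e_co.H55.Kit

/-! The partition of `S` into triples with sum `g`, and the moments of `X` and `Y`. -/

open Finset

set_option linter.unusedSectionVars false

namespace Pool.Agent.MP_c5d52e_co.H55

variable {G : Type} [AddCommGroup G] [Fintype G] [DecidableEq G]

namespace Sid

variable {S : Finset G} (h : Sid S)
include h

/-- Two triples with sum `g` that share a point agree. -/
theorem triple {g x y z y' z' : G} (hg : g ∉ S) (hx : x ∈ S) (hy : y ∈ S) (hz : z ∈ S)
    (hy' : y' ∈ S) (hz' : z' ∈ S) (e : x + y + z = g) (e' : x + y' + z' = g) :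
    y' = y ∨ y' = z := by
  refine h.uniq y' hy' z' hz' y hy z hz ?_ fun h0 => hg ?_
  · have := e'.trans e.symm
    rw [add_assoc, add_assoc] at this
    exact add_left_cancel this
  · rw [← e', add_assoc, h0, add_zero]; exact hx

theorem mem_XS_triple {g x y z : G} (hg : g ∉ S) (hx : x ∈ S) (hy : y ∈ S) (hz : z ∈ S)
    (e : x + y + z = g) : x ∈ XS S g ↔ x = y ∨ x = z := by
  rw [mem_XS]
  constructor
  · rintro ⟨-, h1⟩
    exact h.triple hg hx hy hz hx h1 e (by abel)
  · rintro (rfl | rfl)
    · exact ⟨hx, by rw [← e]; simpa using hz⟩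
    · exact ⟨hx, by rw [← e, show x + y + x - (x + x) = y by abel]; exact hy⟩

omit h in
theorem notMem_MS_triple {g x y z : G} (hg : g ∉ S) (hx : x ∈ S) (hy : y ∈ S) (hz : z ∈ S)
    (e : x + y + z = g) : x ∉ MS S g := by
  rw [mem_MS]
  rintro ⟨-, h1⟩
  rw [← e, show x + y + z - x = y + z by abel] at h1
  refine add_notMem_DD hy hz (fun h0 => hg ?_) h1
  rw [← e, add_assoc, h0, add_zero]; exact hx

theorem star_aux {g : G} (hg : g ∈ Gen S) (V : Finset G) :
    V ⊆ S → (∀ u ∈ V, ∃ a ∈ V, ∃ b ∈ V, u + a + b = g) →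
      ∃ c : ℤ, 3 * c = V.card + (V.filter (· ∈ XS S g)).card ∧
        c • g = ∑ u ∈ V, u + ∑ t ∈ V.filter (· ∈ XS S g), t := by
  rw [mem_Gen] at hg
  induction V using Finset.strongInduction with
  | H V ih =>
    intro hV hcl
    rcases V.eq_empty_or_nonempty with rfl | ⟨u, hu⟩
    · exact ⟨0, by simp, by simp⟩
    obtain ⟨a, ha, b, hb, e⟩ := hcl u hu
    have hB : ({u, a, b} : Finset G) ⊆ V := by
      intro x hx
      simp only [mem_insert, mem_singleton] at hx
      rcases hx with rfl | rfl | rfl <;> assumption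
    have hin : ∀ w ∈ V, ∀ x ∈ V, ∀ y ∈ V, w + x + y = g → x ∈ ({u, a, b} : Finset G) →
        w ∈ ({u, a, b} : Finset G) := by
      intro w hw x hx y hy e' hxB
      have e'' : x + w + y = g := by rw [← e']; abel
      simp only [mem_insert, mem_singleton] at hxB ⊢
      rcases hxB with rfl | rfl | rfl
      · exact Or.inr (h.triple hg.1 (hV hx) (hV ha) (hV hb) (hV hw) (hV hy) e e'')
      · have := h.triple hg.1 (hV hx) (hV hu) (hV hb) (hV hw) (hV hy) (by rw [← e]; abel) e''
        tauto
      · have := h.triple hg.1 (hV hx) (hV hu) (hV ha) (hV hw) (hV hy) (by rw [← e]; abel) e''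
        tauto
    obtain ⟨c, hc1, hc2⟩ := ih (V \ {u, a, b}) (sdiff_ssubset hB ⟨u, by simp⟩)
      (sdiff_subset.trans hV) (fun w hw => by
        rw [mem_sdiff] at hw
        obtain ⟨x, hx, y, hy, e'⟩ := hcl w hw.1
        exact ⟨x, mem_sdiff.2 ⟨hx, fun hh => hw.2 (hin w hw.1 x hx y hy e' hh)⟩, y,
          mem_sdiff.2 ⟨hy, fun hh => hw.2 (hin w hw.1 y hy x hx (by rw [← e']; abel) hh)⟩, e'⟩)
    have k1 := h.mem_XS_triple hg.1 (hV hu) (hV ha) (hV hb) e
    have k2 := h.mem_XS_triple hg.1 (hV ha) (hV hu) (hV hb) (by rw [← e]; abel)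
    have k3 := h.mem_XS_triple hg.1 (hV hb) (hV hu) (hV ha) (by rw [← e]; abel)
    have key : ({u, a, b} : Finset G).card + (({u, a, b} : Finset G).filter (· ∈ XS S g)).card = 3 ∧
        ∑ x ∈ ({u, a, b} : Finset G), x +
          ∑ t ∈ ({u, a, b} : Finset G).filter (· ∈ XS S g), t = g := by
      by_cases h1 : u = a
      · subst h1
        have h2 : u ≠ b := fun h2 => hg.2 u (hV hu) (by rw [← e, ← h2])
        have m1 : u ∈ XS S g := k1.2 (Or.inl rfl)
        have m2 : b ∉ XS S g := fun hh => h2 (by rcases k3.1 hh with h | h <;> exact h.symm)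
        simp only [mem_insert, true_or, insert_eq_of_mem, filter_insert, filter_singleton, m1, m2,
          if_true, if_false, card_pair h2, sum_pair h2]
        exact ⟨by simp, by rw [← e]; simp; abel⟩
      · by_cases h2 : u = b
        · subst h2
          have m1 : u ∈ XS S g := k1.2 (Or.inr rfl)
          have m2 : a ∉ XS S g := fun hh => h1 (by rcases k2.1 hh with h | h <;> exact h.symm)
          have e1 : ({u, a, u} : Finset G) = {u, a} := by
            ext x; simp only [mem_insert, mem_singleton]; tauto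
          rw [e1]
          simp only [filter_insert, filter_singleton, m1, m2, if_true, if_false, card_pair h1,
            sum_pair h1]
          exact ⟨by simp, by rw [← e]; simp⟩
        · have m1 : u ∉ XS S g := fun hh => by rcases k1.1 hh with h | h <;> contradiction
          by_cases h3 : a = b
          · subst h3
            have m2 : a ∈ XS S g := k2.2 (Or.inr rfl)
            simp only [mem_singleton, insert_eq_of_mem, filter_insert, filter_singleton, m1, m2,
              if_true, if_false, card_pair h1, sum_pair h1]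
            exact ⟨by simp, by rw [← e]; simp⟩
          · have m2 : a ∉ XS S g := fun hh => by
              rcases k2.1 hh with h | h
              exacts [h1 h.symm, h3 h]
            have m3 : b ∉ XS S g := fun hh => by
              rcases k3.1 hh with h | h
              exacts [h2 h.symm, h3 h.symm]
            have n1 : u ∉ ({a, b} : Finset G) := by simp [h1, h2]
            simp only [filter_insert, filter_singleton, m1, m2, m3, if_false, card_insert_of_notMem n1,
              sum_insert n1, card_pair h3, sum_pair h3]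
            exact ⟨by simp, by rw [← e]; simp; abel⟩
    have hV' : V = V \ {u, a, b} ∪ {u, a, b} := (sdiff_union_of_subset hB).symm
    have hd : Disjoint (V \ {u, a, b}) {u, a, b} := sdiff_disjoint
    have hd' : Disjoint ((V \ {u, a, b}).filter (· ∈ XS S g))
        (({u, a, b} : Finset G).filter (· ∈ XS S g)) := disjoint_filter_filter hd
    refine ⟨c + 1, ?_, ?_⟩
    · rw [hV', filter_union, card_union_of_disjoint hd, card_union_of_disjoint hd']
      have := key.1
      push_cast
      omega
    · rw [hV', filter_union, sum_union hd, sum_union hd', add_smul, one_smul, hc2]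
      nth_rewrite 3 [← key.2]
      abel

/-- The partition identity. -/
theorem star {g : G} (hg : g ∈ Gen S) :
    ∃ c : ℤ, 3 * c + (MS S g).card = S.card + (XS S g).card ∧
      c • g = ∑ t ∈ XS S g, t - ∑ u ∈ MS S g, u := by
  have hg' := mem_Gen.1 hg
  have hM : MS S g ⊆ S := filter_subset _ _
  obtain ⟨c, hc1, hc2⟩ := h.star_aux hg (S \ MS S g) sdiff_subset fun u hu => by
    rw [mem_sdiff, mem_MS] at hu
    obtain ⟨-, a, ha, b, hb, e⟩ := exists_of_notMem_DD fun hh => hu.2 ⟨hu.1, hh⟩
    have e' : u + a + b = g := by rw [add_assoc, ← e]; abel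
    exact ⟨a, mem_sdiff.2 ⟨ha, notMem_MS_triple hg'.1 ha hu.1 hb (by rw [← e']; abel)⟩, b,
      mem_sdiff.2 ⟨hb, notMem_MS_triple hg'.1 hb hu.1 ha (by rw [← e']; abel)⟩, e'⟩
  have e1 : (S \ MS S g).filter (· ∈ XS S g) = XS S g := by
    ext t
    simp only [mem_filter, mem_sdiff]
    refine ⟨fun hh => hh.2, fun hh => ⟨⟨(mem_XS.1 hh).1, ?_⟩, hh⟩⟩
    exact notMem_MS_triple hg'.1 (mem_XS.1 hh).1 (mem_XS.1 hh).1 (mem_XS.1 hh).2 (by abel)
  rw [e1] at hc1 hc2
  have e2 := card_sdiff_add_card_eq_card hM
  have e3 := sum_sdiff (f := fun u : G => u) hM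
  rw [h.sum_zero] at e3
  refine ⟨c, by omega, ?_⟩
  rw [hc2, eq_neg_of_add_eq_zero_left e3]
  abel

/-- The points `t ∈ X(g)`, `g - 2 t` and `u ∈ M(g)` are distinct. -/
theorem XS_facts {g t : G} (hg : g ∈ Gen S) (ht : t ∈ XS S g) :
    t ∉ MS S g ∧ g - (t + t) ∉ MS S g ∧ g - (t + t) ∉ XS S g := by
  rw [mem_Gen] at hg
  rw [mem_XS] at ht
  refine ⟨notMem_MS_triple hg.1 ht.1 ht.1 ht.2 (by abel),
    notMem_MS_triple hg.1 ht.2 ht.1 ht.1 (by abel), fun hh => ?_⟩
  have := (h.mem_XS_triple hg.1 ht.2 ht.1 ht.1 (by abel)).1 hh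
  rw [or_self] at this
  exact hg.2 t ht.1 (by rw [← sub_eq_zero, ← neg_eq_zero, ← sub_eq_zero.2 this]; abel)

end Sid

/-- Number of points of `P` (weighted through a map `f`) in the translate `g - S`. -/
def hit {α : Type} (S : Finset G) (P : Finset α) (f : α → G) (g : G) : ℕ :=
  (P.filter fun x => g - f x ∈ S).card

theorem sum_hit {α : Type} (S : Finset G) (P : Finset α) (f : α → G) :
    ∑ g : G, hit S P f g = P.card * S.card := by
  simp only [hit, card_filter]
  rw [sum_comm]
  simp only [← card_filter, card_translate]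
  simp

theorem sum_hit_mul {α β : Type} {S : Finset G} (h : Sid S) (P : Finset α) (Q : Finset β)
    (f : α → G) (f' : β → G) :
    ∑ g : G, hit S P f g * hit S Q f' g ≤
      ((P ×ˢ Q).filter fun p => f p.1 = f' p.2).card * S.card + 2 * (P.card * Q.card) := by
  have e : ∀ g : G, hit S P f g * hit S Q f' g =
      ∑ p ∈ P ×ˢ Q, if g - f p.1 ∈ S ∧ g - f' p.2 ∈ S then 1 else 0 := by
    intro g
    rw [← card_filter, hit, hit, ← card_product]
    congr 1
    ext p
    simp only [mem_product, mem_filter]
    tauto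
  simp only [e]
  rw [sum_comm]
  simp only [← card_filter]
  have h1 : ∀ p ∈ P ×ˢ Q, (univ.filter fun g : G => g - f p.1 ∈ S ∧ g - f' p.2 ∈ S).card ≤
      (if f p.1 = f' p.2 then S.card else 0) + 2 := by
    intro p _
    split_ifs with hp
    · rw [← card_translate S (f p.1)]
      exact le_trans (card_le_card fun g hg => by
        simp only [mem_filter] at hg ⊢; exact ⟨hg.1, hg.2.1⟩) (Nat.le_add_right _ _)
    · rw [zero_add]; exact h.codeg hp
  refine le_trans (sum_le_sum h1) (le_of_eq ?_)
  rw [sum_add_distrib, ← sum_filter, sum_const, sum_const, card_product, smul_eq_mul, smul_eq_mul,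
    mul_comm _ 2]

theorem XS_hit (S : Finset G) (g : G) : (XS S g).card = hit S S (fun t => t + t) g := rfl

theorem MS_hit (S : Finset G) (g : G) : (MS S g).card = hit S (DD S) id g := by
  unfold hit
  refine card_bij (fun u _ => g - u) (fun u hu => ?_) (fun u _ v _ e => sub_right_injective e)
    (fun d hd => ⟨g - d, ?_, by simp⟩)
  · rw [mem_MS] at hu
    exact mem_filter.2 ⟨hu.2, by simpa using hu.1⟩
  · rw [mem_filter] at hd
    exact mem_MS.2 ⟨hd.2, by simpa using hd.1⟩

theorem diag_card {α : Type} [DecidableEq α] (P : Finset α) (f : α → G) (hf : Set.InjOn f P) :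
    ((P ×ˢ P).filter fun p => f p.1 = f p.2).card = P.card := by
  refine card_bij (fun p _ => p.1) (fun p hp => (mem_product.1 (mem_filter.1 hp).1).1)
    (fun p hp q hq e => ?_) (fun x hx => ⟨(x, x), by simp [hx], rfl⟩)
  rw [mem_filter, mem_product] at hp hq
  exact Prod.ext e (((hf hp.1.1 hp.1.2 hp.2).symm.trans e).trans (hf hq.1.1 hq.1.2 hq.2))

theorem sum_X (S : Finset G) : ∑ g : G, (XS S g).card = S.card * S.card := by
  simp only [XS_hit, sum_hit]

theorem sum_Y (S : Finset G) : ∑ g : G, (MS S g).card = (DD S).card * S.card := by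
  simp only [MS_hit, sum_hit]

theorem Sid.sum_XX {S : Finset G} (h : Sid S) :
    ∑ g : G, (XS S g).card * (XS S g).card ≤ 3 * (S.card * S.card) := by
  simp only [XS_hit]
  have := sum_hit_mul h S S (fun t => t + t) (fun t => t + t)
  rw [diag_card S (fun t => t + t) fun a ha b hb e => h.two_inj ha hb e] at this
  omega

theorem Sid.sum_XY {S : Finset G} (h : Sid S) :
    ∑ g : G, (XS S g).card * (MS S g).card ≤ 2 * (S.card * (DD S).card) := by
  simp only [XS_hit, MS_hit]
  have := sum_hit_mul h S (DD S) (fun t => t + t) id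
  have e : ((S ×ˢ DD S).filter fun p => p.1 + p.1 = id p.2) = ∅ := by
    refine filter_eq_empty_iff.2 fun p hp e => ?_
    rw [mem_product] at hp
    exact add_notMem_DD hp.1 hp.1 (h.nz _ hp.1) (by rw [e]; exact hp.2)
  rw [e] at this
  simpa using this

theorem Sid.sum_YY {S : Finset G} (h : Sid S) :
    ∑ g : G, (MS S g).card * (MS S g).card ≤
      (DD S).card * S.card + 2 * ((DD S).card * (DD S).card) := by
  simp only [MS_hit]
  have := sum_hit_mul h (DD S) (DD S) id id
  rwa [diag_card (DD S) id fun a _ b _ e => e] at this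

end Pool.Agent.MP_c5d52e_co.H55
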